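import Pool.Agent.P.MP_d565f2_an.Box

set_option autoImplicit false

open Finset MvPolynomial Complex

namespace Pool.Agent.P.MP_d565f2_an

/-- `ex t = exp (2 π i t)`. -/
noncomputable def ex (t : ℝ) : ℂ := Complex.exp (2 * (Real.pi : ℂ) * I * (t : ℂ))

theorem hasDerivAt_ex (t : ℝ) : HasDerivAt ex (2 * (Real.pi : ℂ) * I * ex t) t := by
  have h1 : HasDerivAt (fun s : ℂ => Complex.exp (2 * (Real.pi : ℂ) * I * s))
      (Complex.exp (2 * (Real.pi : ℂ) * I * (t : ℂ)) * (2 * (Real.pi : ℂ) * I)) (t : ℂ) := by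
    simpa using ((hasDerivAt_id (t : ℂ)).const_mul (2 * (Real.pi : ℂ) * I)).cexp
  have h2 := h1.comp_ofReal
  rw [mul_comm (Complex.exp _)] at h2
  exact h2

theorem contDiff_ex {n : WithTop ℕ∞} : ContDiff ℝ n ex := by
  unfold ex
  exact (contDiff_const.mul Complex.ofRealCLM.contDiff).cexp

theorem iteratedDeriv_ex (j : ℕ) :
    iteratedDeriv j ex = fun t => (2 * (Real.pi : ℂ) * I) ^ j * ex t := by
  induction j with
  | zero => funext t; simp
  | succ j ih =>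
    funext t
    rw [iteratedDeriv_succ, ih, ((hasDerivAt_ex t).const_mul _).deriv]
    ring

variable {ι : Type*} [Fintype ι]

/-- The real functional `x ↦ ξ ⬝ x`. -/
noncomputable def lin (ξ : ι → ℤ) : (ι → ℝ) →L[ℝ] ℝ :=
  ∑ i, (ξ i : ℝ) • ContinuousLinearMap.proj i

theorem lin_apply (ξ : ι → ℤ) (x : ι → ℝ) : lin ξ x = ∑ i, (ξ i : ℝ) * x i := by
  simp [lin]

theorem wave_eq (ξ : ι → ℤ) (x : ι → ℝ) :
    Complex.exp (2 * (Real.pi : ℂ) * I * ∑ i, ((ξ i : ℝ) : ℂ) * ((x i : ℝ) : ℂ)) =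
      ex (lin ξ x) := by
  rw [ex, lin_apply]
  push_cast
  rfl

theorem iteratedFDeriv_wave (S : Finset (ι → ℤ)) (c : (ι → ℤ) → ℂ) (j : ℕ) (p : ι → ℝ)
    (v : Fin j → ι → ℝ) :
    iteratedFDeriv ℝ j (fun x : ι → ℝ => ∑ ξ ∈ S, c ξ * ex (lin ξ x)) p v =
      (2 * (Real.pi : ℂ) * I) ^ j *
        ∑ ξ ∈ S, c ξ * ex (lin ξ p) * ((∏ l, lin ξ (v l) : ℝ) : ℂ) := by
  have h1 : ∀ ξ : ι → ℤ, ContDiff ℝ j (fun x : ι → ℝ => ex (lin ξ x)) := fun ξ =>
    contDiff_ex.comp (lin ξ).contDiff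
  rw [iteratedFDeriv_fun_sum_apply (fun ξ _ => (contDiff_const.mul (h1 ξ)).contDiffAt),
    _root_.sum_apply, Finset.mul_sum]
  refine Finset.sum_congr rfl fun ξ _ => ?_
  have h2 := iteratedFDeriv_const_smul_apply' (𝕜 := ℝ) (a := c ξ) (x := p) (h1 ξ).contDiffAt
  simp only [smul_eq_mul] at h2
  rw [h2, _root_.smul_apply]
  have h3 := (lin ξ).iteratedFDeriv_comp_right (f := ex) (n := j) contDiff_ex p (i := j) le_rfl
  have h4 : (fun x : ι → ℝ => ex (lin ξ x)) = ex ∘ lin ξ := rfl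
  rw [h4, h3, ContinuousMultilinearMap.compContinuousLinearMap_apply,
    iteratedFDeriv_apply_eq_iteratedDeriv_mul_prod, iteratedDeriv_ex]
  simp only [smul_eq_mul, Complex.real_smul]
  ring

theorem exists_tuple [DecidableEq ι] (s : ι →₀ ℕ) :
    ∃ v : Fin (s.sum fun _ e => e) → ι, ∀ x : ι → ℤ, ∏ l, x (v l) = ∏ i, x i ^ s i := by
  let L := (Finsupp.toMultiset s).toList
  have hL : L.length = s.sum fun _ e => e := by
    simp only [L, Multiset.length_toList, Finsupp.card_toMultiset]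
    rfl
  refine ⟨fun l => L.get (l.cast hL.symm), fun x => ?_⟩
  have h1 : ∏ l : Fin (s.sum fun _ e => e), x (L.get (l.cast hL.symm)) =
      ∏ l : Fin L.length, x (L.get l) :=
    Fin.prod_congr' (fun l => x (L.get l)) hL.symm
  rw [h1]
  have h2 : ∏ l : Fin L.length, x (L.get l) = (L.map x).prod := by
    simp
  rw [h2]
  have h3 : (L.map x).prod = ((Finsupp.toMultiset s).map x).prod := by
    simp [L]
  rw [h3, Finsupp.toMultiset_map, Finsupp.prod_toMultiset, Finsupp.prod_mapDomain_index]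
  · rw [Finsupp.prod_fintype]
    simp
  · simp
  · intro b m₁ m₂; rw [pow_add]

/-- Vanishing derivatives give orthogonality to polynomials. -/
theorem rel_of_vanishing [DecidableEq ι] (S : Finset (ι → ℤ)) (c : (ι → ℤ) → ℂ) (p : ι → ℝ)
    (k : ℕ) (h : ∀ j : ℕ, j < k + 1 →
      iteratedFDeriv ℝ j (fun x : ι → ℝ => ∑ ξ ∈ S, c ξ * ex (lin ξ x)) p = 0) :
    Rel (S.filter fun ξ => c ξ ≠ 0) k := by
  classical
  refine ⟨fun ξ => c ξ * ex (lin ξ p), ?_, ?_⟩
  · intro x hx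
    exact mul_ne_zero (mem_filter.1 hx).2 (Complex.exp_ne_zero _)
  · intro f hf
    have h0 : ∑ x ∈ S.filter (fun ξ => c ξ ≠ 0), c x * ex (lin x p) * ((eval x f : ℤ) : ℂ) =
        ∑ x ∈ S, c x * ex (lin x p) * ((eval x f : ℤ) : ℂ) := by
      rw [sum_filter]
      refine sum_congr rfl fun x _ => ?_
      split_ifs with h2
      · rfl
      · push Not at h2
        simp [h2]
    rw [h0]
    simp only [eval_eq']
    push_cast
    simp only [Finset.mul_sum]
    rw [Finset.sum_comm]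
    refine Finset.sum_eq_zero fun s hs => ?_
    obtain ⟨v, hv⟩ := exists_tuple s
    have h1 := iteratedFDeriv_wave S c _ p (fun l => Pi.single (v l) 1)
    have hdeg : (s.sum fun _ e => e) ≤ k := (le_totalDegree hs).trans hf
    rw [h _ (by omega), _root_.zero_apply] at h1
    have h2 : (2 * (Real.pi : ℂ) * I) ^ (s.sum fun _ e => e) ≠ 0 :=
      pow_ne_zero _ Complex.two_pi_I_ne_zero
    have h3 := (mul_eq_zero.1 h1.symm).resolve_left h2
    have h4 : ∀ ξ : ι → ℤ, ((∏ l, lin ξ (Pi.single (v l) 1) : ℝ) : ℂ) = ∏ i, (ξ i : ℂ) ^ s i := by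
      intro ξ
      have h5 : ∀ l, lin ξ (Pi.single (v l) 1) = (ξ (v l) : ℝ) := by
        intro l
        simp [lin_apply, Pi.single_apply]
      simp only [h5]
      exact_mod_cast hv ξ
    simp only [h4] at h3
    calc ∑ x ∈ S, c x * ex (lin x p) * (((coeff s f : ℤ) : ℂ) * ∏ i, (x i : ℂ) ^ s i)
        = ((coeff s f : ℤ) : ℂ) * ∑ x ∈ S, c x * ex (lin x p) * ∏ i, (x i : ℂ) ^ s i := by
          rw [Finset.mul_sum]
          exact Finset.sum_congr rfl fun x _ => by ring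
      _ = 0 := by rw [h3, mul_zero]

/-- Orthogonality to polynomials gives vanishing derivatives at the origin. -/
theorem vanishing_of_orth [DecidableEq ι] (S : Finset (ι → ℤ)) (c : (ι → ℤ) → ℂ) (j : ℕ)
    (h : ∀ v : Fin j → ι, ∑ x ∈ S, c x * ∏ l, (x (v l) : ℂ) = 0) :
    iteratedFDeriv ℝ j (fun x : ι → ℝ => ∑ ξ ∈ S, c ξ * ex (lin ξ x)) 0 = 0 := by
  classical
  ext v
  rw [iteratedFDeriv_wave, _root_.zero_apply]
  refine mul_eq_zero_of_right _ ?_
  have h1 : ∀ ξ : ι → ℤ, ((∏ l, lin ξ (v l) : ℝ) : ℂ) =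
      ∑ f : Fin j → ι, (∏ l, (v l (f l) : ℂ)) * ∏ l, (ξ (f l) : ℂ) := by
    intro ξ
    simp only [lin_apply]
    rw [Finset.prod_univ_sum]
    push_cast
    simp only [Fintype.piFinset_univ]
    refine Finset.sum_congr rfl fun f _ => ?_
    rw [← Finset.prod_mul_distrib]
    exact Finset.prod_congr rfl fun l _ => by ring
  simp only [h1, Finset.mul_sum]
  rw [Finset.sum_comm]
  refine Finset.sum_eq_zero fun f _ => ?_
  have h2 : ∀ ξ : ι → ℤ, ex (lin ξ 0) = 1 := by intro ξ; simp [ex]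
  simp only [h2]
  calc ∑ x ∈ S, c x * 1 * ((∏ l, (v l (f l) : ℂ)) * ∏ l, (x (f l) : ℂ))
      = (∏ l, (v l (f l) : ℂ)) * ∑ x ∈ S, c x * ∏ l, (x (f l) : ℂ) := by
        rw [Finset.mul_sum]
        exact Finset.sum_congr rfl fun x _ => by ring
    _ = 0 := by rw [h f, mul_zero]

/-- The trivial bound. -/
theorem not_rel_card {Z : Finset (ι → ℤ)} (hZ : Z.Nonempty) : ¬ Rel Z (Z.card - 1) := by
  classical
  rintro ⟨c, hc, hf⟩
  obtain ⟨x, hx⟩ := hZ
  have hex2 : ∀ y : ι → ℤ, ∃ g : MvPolynomial ι ℤ, g.totalDegree ≤ 1 ∧ eval y g = 0 ∧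
      (y ≠ x → eval x g ≠ 0) := by
    intro y
    by_cases h : y = x
    · exact ⟨0, by simp, by simp, fun h' => absurd h h'⟩
    · obtain ⟨i, hi⟩ := Function.ne_iff.1 h
      refine ⟨X i - C (y i), ?_, by simp, fun _ => ?_⟩
      · refine (totalDegree_sub _ _).trans (max_le ?_ (by rw [totalDegree_C]; omega))
        rw [totalDegree_X]
      · simp only [map_sub, eval_X, eval_C]
        exact sub_ne_zero.2 hi.symm
  choose g hg1 hg2 hg3 using hex2
  have h1 := hf (∏ y ∈ Z.erase x, g y) (by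
    refine (totalDegree_finsetProd _ _).trans ?_
    rw [← Finset.card_erase_of_mem hx, Finset.card_eq_sum_ones]
    exact Finset.sum_le_sum fun y _ => hg1 y)
  rw [Finset.sum_eq_single_of_mem x hx] at h1
  · refine mul_ne_zero (hc x hx) ?_ h1
    rw [map_prod]
    exact_mod_cast Finset.prod_ne_zero_iff.2 fun y hy => hg3 y (mem_erase.1 hy).1
  · intro y hy hyx
    rw [map_prod, Finset.prod_eq_zero (mem_erase.2 ⟨hyx, hy⟩) (hg2 y)]
    simp

variable [DecidableEq ι]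

/-- The lattice points on the sphere of squared radius `n`. -/
noncomputable def sph (ι : Type*) [Fintype ι] [DecidableEq ι] (n : ℕ) : Finset (ι → ℤ) :=
  (box ι n).filter fun x => x ⬝ᵥ x = n

theorem mem_sph {n : ℕ} {x : ι → ℤ} : x ∈ sph ι n ↔ x ⬝ᵥ x = n := by
  rw [sph, mem_filter]
  refine ⟨fun h => h.2, fun h => ⟨mem_box_of_dot ?_, h⟩⟩
  rw [h]
  exact_mod_cast Nat.le_self_pow two_ne_zero n

theorem set_eq_sph (n : ℕ) : {ξ : ι → ℤ | ∑ i, ξ i ^ 2 = (n : ℤ)} = ↑(sph ι n) := by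
  ext x
  simp only [Set.mem_ofPred_eq, Finset.mem_coe, mem_sph, dotProduct, sq]

theorem fun_eq (n : ℕ) (c : (ι → ℤ) → ℂ) :
    (fun x : ι → ℝ => ∑ᶠ ξ ∈ {ξ : ι → ℤ | ∑ i, ξ i ^ 2 = (n : ℤ)},
      c ξ * Complex.exp (2 * (Real.pi : ℂ) * Complex.I *
        ∑ i, ((ξ i : ℝ) : ℂ) * ((x i : ℝ) : ℂ))) =
      fun x : ι → ℝ => ∑ ξ ∈ sph ι n, c ξ * ex (lin ξ x) := by
  funext x
  rw [set_eq_sph, finsum_mem_coe_finset]
  simp only [wave_eq]

/-- If no nonempty set of lattice points of the sphere has `Rel Z K`, the vanishing order is at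
most `K`. -/
theorem order_le {n K : ℕ} (hK : ∀ Z ⊆ sph ι n, Z.Nonempty → ¬ Rel Z K) (k : ℕ)
    (c : (ι → ℤ) → ℂ) (p : ι → ℝ)
    (hne : (fun x : ι → ℝ => ∑ ξ ∈ sph ι n, c ξ * ex (lin ξ x)) ≠ 0)
    (hvan : ∀ j : ℕ, j < k →
      iteratedFDeriv ℝ j (fun x : ι → ℝ => ∑ ξ ∈ sph ι n, c ξ * ex (lin ξ x)) p = 0) :
    k ≤ K := by
  classical
  by_contra hk
  refine hK _ (filter_subset _ _) ?_
    (rel_of_vanishing (sph ι n) c p K fun j hj => hvan j (by omega))
  by_contra hemp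
  apply hne
  funext x
  rw [Finset.not_nonempty_iff_eq_empty, Finset.filter_eq_empty_iff] at hemp
  refine Finset.sum_eq_zero fun ξ hξ => ?_
  have := hemp hξ
  push Not at this
  simp [this]

end Pool.Agent.P.MP_d565f2_an
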