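import Pool.Agent.P.MP_d565f2_an.Orth

set_option autoImplicit false

open Finset Module

namespace Pool.Agent.P.MP_d565f2_an

variable {ι : Type*} [Fintype ι] [DecidableEq ι]

/-- The integer box `[-r, r]^ι`. -/
noncomputable def box (ι : Type*) [Fintype ι] [DecidableEq ι] (r : ℕ) : Finset (ι → ℤ) :=
  Fintype.piFinset fun _ => Icc (-(r : ℤ)) r

theorem mem_box {r : ℕ} {z : ι → ℤ} : z ∈ box ι r ↔ ∀ i, |z i| ≤ r := by
  simp [box, abs_le]

theorem card_box (r : ℕ) : (box ι r).card = (2 * r + 1) ^ Fintype.card ι := by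
  rw [box, Fintype.card_piFinset]
  simp only [Int.card_Icc, Finset.prod_const, Finset.card_univ]
  congr 1
  omega

/-- Cast of an integer vector. -/
def cst (x : ι → ℤ) : ι → ℚ := fun i => (x i : ℚ)

/-- The functional `w ↦ u ⬝ w`. -/
noncomputable def dotL (u : ι → ℤ) : (ι → ℚ) →ₗ[ℚ] ℚ := ∑ i, (u i : ℚ) • LinearMap.proj i

omit [DecidableEq ι] in
theorem dotL_cst (u x : ι → ℤ) : dotL u (cst x) = ((u ⬝ᵥ x : ℤ) : ℚ) := by
  simp [dotL, cst, dotProduct]

omit [DecidableEq ι] in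
theorem finrank_inf_ker_lt (W : Submodule ℚ (ι → ℚ)) (φ : (ι → ℚ) →ₗ[ℚ] ℚ) {w : ι → ℚ}
    (hw : w ∈ W) (hφ : φ w ≠ 0) : finrank ℚ ↥(W ⊓ LinearMap.ker φ) < finrank ℚ W := by
  apply Submodule.finrank_lt_finrank_of_lt
  refine lt_of_le_of_ne inf_le_left fun h => hφ ?_
  rw [← h] at hw
  exact hw.2

theorem card_le_of_diff_mem (r : ℕ) : ∀ (D : ℕ) (W : Submodule ℚ (ι → ℚ)), finrank ℚ W ≤ D →
    ∀ T ⊆ box ι r, (∀ x ∈ T, ∀ y ∈ T, cst (x - y) ∈ W) → T.card ≤ (2 * r + 1) ^ D := by
  intro D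
  induction D with
  | zero =>
    intro W hW T _ hT
    have : W = ⊥ := Submodule.finrank_eq_zero.1 (by omega)
    subst this
    rw [pow_zero, Finset.card_le_one]
    intro x hx y hy
    have h := hT x hx y hy
    rw [Submodule.mem_bot] at h
    funext i
    have := congrFun h i
    simp only [cst, Pi.sub_apply, Pi.zero_apply] at this
    have h2 : x i - y i = 0 := by exact_mod_cast this
    omega
  | succ D ih =>
    intro W hW T hTb hT
    by_cases hbot : ∀ w ∈ W, w = 0
    · have : W = ⊥ := (Submodule.eq_bot_iff W).2 hbot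
      have h := ih W (by rw [this]; simp) T hTb hT
      exact h.trans (Nat.pow_le_pow_right (by omega) (by omega))
    · push Not at hbot
      obtain ⟨w, hw, hw0⟩ := hbot
      obtain ⟨i, hi⟩ := Function.ne_iff.1 hw0
      have hlt := finrank_inf_ker_lt W (LinearMap.proj i) hw (by simpa using hi)
      have h1 : T.card ≤ (2 * r + 1) ^ D * (Icc (-(r : ℤ)) r).card := by
        refine Finset.card_le_mul_card_image_of_maps_to (f := fun x => x i) ?_ _ ?_
        · intro x hx
          have := mem_box.1 (hTb hx) i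
          simpa [abs_le] using this
        · intro t _
          refine ih (W ⊓ LinearMap.ker (LinearMap.proj i)) (by omega) _
            ((filter_subset _ _).trans hTb) ?_
          intro x hx y hy
          rw [mem_filter] at hx hy
          refine ⟨hT x hx.1 y hy.1, ?_⟩
          simp [cst, hx.2, hy.2]
      have h2 : (Icc (-(r : ℤ)) r).card = 2 * r + 1 := by
        rw [Int.card_Icc]; omega
      rw [h2] at h1
      rwa [pow_succ]

omit [DecidableEq ι] in
theorem sq_le_dot (z : ι → ℤ) (i : ι) : z i ^ 2 ≤ z ⬝ᵥ z := by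
  unfold dotProduct
  rw [sq]
  exact Finset.single_le_sum (f := fun j => z j * z j) (fun j _ => mul_self_nonneg _) (mem_univ i)

omit [DecidableEq ι] in
theorem dot_self_nonneg (z : ι → ℤ) : 0 ≤ z ⬝ᵥ z :=
  Finset.sum_nonneg fun _ _ => mul_self_nonneg _

omit [DecidableEq ι] in
theorem dot_self_pos {z : ι → ℤ} (hz : z ≠ 0) : 0 < z ⬝ᵥ z := by
  obtain ⟨i, hi⟩ := Function.ne_iff.1 hz
  have h1 := sq_le_dot z i
  have hi' : z i ≠ 0 := hi
  have h2 : 0 < z i ^ 2 := by positivity
  omega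

theorem mem_box_of_dot {z : ι → ℤ} {r : ℕ} (h : z ⬝ᵥ z ≤ (r : ℤ) ^ 2) : z ∈ box ι r := by
  rw [mem_box]
  intro i
  have := (sq_le_dot z i).trans h
  exact abs_le_of_sq_le_sq this (by positivity)

omit [DecidableEq ι] in
/-- Two points of a sphere that are congruent modulo `p`. -/
theorem exists_mate {n : ℤ} {x y : ι → ℤ} {p r : ℕ} (hx : x ⬝ᵥ x = n) (hy : y ⬝ᵥ y = n)
    (hne : y ≠ x) (hp : 0 < p) (hdvd : ∀ i, (p : ℤ) ∣ x i - y i)
    (hr : 4 * n ≤ (p : ℤ) ^ 2 * (r : ℤ) ^ 2) :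
    ∃ z : ι → ℤ, z ≠ 0 ∧ x - y = (p : ℤ) • z ∧ z ⬝ᵥ z ≤ (r : ℤ) ^ 2 ∧
      2 * (x ⬝ᵥ z) = p * (z ⬝ᵥ z) := by
  choose z hz using hdvd
  have hxy : x - y = (p : ℤ) • z := by
    funext i; simp [hz i]
  have hy' : y = x - (p : ℤ) • z := by rw [← hxy]; abel
  have hp' : (0 : ℤ) < p := by exact_mod_cast hp
  have h1 : y ⬝ᵥ y = x ⬝ᵥ x - 2 * p * (x ⬝ᵥ z) + p ^ 2 * (z ⬝ᵥ z) := by
    rw [hy']
    simp only [sub_dotProduct, dotProduct_sub, smul_dotProduct, dotProduct_smul, smul_eq_mul,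
      dotProduct_comm z x]
    ring
  have h2 : 2 * (x ⬝ᵥ z) = p * (z ⬝ᵥ z) := by
    apply mul_left_cancel₀ hp'.ne'
    linear_combination h1 - hy + hx
  refine ⟨z, ?_, hxy, ?_, h2⟩
  · rintro rfl
    apply hne
    simpa using hy'
  · have h3 : 0 ≤ (x + y) ⬝ᵥ (x + y) := dot_self_nonneg _
    have h4 : (x + y) ⬝ᵥ (x + y) = 4 * n - p ^ 2 * (z ⬝ᵥ z) := by
      have : x + y = (2 : ℤ) • x - (p : ℤ) • z := by rw [hy']; funext i; simp; ring
      rw [this]
      simp only [sub_dotProduct, dotProduct_sub, smul_dotProduct, dotProduct_smul, smul_eq_mul,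
        dotProduct_comm z x]
      linear_combination 4 * hx - 2 * p * h2
    have h5 : (p : ℤ) ^ 2 * (z ⬝ᵥ z) ≤ (p : ℤ) ^ 2 * (r : ℤ) ^ 2 := by omega
    exact le_of_mul_le_mul_left h5 (by positivity)

/-- The recursion with a single prime. -/
theorem rec_single {n : ℤ} {p r : ℕ} (hp : p.Prime) (hr : 4 * n ≤ (p : ℤ) ^ 2 * (r : ℤ) ^ 2) :
    ∀ (D : ℕ) (W : Submodule ℚ (ι → ℚ)), finrank ℚ W ≤ D →
    ∀ Z : Finset (ι → ℤ), Z.Nonempty → (∀ x ∈ Z, x ⬝ᵥ x = n) →
      (∀ x ∈ Z, ∀ y ∈ Z, cst (x - y) ∈ W) →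
      Rel Z (2 * (Fintype.card ι * (p - 1)) + D * (2 * r + 1) ^ D) → False := by
  classical
  intro D
  induction D using Nat.strong_induction_on with
  | _ D ih =>
    intro W hW Z hZ hS hdiff hrel
    let F : Finset (ι → ℤ) := (box ι r).filter fun z => z ≠ 0 ∧ cst z ∈ W
    have hcst : ∀ x y : ι → ℤ, cst (x - y) = cst x - cst y := by
      intro x y; funext i; simp [cst]
    have hF : F.card ≤ (2 * r + 1) ^ D := by
      refine card_le_of_diff_mem r D W hW F (filter_subset _ _) ?_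
      intro x hx y hy
      rw [hcst]
      exact W.sub_mem (mem_filter.1 hx).2.2 (mem_filter.1 hy).2.2
    have hF0 : D = 0 → F = ∅ := by
      rintro rfl
      have : W = ⊥ := Submodule.finrank_eq_zero.1 (by omega)
      rw [Finset.eq_empty_iff_forall_notMem]
      intro z hz
      obtain ⟨-, hz0, hzW⟩ := mem_filter.1 hz
      rw [this, Submodule.mem_bot] at hzW
      apply hz0
      funext i
      have := congrFun hzW i
      simpa [cst] using this
    have hle : (D - 1) * (2 * r + 1) ^ (D - 1) + F.card ≤ D * (2 * r + 1) ^ D := by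
      rcases Nat.eq_zero_or_pos D with h0 | h0
      · rw [hF0 h0, h0]; simp
      · obtain ⟨E, rfl⟩ : ∃ E, D = E + 1 := ⟨D - 1, by omega⟩
        have : (2 * r + 1) ^ E ≤ (2 * r + 1) ^ (E + 1) := Nat.pow_le_pow_right (by omega) (by omega)
        simp only [Nat.add_sub_cancel]
        nlinarith
    obtain ⟨Z', hZ', hne, hrel', hor⟩ := Rel.kill F (fun z => (2 : ℤ) • z)
      (fun z => p * (z ⬝ᵥ z)) hZ
      (k := 2 * (Fintype.card ι * (p - 1)) + (D - 1) * (2 * r + 1) ^ (D - 1))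
      (hrel.mono (by omega))
    rcases hor with hor | ⟨z, hz, hor⟩
    · have h1 := (hrel'.mono (Nat.le_add_right _ _)).two_mul_card_le hp subset_rfl (by
        intro x hx y hy hxy
        by_contra hcon
        push Not at hcon
        obtain ⟨z, hz0, hz1, hz2, hz3⟩ :=
          exists_mate (hS x (hZ' hx)) (hS y (hZ' hy)) hxy.symm hp.pos hcon hr
        have hzF : z ∈ F := by
          refine mem_filter.2 ⟨mem_box_of_dot hz2, hz0, ?_⟩
          have h2 := hdiff x (hZ' hx) y (hZ' hy)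
          have h3 : cst z = ((p : ℚ)⁻¹) • cst (x - y) := by
            rw [hz1]
            funext i
            have : (p : ℚ) ≠ 0 := by exact_mod_cast hp.ne_zero
            simp only [cst, Pi.smul_apply, smul_eq_mul]
            push_cast
            field_simp
          rw [h3]
          exact W.smul_mem _ h2
        apply hor x hx z hzF
        rw [smul_dotProduct, dotProduct_comm, smul_eq_mul, hz3])
      have := hne.card_pos
      omega
    · obtain ⟨-, hz0, hzW⟩ := mem_filter.1 hz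
      have hlt := finrank_inf_ker_lt W (dotL z) hzW (by
        rw [dotL_cst]
        exact_mod_cast (dot_self_pos hz0).ne')
      refine ih (D - 1) (by omega) (W ⊓ LinearMap.ker (dotL z)) (by omega) Z' hne
        (fun x hx => hS x (hZ' hx)) ?_ hrel'
      intro x hx y hy
      refine ⟨hdiff x (hZ' hx) y (hZ' hy), ?_⟩
      have h1 := hor x hx
      have h2 := hor y hy
      simp only [smul_dotProduct, smul_eq_mul] at h1 h2
      have h3 : z ⬝ᵥ (x - y) = 0 := by
        rw [dotProduct_sub]; omega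
      simp only [SetLike.mem_coe, LinearMap.mem_ker]
      rw [dotL_cst, h3]
      simp

end Pool.Agent.P.MP_d565f2_an
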