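import Pool.Agent.P.MP_d565f2_an.Orth

/-! Algebraic lemmas for the determinant method on the two-dimensional sphere. -/

set_option autoImplicit false

open Finset

namespace Pool.Agent.P.MP_d565f2_an.D3

variable {ι : Type*}

/-- A set interpolated in degree `D` makes up at most half of `Z`. -/
theorem two_mul_card_le [DecidableEq (ι → ℤ)] {Z A : Finset (ι → ℤ)} {D : ℕ} (h : Rel Z (2 * D))
    (hA : A ⊆ Z) (Q : A → MvPolynomial ι ℤ) (hQ : ∀ a, (Q a).totalDegree ≤ D)
    (hN : (Matrix.of fun a b : A => MvPolynomial.eval b.1 (Q a)).det ≠ 0) :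
    2 * A.card ≤ Z.card := by
  obtain ⟨c, hc, hf⟩ := h
  let M : Matrix A Z ℂ := Matrix.of fun a y => ((MvPolynomial.eval y.1 (Q a) : ℤ) : ℂ)
  let D' : Matrix Z Z ℂ := Matrix.diagonal fun y => c y.1
  have hD : D'.det ≠ 0 := by
    rw [Matrix.det_diagonal]
    exact Finset.prod_ne_zero_iff.2 fun y _ => hc y.1 y.2
  have hmul : M * (D' * M.transpose) = 0 := by
    ext a b
    have h1 := hf (Q a * Q b) ((MvPolynomial.totalDegree_mul _ _).trans (by
      have := hQ a
      have := hQ b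
      omega))
    rw [← Finset.sum_coe_sort Z] at h1
    rw [Matrix.mul_apply, Matrix.zero_apply, ← h1]
    refine Finset.sum_congr rfl fun y _ => ?_
    simp only [D', Matrix.diagonal_mul, Matrix.transpose_apply, M, map_mul, Matrix.of_apply]
    push_cast
    ring
  have hrank := Matrix.rank_add_rank_le_card_of_mul_eq_zero hmul
  rw [Matrix.rank_mul_eq_right_of_det_ne_zero _ _ hD, Matrix.rank_transpose] at hrank
  have hM : A.card ≤ M.rank := by
    let e : A → Z := fun a => ⟨a.1, hA a.2⟩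
    have h3 : M.submatrix id e = (Int.castRingHom ℂ).mapMatrix
        (Matrix.of fun a b : A => MvPolynomial.eval b.1 (Q a)) := by
      ext a b
      simp [M, e]
    have h4 : (M.submatrix id e).det ≠ 0 := by
      rw [h3, ← RingHom.map_det]
      simpa using hN
    have h5 := Matrix.rank_of_det_ne_zero h4
    have h6 := Matrix.rank_submatrix_le M id e
    rw [h5] at h6
    simpa using h6
  have : Fintype.card Z = Z.card := by simp
  omega

theorem det_ne_zero_of_val {α : Type*} [Fintype α] [DecidableEq α] {p : ℕ} (hp : p.Prime)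
    (N : Matrix α α ℤ) (v : α → ℕ)
    (h1 : ∀ a, ∃ u, N a a = (p : ℤ) ^ v a * u ∧ ¬ (p : ℤ) ∣ u)
    (h2 : ∀ a b, a ≠ b → (p : ℤ) ^ (v a + 1) ∣ N a b) : N.det ≠ 0 := by
  have := Fact.mk hp
  have h3 : ∀ a b, ∃ u, N a b = (p : ℤ) ^ v a * u ∧ ((p : ℤ) ∣ u ↔ a ≠ b) := by
    intro a b
    by_cases hab : a = b
    · subst hab
      obtain ⟨u, hu, hu'⟩ := h1 a
      exact ⟨u, hu, by simp [hu']⟩
    · obtain ⟨u, hu⟩ := h2 a b hab
      exact ⟨p * u, by rw [hu]; ring, by simp [hab]⟩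
  choose N' hN hN' using h3
  have h4 : N = Matrix.of fun a b => (p : ℤ) ^ v a * (Matrix.of N') a b := by
    ext a b
    exact hN a b
  rw [h4, Matrix.det_mul_column]
  refine mul_ne_zero (prod_ne_zero_iff.2 fun a _ => pow_ne_zero _ (by exact_mod_cast hp.ne_zero)) ?_
  intro h0
  have h5 : (Int.castRingHom (ZMod p)).mapMatrix (Matrix.of N') =
      Matrix.diagonal fun a => ((N' a a : ℤ) : ZMod p) := by
    ext a b
    by_cases hab : a = b
    · subst hab
      simp
    · rw [Matrix.diagonal_apply_ne _ hab]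
      simpa using (ZMod.intCast_zmod_eq_zero_iff_dvd _ _).2 ((hN' a b).2 hab)
  have h6 := RingHom.map_det (Int.castRingHom (ZMod p)) (Matrix.of N')
  rw [h5, h0, map_zero, Matrix.det_diagonal] at h6
  obtain ⟨a, -, ha⟩ := prod_eq_zero_iff.1 h6.symm
  exact (hN' a a).1 ((ZMod.intCast_zmod_eq_zero_iff_dvd _ _).1 ha) rfl

/-- A set whose classes modulo `p` have at most `T` points makes up at most half of `Z`. -/
theorem two_mul_card_le_of_class [Fintype ι] {Z A : Finset (ι → ℤ)} {p T : ℕ} (hp : p.Prime)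
    (h : Rel Z (2 * ((Fintype.card ι * (p - 1) + 1) * T))) (hA : A ⊆ Z)
    (hs : ∀ a ∈ A, ∀ b ∈ A, ∀ i, |a i - b i| < (p : ℤ) ^ 2)
    (hT : ∀ a ∈ A, (A.filter fun b => ∀ i, (p : ℤ) ∣ a i - b i).card ≤ T) :
    2 * A.card ≤ Z.card := by
  classical
  have hex : ∀ a b : ι → ℤ, a ≠ b → ∃ i, a i ≠ b i := fun a b h => Function.ne_iff.1 h
  let cl : (ι → ℤ) → Finset (ι → ℤ) := fun a => (A.filter fun b => ∀ i, (p : ℤ) ∣ a i - b i).erase a
  have hcl : ∀ a ∈ A, (cl a).card + 1 ≤ T := by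
    intro a ha
    have h1 := hT a ha
    have h2 := Finset.card_erase_add_one
      (show a ∈ A.filter fun b => ∀ i, (p : ℤ) ∣ a i - b i from mem_filter.2 ⟨ha, by simp⟩)
    simp only [cl]
    omega
  have hg : ∀ a b : ι → ℤ, ∃ g : MvPolynomial ι ℤ, g.totalDegree ≤ 1 ∧ MvPolynomial.eval b g = 0 ∧
      (b ≠ a → ∃ i, a i ≠ b i ∧ MvPolynomial.eval a g = a i - b i) := by
    intro a b
    by_cases hab : b = a
    · exact ⟨0, by simp, by simp, fun h => absurd hab h⟩
    · obtain ⟨i, hi⟩ := hex a b (Ne.symm hab)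
      refine ⟨MvPolynomial.X i - MvPolynomial.C (b i), ?_, by simp, fun _ => ⟨i, hi, by simp⟩⟩
      refine (MvPolynomial.totalDegree_sub _ _).trans
        (max_le ?_ (by rw [MvPolynomial.totalDegree_C]; omega))
      rw [MvPolynomial.totalDegree_X]
  choose g hg1 hg2 hg3 using hg
  refine two_mul_card_le h hA (fun a => ind p a.1 ^ T * ∏ b ∈ cl a.1, g a.1 b) (fun a => ?_)
    (det_ne_zero_of_val hp _ (fun a => (cl a.1).card) (fun a => ?_) fun a b hab => ?_)
  · refine (MvPolynomial.totalDegree_mul _ _).trans ?_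
    have h1 := (MvPolynomial.totalDegree_pow (ind p a.1) T).trans
      (Nat.mul_le_mul_left T (totalDegree_ind p a.1))
    have h2 : (∏ b ∈ cl a.1, g a.1 b).totalDegree ≤ (cl a.1).card := by
      refine (MvPolynomial.totalDegree_finsetProd _ _).trans ?_
      rw [Finset.card_eq_sum_ones]
      exact Finset.sum_le_sum fun b _ => hg1 _ _
    have h3 := hcl a.1 a.2
    rw [add_mul, mul_comm _ T]
    omega
  · have h1 : ∀ b, ∃ u, b ∈ cl a.1 → MvPolynomial.eval a.1 (g a.1 b) = p * u ∧ ¬ (p : ℤ) ∣ u := by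
      intro b
      by_cases hb : b ∈ cl a.1
      · obtain ⟨hb1, hb2⟩ := mem_erase.1 hb
        obtain ⟨hb2, hb3⟩ := mem_filter.1 hb2
        obtain ⟨i, hi, hi'⟩ := hg3 a.1 b hb1
        obtain ⟨u, hu⟩ := hb3 i
        refine ⟨u, fun _ => ⟨hi'.trans hu, fun ⟨w, hw⟩ => hi (sub_eq_zero.1 ?_)⟩⟩
        exact Int.eq_zero_of_abs_lt_dvd ⟨w, by rw [hu, hw]; ring⟩ (hs _ a.2 _ hb2 i)
      · exact ⟨0, fun h => absurd h hb⟩
    choose u hu using h1
    refine ⟨∏ b ∈ cl a.1, u b, ?_, ?_⟩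
    · simp only [Matrix.of_apply, map_mul, map_pow, eval_ind_self hp, one_pow, one_mul, map_prod]
      rw [Finset.prod_congr rfl fun b hb => (hu b hb).1, Finset.prod_mul_distrib,
        Finset.prod_const]
    · exact (Nat.prime_iff_prime_int.1 hp).not_dvd_finsetProd fun b hb => (hu b hb).2
  · simp only [Matrix.of_apply, map_mul, map_pow, map_prod]
    by_cases hb : ∀ i, (p : ℤ) ∣ a.1 i - b.1 i
    · have h1 : b.1 ∈ cl a.1 :=
        mem_erase.2 ⟨fun h => hab (Subtype.ext h.symm), mem_filter.2 ⟨b.2, hb⟩⟩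
      rw [Finset.prod_eq_zero h1 (hg2 _ _), mul_zero]
      exact dvd_zero _
    · push Not at hb
      have h1 := (ZMod.intCast_zmod_eq_zero_iff_dvd _ _).1 (eval_ind_ne hp hb)
      exact ((pow_dvd_pow _ (hcl a.1 a.2)).trans (pow_dvd_pow_of_dvd h1 T)).mul_right _

/-- Hensel's lemma inside a subring that contains a power of `p`. -/
theorem hensel {A : Type*} [CommRing A] (R : Subring A) (p : A) (m : ℕ) (hm : ∀ a, p ^ m * a ∈ R)
    (P : Polynomial A) (hP : ∀ u ∈ R, P.eval u ∈ R) {h c e : A} (h0 : P.eval h = 0) (hc : c ∈ R)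
    (he : e ∈ R) (hhc : p ∣ c - h) (hd : p ∣ 1 - e * P.derivative.eval h) : h ∈ R := by
  have key : ∀ j : ℕ, ∃ u ∈ R, p ^ (j + 1) ∣ u - h := by
    intro j
    induction j with
    | zero => exact ⟨c, hc, by simpa using hhc⟩
    | succ j ih =>
      obtain ⟨u, hu, hj⟩ := ih
      obtain ⟨k, hk⟩ := P.binomExpansion h (u - h)
      rw [add_sub_cancel, h0] at hk
      refine ⟨u - e * P.eval u, sub_mem hu (mul_mem he (hP u hu)), ?_⟩
      have h1 : u - e * P.eval u - h =
          (u - h) * ((1 - e * P.derivative.eval h) - e * k * (u - h)) := by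
        rw [hk]
        ring
      rw [h1, pow_succ]
      exact mul_dvd_mul hj (dvd_sub hd (((dvd_pow_self p (by omega)).trans hj).mul_left _))
  obtain ⟨u, hu, a, ha⟩ := key m
  have h1 : h = u - p ^ m * (p * a) := by
    rw [← mul_assoc, ← pow_succ, ← ha]
    ring
  rw [h1]
  exact sub_mem hu (hm _)

/-- Functions that are polynomials in `τ` modulo `q`. -/
def RR {S : Type*} (τ : S → ℤ) (q : ℤ) : Subring (S → ℤ) where
  carrier := {h | ∃ Φ : Polynomial ℤ, ∀ s, q ∣ h s - Φ.eval (τ s)}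
  mul_mem' := by
    rintro h h' ⟨Φ, h1⟩ ⟨Φ', h2⟩
    refine ⟨Φ * Φ', fun s => ?_⟩
    have : (h * h') s - (Φ * Φ').eval (τ s) =
        h s * (h' s - Φ'.eval (τ s)) + Φ'.eval (τ s) * (h s - Φ.eval (τ s)) := by
      simp only [Pi.mul_apply, Polynomial.eval_mul]
      ring
    rw [this]
    exact dvd_add ((h2 s).mul_left _) ((h1 s).mul_left _)
  one_mem' := ⟨1, by simp⟩
  add_mem' := by
    rintro h h' ⟨Φ, h1⟩ ⟨Φ', h2⟩
    refine ⟨Φ + Φ', fun s => ?_⟩
    rw [Pi.add_apply, Polynomial.eval_add, add_sub_add_comm]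
    exact dvd_add (h1 s) (h2 s)
  zero_mem' := ⟨0, by simp⟩
  neg_mem' := by
    rintro h ⟨Φ, h1⟩
    refine ⟨-Φ, fun s => ?_⟩
    rw [Pi.neg_apply, Polynomial.eval_neg, ← neg_sub', dvd_neg]
    exact h1 s

theorem vander_dvd {ρ : ℕ} (τ : Fin ρ → ℤ) (Φ : Fin ρ → Polynomial ℤ) :
    (Matrix.vandermonde τ).det ∣ (Matrix.of fun i j => (Φ i).eval (τ j)).det := by
  let G : Polynomial ℤ := ∏ j, (Polynomial.X - Polynomial.C (τ j))
  have hG : G.Monic := Polynomial.monic_prod_of_monic _ _ fun j _ => Polynomial.monic_X_sub_C _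
  have hd : G.degree = ρ := by
    simp only [G, Polynomial.degree_prod, Polynomial.degree_X_sub_C]
    simp
  have h1 : (Matrix.of fun i j => (Φ i).eval (τ j)) =
      (Matrix.of fun i (l : Fin ρ) => (Φ i %ₘ G).coeff l) * (Matrix.vandermonde τ).transpose := by
    ext i j
    have h2 : G.eval (τ j) = 0 := by
      simp only [G, Polynomial.eval_prod]
      exact Finset.prod_eq_zero (mem_univ j) (by simp)
    have h3 := congrArg (Polynomial.eval (τ j)) (Polynomial.modByMonic_add_div (Φ i) G)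
    rw [Polynomial.eval_add, Polynomial.eval_mul, h2, zero_mul, add_zero] at h3
    have h4 := Polynomial.degree_modByMonic_lt (Φ i) hG
    rw [hd] at h4
    simp only [Matrix.of_apply, Matrix.mul_apply, Matrix.transpose_apply, Matrix.vandermonde_apply]
    rw [← h3]
    exact Polynomial.eval_eq_sum_degreeLTEquiv (Polynomial.mem_degreeLT.2 h4) _
  rw [h1, Matrix.det_mul, Matrix.det_transpose]
  exact dvd_mul_left _ _

theorem dvd_det {ρ m : ℕ} {p : ℤ} (τ : Fin ρ → ℤ) (hτ : ∀ i j, p ∣ τ i - τ j)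
    (hm : 2 * m ≤ ρ * (ρ - 1)) (M : Matrix (Fin ρ) (Fin ρ) ℤ) (hM : ∀ i, M i ∈ RR τ (p ^ m)) :
    p ^ m ∣ M.det := by
  choose Φ hΦ using hM
  have h1 : p ^ m ∣ (Matrix.vandermonde τ).det := by
    rw [Matrix.det_vandermonde]
    have h2 : ∏ i : Fin ρ, p ^ (ρ - 1 - i) ∣ ∏ i : Fin ρ, ∏ j ∈ Ioi i, (τ j - τ i) := by
      refine Finset.prod_dvd_prod_of_dvd _ _ fun i _ => ?_
      rw [← Fin.card_Ioi, ← Finset.prod_const]
      exact Finset.prod_dvd_prod_of_dvd _ _ fun j _ => hτ j i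
    rw [Finset.prod_pow_eq_pow_sum] at h2
    refine (pow_dvd_pow p ?_).trans h2
    rw [Fin.sum_univ_eq_sum_range (fun i => ρ - 1 - i), Finset.sum_range_reflect (fun i => i)]
    have := Finset.sum_range_id_mul_two ρ
    omega
  have h2 := h1.trans (vander_dvd τ Φ)
  let κ := Ideal.Quotient.mk (Ideal.span {p ^ m})
  have h3 : κ.mapMatrix M = κ.mapMatrix (Matrix.of fun i j => (Φ i).eval (τ j)) := by
    ext i j
    exact Ideal.Quotient.eq.2 (Ideal.mem_span_singleton.2 (hΦ i j))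
  rw [← Ideal.mem_span_singleton, ← Ideal.Quotient.eq_zero_iff_mem] at h2 ⊢
  rw [RingHom.map_det, h3, ← RingHom.map_det, h2]

end Pool.Agent.P.MP_d565f2_an.D3
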