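import Pool.Agent.P.MP_d565f2_an.D3A

/-! The determinant method: points of a sphere on one `p`-adic strand. -/

set_option autoImplicit false

open Finset

namespace Pool.Agent.P.MP_d565f2_an.D3

variable {ι : Type*} [Fintype ι]

theorem plane {a b c : ι → ℤ} (hb : b ⬝ᵥ b = a ⬝ᵥ a) (hc : c ⬝ᵥ c = a ⬝ᵥ a) (hca : c ≠ a)
    (hcb : c ≠ b) : ∃ u : ι → ℤ, u ⬝ᵥ b = u ⬝ᵥ a ∧ u ⬝ᵥ c ≠ u ⬝ᵥ a := by
  obtain ⟨v, rfl⟩ : ∃ v, b = a + v := ⟨b - a, by abel⟩
  obtain ⟨w, rfl⟩ : ∃ w, c = a + w := ⟨c - a, by abel⟩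
  have hw : w ⬝ᵥ w ≠ 0 := fun h => hca (by rw [dotProduct_self_eq_zero.1 h, add_zero])
  by_cases hv : v = 0
  · exact ⟨w, by rw [hv, add_zero], by rw [dotProduct_add]; simpa using hw⟩
  have hv' : v ⬝ᵥ v ≠ 0 := fun h => hv (dotProduct_self_eq_zero.1 h)
  simp only [add_dotProduct, dotProduct_add, dotProduct_comm v a, dotProduct_comm w a] at hb hc
  refine ⟨(v ⬝ᵥ v) • w - (v ⬝ᵥ w) • v, ?_, fun h => hcb ?_⟩
  · simp only [dotProduct_add, sub_dotProduct, smul_dotProduct, smul_eq_mul, dotProduct_comm w v]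
    ring
  · have h1 : v ⬝ᵥ v * w ⬝ᵥ w = v ⬝ᵥ w * v ⬝ᵥ w := by
      simp only [dotProduct_add, sub_dotProduct, smul_dotProduct, smul_eq_mul] at h
      linear_combination h
    have h2 : (v ⬝ᵥ v) • w - (v ⬝ᵥ w) • v = 0 := by
      rw [← dotProduct_self_eq_zero]
      simp only [sub_dotProduct, dotProduct_sub, smul_dotProduct, dotProduct_smul, smul_eq_mul,
        dotProduct_comm w v]
      linear_combination (v ⬝ᵥ v) * h1
    have h3 := congrArg (fun z => a ⬝ᵥ z) h2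
    simp only [dotProduct_sub, dotProduct_smul, smul_eq_mul, dotProduct_zero] at h3
    have h4 : v ⬝ᵥ w = w ⬝ᵥ w := mul_left_cancel₀ hv' (by
      linear_combination 2 * h3 - (v ⬝ᵥ v) * hc + (v ⬝ᵥ w) * hb)
    have h5 : v ⬝ᵥ v = w ⬝ᵥ w := mul_right_cancel₀ hw (by rw [h1, h4])
    have h6 : w - v = 0 := by
      rw [← dotProduct_self_eq_zero]
      simp only [sub_dotProduct, dotProduct_sub, dotProduct_comm w v]
      linear_combination h5 - 2 * h4
    rw [sub_eq_zero.1 h6]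

theorem vanish {n : ℤ} {c : ι → ℤ} (hc : c ⬝ᵥ c = n) : ∀ (k : ℕ) (U : Finset (ι → ℤ)),
    U.card ≤ 2 * k → (∀ y ∈ U, y ⬝ᵥ y = n) → c ∉ U → ∃ φ : MvPolynomial ι ℤ, φ.totalDegree ≤ k ∧
      (∀ y ∈ U, MvPolynomial.eval y φ = 0) ∧ MvPolynomial.eval c φ ≠ 0 := by
  classical
  intro k
  induction k with
  | zero =>
    intro U hU _ _
    rw [Nat.mul_zero, Nat.le_zero, card_eq_zero] at hU
    exact ⟨1, by simp, by simp [hU], by simp⟩
  | succ k ih =>
    intro U hU hn hcU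
    rcases U.eq_empty_or_nonempty with rfl | ⟨a, ha⟩
    · exact ⟨1, by simp, by simp, by simp⟩
    obtain ⟨b, hb, hcard⟩ : ∃ b ∈ U, ((U.erase a).erase b).card ≤ 2 * k := by
      rcases (U.erase a).eq_empty_or_nonempty with h | ⟨b, hb⟩
      · exact ⟨a, ha, by simp [h]⟩
      · refine ⟨b, mem_of_mem_erase hb, ?_⟩
        rw [card_erase_of_mem hb, card_erase_of_mem ha]
        omega
    obtain ⟨φ, h1, h2, h3⟩ := ih _ hcard
      (fun y hy => hn y (mem_of_mem_erase (mem_of_mem_erase hy)))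
      fun h => hcU (mem_of_mem_erase (mem_of_mem_erase h))
    obtain ⟨u, h4, h5⟩ := plane ((hn b hb).trans (hn a ha).symm) (hc.trans (hn a ha).symm)
      (fun h => hcU (h ▸ ha)) fun h => hcU (h ▸ hb)
    refine ⟨φ * aff u (u ⬝ᵥ a), (MvPolynomial.totalDegree_mul _ _).trans
      (Nat.add_le_add h1 (totalDegree_aff _ _)), fun y hy => ?_, ?_⟩
    · rw [map_mul, eval_aff]
      by_cases hya : y = a
      · simp [hya]
      by_cases hyb : y = b
      · simp [hyb, h4]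
      rw [h2 y (mem_erase.2 ⟨hyb, mem_erase.2 ⟨hya, hy⟩⟩), zero_mul]
    · rw [map_mul, eval_aff]
      exact mul_ne_zero h3 (sub_ne_zero.2 h5)

/-- Monomials of small degree with a nonzero determinant. -/
theorem monos {n : ℤ} {ρ : ℕ} (y : Fin ρ → ι → ℤ) (hy : Function.Injective y)
    (hn : ∀ s, y s ⬝ᵥ y s = n) : ∃ r : Fin ρ → ι →₀ ℕ, (∀ l, ∑ i, r l i ≤ (l + 1) / 2) ∧
      (Matrix.of fun l s => ∏ i, y s i ^ r l i).det ≠ 0 := by
  classical
  have h1 : ∀ l : Fin ρ, ∃ φ : MvPolynomial ι ℤ, φ.totalDegree ≤ (l + 1) / 2 ∧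
      (∀ s < l, MvPolynomial.eval (y s) φ = 0) ∧ MvPolynomial.eval (y l) φ ≠ 0 := by
    intro l
    obtain ⟨φ, h1, h2, h3⟩ := vanish (hn l) ((l + 1) / 2) ((Iio l).image y)
      (card_image_le.trans (by rw [Fin.card_Iio]; omega))
      (fun z hz => by obtain ⟨s, -, rfl⟩ := mem_image.1 hz; exact hn s) fun h => by
        obtain ⟨s, hs, h⟩ := mem_image.1 h
        exact (mem_Iio.1 hs).ne (hy h)
    exact ⟨φ, h1, fun s hs => h2 _ (mem_image_of_mem _ (mem_Iio.2 hs)), h3⟩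
  choose φ h1 h2 h3 using h1
  have h4 : (Matrix.of fun l s => MvPolynomial.eval (y s) (φ l)).det ≠ 0 := by
    rw [Matrix.det_of_isUpperTriangular
      (M := Matrix.of fun l s => MvPolynomial.eval (y s) (φ l)) fun l s h => h2 l s h]
    exact prod_ne_zero_iff.2 fun l _ => h3 l
  have h5 : (Matrix.of fun l s => MvPolynomial.eval (y s) (φ l)) = fun l =>
      ∑ β ∈ (φ l).support, fun s => MvPolynomial.coeff β (φ l) * ∏ i, y s i ^ β i := by
    ext l s
    simp [MvPolynomial.eval_eq']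
  rw [h5] at h4
  have h6 := (Matrix.detRowAlternating (R := ℤ) (n := Fin ρ)).toMultilinearMap.map_sum_finset
    (fun l β s => MvPolynomial.coeff β (φ l) * ∏ i, y s i ^ β i) fun l => (φ l).support
  obtain ⟨r, hr, h7⟩ := exists_ne_zero_of_sum_ne_zero fun h => h4 (h6.trans h)
  refine ⟨r, fun l => ?_, fun h => h7 ?_⟩
  · refine le_trans ?_ (h1 l)
    have := MvPolynomial.le_totalDegree (Fintype.mem_piFinset.1 hr l)
    rwa [Finsupp.sum_fintype _ _ fun _ => rfl] at this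
  · have h8 := Matrix.det_mul_column (fun l => MvPolynomial.coeff (r l) (φ l))
      (Matrix.of fun l s => ∏ i, y s i ^ r l i)
    rw [h, mul_zero] at h8
    exact h8

theorem abs_det_le {ρ : ℕ} (M : Matrix (Fin ρ) (Fin ρ) ℤ) (b : Fin ρ → ℤ)
    (h : ∀ l s, |M l s| ≤ b l) : |M.det| ≤ ρ.factorial * ∏ l, b l := by
  rw [Matrix.det_apply']
  refine (abs_sum_le_sum_abs _ _).trans ((sum_le_card_nsmul _ _ (∏ l, b l) fun σ _ => ?_).trans ?_)
  · have h1 : |((Equiv.Perm.sign σ : ℤˣ) : ℤ)| = 1 := by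
      rcases Int.units_eq_one_or (Equiv.Perm.sign σ) with h | h <;> simp [h]
    rw [abs_mul, Int.cast_id, h1, one_mul, abs_prod, ← Equiv.prod_comp σ b]
    exact prod_le_prod (fun _ _ => abs_nonneg _) fun l _ => h _ _
  · simp [Fintype.card_perm]

theorem sum_half (j : ℕ) : ∑ l ∈ range (2 * j + 1), (l + 1) / 2 = j * (j + 1) := by
  induction j with
  | zero => simp
  | succ j ih =>
    rw [show 2 * (j + 1) + 1 = 2 * j + 1 + 1 + 1 by ring, sum_range_succ, sum_range_succ, ih,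
      show (2 * j + 1 + 1) / 2 = j + 1 by omega, show (2 * j + 1 + 1 + 1) / 2 = j + 1 by omega]
    ring

theorem factorial_sq_le (ρ : ℕ) : (ρ + 1).factorial ^ 2 ≤ 2 ^ ((ρ + 1) * ρ) := by
  induction ρ with
  | zero => simp
  | succ ρ ih =>
    have h1 : ρ + 1 + 1 ≤ 2 ^ (ρ + 1) := Nat.lt_two_pow_self
    rw [Nat.factorial_succ, mul_pow,
      show (ρ + 1 + 1) * (ρ + 1) = (ρ + 1) * 2 + (ρ + 1) * ρ by ring, pow_add, pow_mul]
    exact Nat.mul_le_mul (Nat.pow_le_pow_left h1 2) ih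

/-- A strand carries at most `2 j` points. -/
theorem strand {n : ℤ} {p B j : ℕ} (hB1 : 1 ≤ B) (hp : 16 * B ≤ p ^ 2) (hj : B ≤ 4 ^ j) (hj1 : 1 ≤ j)
    (y : Fin (2 * j + 1) → ι → ℤ) (hy : Function.Injective y) (hn : ∀ s, y s ⬝ᵥ y s = n)
    (hB : ∀ s i, |y s i| ≤ B) (τ : Fin (2 * j + 1) → ℤ) (hτ : ∀ s t, (p : ℤ) ∣ τ s - τ t)
    (hR : ∀ i, (fun s => y s i) ∈ RR τ ((p : ℤ) ^ ((2 * j + 1) * j))) : False := by
  obtain ⟨r, h1, h2⟩ := monos y hy hn
  have h3 := dvd_det τ hτ (m := (2 * j + 1) * j) (by rw [Nat.add_sub_cancel]; linarith)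
    (Matrix.of fun l s => ∏ i, y s i ^ r l i) fun l => by
      have h4 := prod_mem (t := univ) fun i _ => pow_mem (hR i) (r l i)
      have h5 : (∏ i, (fun s => y s i) ^ r l i) = Matrix.of (fun l s => ∏ i, y s i ^ r l i) l := by
        funext s
        simp
      exact h5 ▸ h4
  have hB' : (1 : ℤ) ≤ B := by exact_mod_cast hB1
  have h4 := abs_det_le (Matrix.of fun l s => ∏ i, y s i ^ r l i)
    (fun l => (B : ℤ) ^ ((l + 1) / 2 : ℕ)) fun l s => by
      rw [Matrix.of_apply, abs_prod]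
      refine le_trans ?_ (pow_le_pow_right₀ hB' (h1 l))
      rw [← prod_pow_eq_pow_sum]
      exact prod_le_prod (fun _ _ => abs_nonneg _) fun i _ => by
        rw [abs_pow]
        exact pow_le_pow_left₀ (abs_nonneg _) (hB s i) _
  rw [prod_pow_eq_pow_sum, Fin.sum_univ_eq_sum_range (fun l => (l + 1) / 2), sum_half] at h4
  have h5 := (Int.le_of_dvd (abs_pos.2 h2) ((dvd_abs _ _).2 h3)).trans h4
  have h6 : p ^ ((2 * j + 1) * j) ≤ (2 * j + 1).factorial * B ^ (j * (j + 1)) := by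
    exact_mod_cast h5
  have h7 : (16 * B) ^ ((2 * j + 1) * j) ≤ 2 ^ ((2 * j + 1) * (2 * j)) * B ^ (j * (j + 1) * 2) :=
    calc (16 * B) ^ ((2 * j + 1) * j) ≤ (p ^ 2) ^ ((2 * j + 1) * j) := Nat.pow_le_pow_left hp _
      _ = (p ^ ((2 * j + 1) * j)) ^ 2 := by rw [← pow_mul, ← pow_mul, mul_comm]
      _ ≤ ((2 * j + 1).factorial * B ^ (j * (j + 1))) ^ 2 := Nat.pow_le_pow_left h6 _
      _ ≤ _ := by
        rw [mul_pow, ← pow_mul]
        exact Nat.mul_le_mul_right _ (factorial_sq_le _)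
  have h8 : (16 * B) ^ ((2 * j + 1) * j) =
      2 ^ ((2 * j + 1) * (2 * j)) * B ^ ((2 * j + 1) * j) * 4 ^ ((2 * j + 1) * j) := by
    rw [show (2 * j + 1) * (2 * j) = 2 * ((2 * j + 1) * j) by ring, pow_mul 2 2, ← mul_pow, ← mul_pow]
    congr 1
    ring
  rw [h8, show j * (j + 1) * 2 = (2 * j + 1) * j + j by ring, pow_add, ← mul_assoc _ _ (B ^ j)] at h7
  have h9 := (Nat.le_of_mul_le_mul_left h7 (by positivity)).trans (Nat.pow_le_pow_left hj j)
  rw [← pow_mul, Nat.pow_le_pow_iff_right (by norm_num)] at h9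
  nlinarith

end Pool.Agent.P.MP_d565f2_an.D3
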