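import Pool.Agent.P.MP_d565f2_an.Box

set_option autoImplicit false

open Finset

namespace Pool.Agent.P.MP_d565f2_an

theorem card_eq_sum_fibers {α β γ : Type*} [DecidableEq γ] (A : Finset α) (B : Finset β)
    (f : α → γ) (g : β → γ) (V : Finset γ) (hV : ∀ a ∈ A, f a ∈ V) :
    ((A ×ˢ B).filter fun p => f p.1 = g p.2).card =
      ∑ v ∈ V, (A.filter fun a => f a = v).card * (B.filter fun b => g b = v).card := by
  rw [Finset.card_eq_sum_card_fiberwise (f := fun p : α × β => f p.1) (t := V)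
    (fun p hp => hV p.1 (mem_product.1 (mem_filter.1 (mem_coe.1 hp)).1).1)]
  refine Finset.sum_congr rfl fun v _ => ?_
  rw [← Finset.card_product]
  congr 1
  ext ⟨a, b⟩
  simp only [mem_filter, mem_product]
  constructor
  · rintro ⟨⟨⟨h1, h2⟩, h3⟩, h4⟩
    exact ⟨⟨h1, h4⟩, h2, h3 ▸ h4⟩
  · rintro ⟨⟨h1, h2⟩, h3, h4⟩
    exact ⟨⟨⟨h1, h3⟩, h2.trans h4.symm⟩, h2⟩

theorem energy_ineq {α β γ : Type*} [DecidableEq γ] (A : Finset α) (B : Finset β)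
    (f : α → γ) (g : β → γ) (s : ℕ) :
    2 * s * ((A ×ˢ B).filter fun p => f p.1 = g p.2).card ≤
      ((A ×ˢ A).filter fun p => f p.1 = f p.2).card +
        s ^ 2 * ((B ×ˢ B).filter fun p => g p.1 = g p.2).card := by
  have h1 : ∀ a ∈ A, f a ∈ A.image f ∪ B.image g := fun a ha =>
    mem_union_left _ (mem_image_of_mem _ ha)
  have h2 : ∀ b ∈ B, g b ∈ A.image f ∪ B.image g := fun b hb =>
    mem_union_right _ (mem_image_of_mem _ hb)
  rw [card_eq_sum_fibers A B f g _ h1, card_eq_sum_fibers A A f f _ h1,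
    card_eq_sum_fibers B B g g _ h2, Finset.mul_sum, Finset.mul_sum, ← Finset.sum_add_distrib]
  refine Finset.sum_le_sum fun v _ => ?_
  generalize (A.filter fun a => f a = v).card = a
  generalize (B.filter fun b => g b = v).card = b
  zify
  nlinarith [sq_nonneg ((a : ℤ) - s * b)]

theorem card_pair_le (I : Finset ℤ) {α : ℤ} (hα : α ≠ 0) (β T : ℤ) :
    ((I ×ˢ I).filter fun p => p.1 * (α * p.2 + β) = T).card ≤ 2 * I.card := by
  rw [← Finset.card_filter_add_card_filter_not (p := fun p : ℤ × ℤ => p.1 = 0), two_mul]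
  refine add_le_add ?_ ?_
  · refine Finset.card_le_card_of_injOn (fun p => p.2) ?_ ?_
    · intro p hp
      exact (mem_product.1 (mem_filter.1 (mem_filter.1 (mem_coe.1 hp)).1).1).2
    · intro p hp p' hp' h
      exact Prod.ext ((mem_filter.1 (mem_coe.1 hp)).2.trans (mem_filter.1 (mem_coe.1 hp')).2.symm) h
  · refine Finset.card_le_card_of_injOn (fun p => p.1) ?_ ?_
    · intro p hp
      exact (mem_product.1 (mem_filter.1 (mem_filter.1 (mem_coe.1 hp)).1).1).1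
    · intro p hp p' hp' h
      obtain ⟨h1, h2⟩ := mem_filter.1 (mem_coe.1 hp)
      have h3 := (mem_filter.1 h1).2
      have h4 := (mem_filter.1 (mem_filter.1 (mem_coe.1 hp')).1).2
      simp only at h
      rw [← h, ← h3] at h4
      have h5 := mul_left_cancel₀ h2 h4
      exact Prod.ext h (mul_left_cancel₀ hα (by linarith))

theorem card_pair_le' (I : Finset ℤ) {α : ℤ} (hα : α ≠ 0) (β : ℤ) {T : ℤ} (hT : T ≠ 0) :
    ((I ×ˢ I).filter fun p => p.1 * (α * p.2 + β) = T).card ≤ 2 * T.natAbs.divisors.card := by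
  calc _ ≤ (({1, -1} : Finset ℤ) ×ˢ T.natAbs.divisors).card := by
        refine Finset.card_le_card_of_injOn (fun p => (p.1.sign, p.1.natAbs)) ?_ ?_
        · intro p hp
          have h1 := (mem_filter.1 (mem_coe.1 hp)).2
          have h2 : p.1 ≠ 0 := by rintro h; rw [h, zero_mul] at h1; exact hT h1.symm
          simp only [coe_product, coe_insert, coe_singleton, Set.mem_prod, Set.mem_insert_iff,
            Set.mem_singleton_iff, mem_coe, Nat.mem_divisors]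
          refine ⟨?_, Int.natAbs_dvd_natAbs.2 ⟨_, h1.symm⟩, Int.natAbs_ne_zero.2 hT⟩
          rcases lt_or_gt_of_ne h2 with h | h
          · exact Or.inr (Int.sign_eq_neg_one_of_neg h)
          · exact Or.inl (Int.sign_eq_one_of_pos h)
        · intro p hp p' hp' h
          have h1 := (mem_filter.1 (mem_coe.1 hp)).2
          have h3 := (mem_filter.1 (mem_coe.1 hp')).2
          have h2 : p.1 ≠ 0 := by rintro h; rw [h, zero_mul] at h1; exact hT h1.symm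
          simp only [Prod.mk.injEq] at h
          have h4 : p.1 = p'.1 := by
            rw [← Int.sign_mul_natAbs p.1, ← Int.sign_mul_natAbs p'.1, h.1, h.2]
          rw [← h4, ← h1] at h3
          have h5 := mul_left_cancel₀ h2 h3
          exact Prod.ext h4 (mul_left_cancel₀ hα (by linarith))
    _ ≤ _ := by
        rw [Finset.card_product]
        exact Nat.mul_le_mul_right _ Finset.card_le_two

theorem card_filter_product {α β : Type*} (A : Finset α) (B : Finset β) (P : α × β → Prop)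
    [DecidablePred P] :
    ((A ×ˢ B).filter P).card = ∑ a ∈ A, (B.filter fun b => P (a, b)).card := by
  simp only [Finset.card_filter]
  rw [Finset.sum_product]

theorem card_quad_le (L U w : ℕ) {α : ℤ} (hα : α ≠ 0) (hαU : |α| ≤ U) (β : Fin 4 → ℤ)
    (hβ : ∀ i, |β i| ≤ U * L) (hτ : ∀ t : ℕ, t ≤ 6 * U * L ^ 2 → t.divisors.card ≤ w) :
    ((((Icc (-(L : ℤ)) L ×ˢ Icc (-(L : ℤ)) L) ×ˢ (Icc (-(L : ℤ)) L ×ˢ Icc (-(L : ℤ)) L)) ×ˢ
      (Icc (-(L : ℤ)) L ×ˢ Icc (-(L : ℤ)) L) ×ˢ (Icc (-(L : ℤ)) L ×ˢ Icc (-(L : ℤ)) L)).filter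
      fun p => p.2.2.1 * (α * p.2.2.2 + β 0) + p.2.1.1 * (α * p.2.1.2 + β 1) +
        p.1.1.1 * (α * p.1.1.2 + β 2) + p.1.2.1 * (α * p.1.2.2 + β 3) = 0).card ≤
      (2 * w + 4) * (2 * L + 1) ^ 6 := by
  set I := Icc (-(L : ℤ)) L with hI
  have hIc : I.card = 2 * L + 1 := by rw [hI, Int.card_Icc]; omega
  have hφ : ∀ p ∈ I ×ˢ I, ∀ i, |p.1 * (α * p.2 + β i)| ≤ 2 * U * L ^ 2 := by
    intro p hp i
    obtain ⟨h1, h2⟩ := mem_product.1 hp
    have h3 : |p.1| ≤ L := abs_le.2 (mem_Icc.1 h1)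
    have h4 : |p.2| ≤ L := abs_le.2 (mem_Icc.1 h2)
    have h5 : |α * p.2| ≤ U * L := by rw [abs_mul]; gcongr
    have h6 := (abs_add_le _ _).trans (add_le_add h5 (hβ i))
    rw [abs_mul]
    calc |p.1| * |α * p.2 + β i| ≤ L * (U * L + U * L) := by gcongr
      _ = _ := by ring
  rw [card_filter_product]
  refine (Finset.sum_le_card_nsmul _ _ ((2 * w + 4) * (2 * L + 1) ^ 2) fun q hq => ?_).trans ?_
  · obtain ⟨hq1, hq2⟩ := mem_product.1 hq
    rw [card_filter_product]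
    set T₀ := q.1.1 * (α * q.1.2 + β 2) + q.2.1 * (α * q.2.2 + β 3) with hT₀
    have h1 : ∀ r ∈ I ×ˢ I, ((I ×ˢ I).filter fun p : ℤ × ℤ =>
        p.1 * (α * p.2 + β 0) + r.1 * (α * r.2 + β 1) +
        q.1.1 * (α * q.1.2 + β 2) + q.2.1 * (α * q.2.2 + β 3) = 0).card ≤
        2 * w + if r.1 * (α * r.2 + β 1) = -T₀ then 2 * (2 * L + 1) else 0 := by
      intro r hr
      have h2 : ((I ×ˢ I).filter fun p : ℤ × ℤ =>
          p.1 * (α * p.2 + β 0) + r.1 * (α * r.2 + β 1) +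
          q.1.1 * (α * q.1.2 + β 2) + q.2.1 * (α * q.2.2 + β 3) = 0) =
          (I ×ˢ I).filter fun p : ℤ × ℤ =>
            p.1 * (α * p.2 + β 0) = -(r.1 * (α * r.2 + β 1) + T₀) := by
        refine Finset.filter_congr fun p _ => ?_
        constructor <;> intro h <;> linarith
      rw [h2]
      split_ifs with h
      · exact (hIc ▸ card_pair_le I hα _ _).trans (Nat.le_add_left _ _)
      · refine (card_pair_le' I hα _ (by intro h3; apply h; linarith)).trans ?_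
        refine Nat.mul_le_mul_left _ (hτ _ ?_)
        have h3 := hφ r hr 1
        have h4 := hφ q.1 hq1 2
        have h5 := hφ q.2 hq2 3
        have h6 : |-(r.1 * (α * r.2 + β 1) + T₀)| ≤ 6 * U * L ^ 2 := by
          rw [abs_neg]
          have h7 := (abs_add_le _ _).trans (add_le_add h3 ((abs_add_le _ _).trans
            (add_le_add h4 h5)))
          linarith
        rw [← Int.natCast_natAbs] at h6
        exact_mod_cast h6
    refine (Finset.sum_le_sum h1).trans ?_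
    rw [Finset.sum_add_distrib, ← Finset.sum_filter, Finset.sum_const, Finset.sum_const,
      smul_eq_mul, smul_eq_mul, Finset.card_product, hIc]
    have h3 := card_pair_le I hα (β 1) (-T₀)
    rw [hIc] at h3
    nlinarith
  · simp only [Finset.card_product, hIc, smul_eq_mul]
    apply le_of_eq
    ring

theorem mem_Icc_of_box {κ : Type*} [Fintype κ] [DecidableEq κ] {r : ℕ} {a b : κ → ℤ}
    (ha : a ∈ box κ r) (hb : b ∈ box κ r) (i : κ) :
    a i - b i ∈ Icc (-((2 * r : ℕ) : ℤ)) (2 * r : ℕ) ∧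
      a i + b i ∈ Icc (-((2 * r : ℕ) : ℤ)) (2 * r : ℕ) := by
  have h1 := abs_le.1 (mem_box.1 ha i)
  have h2 := abs_le.1 (mem_box.1 hb i)
  simp only [mem_Icc]
  push_cast
  omega

theorem Q4_le (r w : ℕ) (hτ : ∀ t : ℕ, t ≤ 6 * 1 * (2 * r) ^ 2 → t.divisors.card ≤ w) :
    ((box (Fin 4) r ×ˢ box (Fin 4) r).filter fun p => p.1 ⬝ᵥ p.1 = p.2 ⬝ᵥ p.2).card ≤
      (2 * w + 4) * (4 * r + 1) ^ 6 := by
  have h := card_quad_le (2 * r) 1 w one_ne_zero (by simp) 0 (by simp) hτ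
  rw [show 2 * (2 * r) + 1 = 4 * r + 1 by ring] at h
  refine le_trans (Finset.card_le_card_of_injOn (fun p =>
    (((p.1 2 - p.2 2, p.1 2 + p.2 2), (p.1 3 - p.2 3, p.1 3 + p.2 3)),
      ((p.1 1 - p.2 1, p.1 1 + p.2 1), (p.1 0 - p.2 0, p.1 0 + p.2 0)))) ?_ ?_) h
  · intro p hp
    obtain ⟨h1, h2⟩ := mem_filter.1 (mem_coe.1 hp)
    obtain ⟨ha, hb⟩ := mem_product.1 h1
    have h3 := mem_Icc_of_box ha hb
    refine mem_coe.2 (mem_filter.2 ⟨?_, ?_⟩)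
    · simp only [mem_product]
      exact ⟨⟨h3 2, h3 3⟩, h3 1, h3 0⟩
    · simp only [dotProduct, Fin.sum_univ_four] at h2
      simp only [Pi.zero_apply]
      linear_combination h2
  · intro p _ p' _ h
    simp only [Prod.mk.injEq] at h
    refine Prod.ext (funext fun i => ?_) (funext fun i => ?_) <;> fin_cases i <;>
      simp only [Fin.zero_eta, Fin.mk_one, Fin.reduceFinMk] <;> omega

theorem Q5_le (r U w : ℕ) (u : Fin 5 → ℤ) (hu : u 0 ≠ 0) (hU : ∀ i, |u i| ≤ U)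
    (hτ : ∀ t : ℕ, t ≤ 6 * U * (2 * r) ^ 2 → t.divisors.card ≤ w) :
    ((box (Fin 5) r ×ˢ box (Fin 5) r).filter
      fun p => p.1 ⬝ᵥ p.1 = p.2 ⬝ᵥ p.2 ∧ u ⬝ᵥ p.1 = u ⬝ᵥ p.2).card ≤
      (2 * w + 4) * (4 * r + 1) ^ 7 := by
  have h1 : ((box (Fin 5) r ×ˢ box (Fin 5) r).filter
      fun p => p.1 ⬝ᵥ p.1 = p.2 ⬝ᵥ p.2 ∧ u ⬝ᵥ p.1 = u ⬝ᵥ p.2).card ≤
      ((2 * w + 4) * (4 * r + 1) ^ 6) * (Icc (-((2 * r : ℕ) : ℤ)) (2 * r : ℕ)).card := by
    refine Finset.card_le_mul_card_image_of_maps_to (f := fun p => p.1 0 + p.2 0) ?_ _ ?_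
    · intro p hp
      obtain ⟨ha, hb⟩ := mem_product.1 (mem_filter.1 hp).1
      exact (mem_Icc_of_box ha hb 0).2
    · intro c hc
      have hc' : |c| ≤ (2 * r : ℕ) := abs_le.2 (mem_Icc.1 hc)
      have h := card_quad_le (2 * r) U w hu (hU 0) (fun i => -(u i.succ * c)) (fun i => by
        rw [abs_neg, abs_mul]
        exact mul_le_mul (hU _) hc' (abs_nonneg _) (by positivity)) hτ
      rw [show 2 * (2 * r) + 1 = 4 * r + 1 by ring] at h
      refine le_trans (Finset.card_le_card_of_injOn (fun p =>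
        (((p.1 3 - p.2 3, p.1 3 + p.2 3), (p.1 4 - p.2 4, p.1 4 + p.2 4)),
          ((p.1 2 - p.2 2, p.1 2 + p.2 2), (p.1 1 - p.2 1, p.1 1 + p.2 1)))) ?_ ?_) h
      · intro p hp
        obtain ⟨h0, hc0⟩ := mem_filter.1 (mem_coe.1 hp)
        obtain ⟨h1, h2, h4⟩ := mem_filter.1 h0
        obtain ⟨ha, hb⟩ := mem_product.1 h1
        have h3 := mem_Icc_of_box ha hb
        refine mem_coe.2 (mem_filter.2 ⟨?_, ?_⟩)
        · simp only [mem_product]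
          exact ⟨⟨h3 3, h3 4⟩, h3 2, h3 1⟩
        · simp only [dotProduct, Fin.sum_univ_five] at h2 h4
          have e0 : (Fin.succ 0 : Fin 5) = 1 := rfl
          have e1 : (Fin.succ 1 : Fin 5) = 2 := rfl
          have e2 : (Fin.succ 2 : Fin 5) = 3 := rfl
          have e3 : (Fin.succ 3 : Fin 5) = 4 := rfl
          simp only [e0, e1, e2, e3, ← hc0]
          linear_combination u 0 * h2 - (p.1 0 + p.2 0) * h4
      · intro p hp p' hp' h
        obtain ⟨h0, hc0⟩ := mem_filter.1 (mem_coe.1 hp)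
        obtain ⟨-, -, h4⟩ := mem_filter.1 h0
        obtain ⟨h0', hc0'⟩ := mem_filter.1 (mem_coe.1 hp')
        obtain ⟨-, -, h4'⟩ := mem_filter.1 h0'
        simp only [Prod.mk.injEq] at h
        simp only [dotProduct, Fin.sum_univ_five] at h4 h4'
        obtain ⟨⟨⟨a3, b3⟩, a4, b4⟩, ⟨a2, b2⟩, a1, b1⟩ := h
        have h5 : p.1 0 - p.2 0 = p'.1 0 - p'.2 0 := by
          apply mul_left_cancel₀ hu
          linear_combination h4 - h4' - u 1 * a1 - u 2 * a2 - u 3 * a3 - u 4 * a4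
        refine Prod.ext (funext fun i => ?_) (funext fun i => ?_) <;> fin_cases i <;>
          simp only [Fin.zero_eta, Fin.mk_one, Fin.reduceFinMk] <;> omega
  refine h1.trans (le_of_eq ?_)
  have : (Icc (-((2 * r : ℕ) : ℤ)) (2 * r : ℕ)).card = 4 * r + 1 := by rw [Int.card_Icc]; omega
  rw [this]
  ring

theorem sum_energy_le {κ : Type*} [Fintype κ] [DecidableEq κ] (r w Y : ℕ) (x : κ → ℤ)
    (P : (κ → ℤ) × (κ → ℤ) → Prop) [DecidablePred P]
    (hP : ∀ p ∈ box κ r ×ˢ box κ r, P p → p.1 ≠ p.2 → x ⬝ᵥ (p.1 - p.2) ≠ 0 ∧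
      (2 * (x ⬝ᵥ (p.1 - p.2))).natAbs.divisors.card ≤ w) :
    ∑ m ∈ Icc 1 Y, ((box κ r ×ˢ box κ r).filter
      fun p => P p ∧ ((m : ℕ) : ℤ) ∣ 2 * (x ⬝ᵥ (p.1 - p.2))).card ≤
      Y * (2 * r + 1) ^ Fintype.card κ + w * ((box κ r ×ˢ box κ r).filter P).card := by
  simp only [Finset.card_filter]
  rw [Finset.sum_comm, Finset.mul_sum]
  have h1 : Y * (2 * r + 1) ^ Fintype.card κ =
      ∑ p ∈ box κ r ×ˢ box κ r, if p.1 = p.2 then Y else 0 := by
    rw [Finset.sum_product, ← card_box, mul_comm, ← smul_eq_mul, ← Finset.sum_const]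
    refine Finset.sum_congr rfl fun a ha => ?_
    simp [ha]
  rw [h1, ← Finset.sum_add_distrib]
  refine Finset.sum_le_sum fun p hp => ?_
  rw [← Finset.card_filter]
  by_cases h2 : p.1 = p.2
  · rw [if_pos h2]
    exact ((Finset.card_filter_le _ _).trans (by simp)).trans (Nat.le_add_right _ _)
  · by_cases h3 : P p
    · obtain ⟨h4, h5⟩ := hP p hp h3 h2
      rw [if_neg h2, if_pos h3, mul_one, zero_add]
      refine le_trans (Finset.card_le_card fun m hm => ?_) h5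
      rw [Nat.mem_divisors, Int.natAbs_ne_zero, ← Int.natCast_dvd]
      exact ⟨(mem_filter.1 hm).2.2, mul_ne_zero two_ne_zero h4⟩
    · simp [h3]

/-- The count inside a hyperplane. -/
theorem level1_count {κ : Type*} [Fintype κ] [DecidableEq κ] (r U w s : ℕ)
    (x₁ u₁ : Fin 5 → ℤ) (x₂ u₂ : Fin 4 → ℤ) (x₃ u₃ : κ → ℤ) (hu : u₁ 0 ≠ 0) (hU : ∀ i, |u₁ i| ≤ U)
    (hτ : ∀ t : ℕ, t ≤ 6 * U * (2 * r) ^ 2 → t.divisors.card ≤ w)
    (h₁ : ∀ v ∈ box (Fin 5) (2 * r), v ≠ 0 → u₁ ⬝ᵥ v = 0 → x₁ ⬝ᵥ v ≠ 0)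
    (h₂ : ∀ v ∈ box (Fin 4) (2 * r), v ≠ 0 → x₂ ⬝ᵥ v ≠ 0)
    (hτ₁ : ∀ v ∈ box (Fin 5) (2 * r), (2 * (x₁ ⬝ᵥ v)).natAbs.divisors.card ≤ w)
    (hτ₂ : ∀ v ∈ box (Fin 4) (2 * r), (2 * (x₂ ⬝ᵥ v)).natAbs.divisors.card ≤ w) :
    2 * s * ((box κ r ×ˢ box (Fin 5) r ×ˢ box (Fin 4) r).filter fun z =>
      0 < z.2.1 ⬝ᵥ z.2.1 + z.2.2 ⬝ᵥ z.2.2 + z.1 ⬝ᵥ z.1 ∧
      z.2.1 ⬝ᵥ z.2.1 + z.2.2 ⬝ᵥ z.2.2 + z.1 ⬝ᵥ z.1 ≤ (r : ℤ) ^ 2 ∧
      u₁ ⬝ᵥ z.2.1 + u₂ ⬝ᵥ z.2.2 + u₃ ⬝ᵥ z.1 = 0 ∧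
      z.2.1 ⬝ᵥ z.2.1 + z.2.2 ⬝ᵥ z.2.2 + z.1 ⬝ᵥ z.1 ∣
        2 * (x₁ ⬝ᵥ z.2.1 + x₂ ⬝ᵥ z.2.2 + x₃ ⬝ᵥ z.1)).card ≤
      (2 * r + 1) ^ Fintype.card κ *
        ((r ^ 2 * (2 * r + 1) ^ 5 + w * ((2 * w + 4) * (4 * r + 1) ^ 7)) +
          s ^ 2 * (r ^ 2 * (2 * r + 1) ^ 4 + w * ((2 * w + 4) * (4 * r + 1) ^ 6))) := by
  classical
  have hU1 : 1 ≤ U := by
    have := (Int.one_le_abs hu).trans (hU 0)
    exact_mod_cast this
  have hsub : ∀ {μ : Type} [Fintype μ] [DecidableEq μ] {a b : μ → ℤ}, a ∈ box μ r → b ∈ box μ r →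
      a - b ∈ box μ (2 * r) := by
    intro μ _ _ a b ha hb
    exact mem_box.2 fun i => abs_le.2 (mem_Icc.1 (mem_Icc_of_box ha hb i).1)
  have e1 := sum_energy_le r w (r ^ 2) x₁
    (fun p => p.1 ⬝ᵥ p.1 = p.2 ⬝ᵥ p.2 ∧ u₁ ⬝ᵥ p.1 = u₁ ⬝ᵥ p.2) (by
      intro p hp hP hne
      obtain ⟨ha, hb⟩ := mem_product.1 hp
      exact ⟨h₁ _ (hsub ha hb) (sub_ne_zero.2 hne) (by rw [dotProduct_sub, hP.2, sub_self]),
        hτ₁ _ (hsub ha hb)⟩)
  have e2 := sum_energy_le r w (r ^ 2) x₂ (fun p => p.1 ⬝ᵥ p.1 = p.2 ⬝ᵥ p.2) (by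
      intro p hp _ hne
      obtain ⟨ha, hb⟩ := mem_product.1 hp
      exact ⟨h₂ _ (hsub ha hb) (sub_ne_zero.2 hne), hτ₂ _ (hsub ha hb)⟩)
  have e3 := Q5_le r U w u₁ hu hU hτ
  have e4 := Q4_le r w fun t ht => hτ t (ht.trans (by gcongr))
  rw [Fintype.card_fin] at e1 e2
  rw [card_filter_product, Finset.mul_sum, ← card_box, ← smul_eq_mul]
  refine Finset.sum_le_card_nsmul _ _ _ fun c _ => ?_
  refine le_trans ?_ (add_le_add (e1.trans (Nat.add_le_add_left (Nat.mul_le_mul_left _ e3) _))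
    (Nat.mul_le_mul_left _ (e2.trans (Nat.add_le_add_left (Nat.mul_le_mul_left _ e4) _))))
  rw [Finset.card_eq_sum_card_fiberwise (t := Icc 1 (r ^ 2))
    (f := fun z : (Fin 5 → ℤ) × (Fin 4 → ℤ) => (z.1 ⬝ᵥ z.1 + z.2 ⬝ᵥ z.2 + c ⬝ᵥ c).toNat) (by
      intro z hz
      obtain ⟨-, h1, h2, -⟩ := mem_filter.1 (mem_coe.1 hz)
      simp only at h1 h2
      have h3 : (r : ℤ) ^ 2 = (r ^ 2 : ℕ) := by push_cast; rfl
      simp only [coe_Icc, Set.mem_Icc]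
      omega),
    Finset.mul_sum, Finset.mul_sum, ← Finset.sum_add_distrib]
  refine Finset.sum_le_sum fun m _ => ?_
  have h1 := energy_ineq (box (Fin 5) r) (box (Fin 4) r)
    (fun a => (a ⬝ᵥ a, u₁ ⬝ᵥ a, ((2 * (x₁ ⬝ᵥ a) : ℤ) : ZMod m)))
    (fun b => ((m : ℤ) - b ⬝ᵥ b - c ⬝ᵥ c, -(u₂ ⬝ᵥ b) - u₃ ⬝ᵥ c,
      ((-(2 * (x₂ ⬝ᵥ b)) - 2 * (x₃ ⬝ᵥ c) : ℤ) : ZMod m))) s
  refine le_trans (Nat.mul_le_mul_left _ (Finset.card_le_card ?_)) (h1.trans (add_le_add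
    (Finset.card_le_card ?_) (Nat.mul_le_mul_left _ (Finset.card_le_card ?_))))
  · intro z hz
    obtain ⟨h2, h3⟩ := mem_filter.1 hz
    obtain ⟨h4, h5, -, h7, h8⟩ := mem_filter.1 h2
    simp only at h3 h5 h7 h8
    have h9 : z.1 ⬝ᵥ z.1 + z.2 ⬝ᵥ z.2 + c ⬝ᵥ c = m := by omega
    refine mem_filter.2 ⟨h4, ?_⟩
    simp only [Prod.mk.injEq]
    refine ⟨by omega, by omega, ?_⟩
    rw [h9] at h8
    rw [eq_comm, ZMod.intCast_eq_intCast_iff_dvd_sub]
    convert h8 using 1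
    ring
  · intro p hp
    obtain ⟨h2, h3⟩ := mem_filter.1 hp
    simp only [Prod.mk.injEq] at h3
    refine mem_filter.2 ⟨h2, ⟨h3.1, h3.2.1⟩, ?_⟩
    have h4 := (ZMod.intCast_eq_intCast_iff_dvd_sub _ _ _).1 h3.2.2.symm
    rw [dotProduct_sub]
    convert h4 using 1
    ring
  · intro p hp
    obtain ⟨h2, h3⟩ := mem_filter.1 hp
    simp only [Prod.mk.injEq] at h3
    refine mem_filter.2 ⟨h2, by omega, ?_⟩
    have h4 := (ZMod.intCast_eq_intCast_iff_dvd_sub _ _ _).1 h3.2.2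
    rw [dotProduct_sub]
    convert h4 using 1
    ring

end Pool.Agent.P.MP_d565f2_an
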