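import Pool.Agent.P.MP_d565f2_an.Sieve2
import Pool.Agent.P.MP_d565f2_an.Energy

set_option autoImplicit false

open Finset Module

namespace Pool.Agent.P.MP_d565f2_an

theorem primes_lower (P : ℕ) (hP : 10 ^ 10 ≤ P) :
    (P : ℝ) ≤ ((Ioc P (4 * P)).filter Nat.Prime).card * Real.log (4 * P) := by
  have hP' : (10 : ℝ) ^ 10 ≤ P := by exact_mod_cast hP
  have h1 := Chebyshev.theta_ge (4 * P)
  have h2 := Chebyshev.theta_le_log4_mul_x (x := P) (by positivity)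
  have h3 : Chebyshev.theta ((4 * P : ℕ) : ℝ) ≤ Chebyshev.theta P +
      ((Ioc P (4 * P)).filter Nat.Prime).card * Real.log (4 * P) := by
    simp only [Chebyshev.theta, Nat.floor_natCast]
    rw [← Finset.Ioc_union_Ioc_eq_Ioc (Nat.zero_le P) (by omega : P ≤ 4 * P), Finset.filter_union,
      Finset.sum_union (Finset.disjoint_filter_filter (Finset.Ioc_disjoint_Ioc_of_le le_rfl))]
    refine add_le_add le_rfl ?_
    rw [← nsmul_eq_mul]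
    refine Finset.sum_le_card_nsmul _ _ _ fun p hp => ?_
    obtain ⟨h4, h5⟩ := mem_filter.1 hp
    refine Real.log_le_log (by exact_mod_cast h5.pos) ?_
    exact_mod_cast (mem_Ioc.1 h4).2
  set y : ℝ := ((4 * P : ℕ) : ℝ) with hy
  have hy4 : y = 4 * P := by rw [hy]; push_cast; rfl
  have hy0 : 0 < y := by rw [hy4]; positivity
  set s : ℝ := √(√y) with hs
  have hs2 : s ^ 2 = √y := Real.sq_sqrt (Real.sqrt_nonneg _)
  have hs4 : s ^ 4 = y := by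
    rw [show (4 : ℕ) = 2 * 2 from rfl, pow_mul, hs2, Real.sq_sqrt hy0.le]
  have hs0 : 0 < s := Real.sqrt_pos.2 (Real.sqrt_pos.2 hy0)
  have hs300 : 300 ≤ s := by
    by_contra h
    have : s ^ 4 < 300 ^ 4 := by gcongr; exact not_le.1 h
    linarith
  have h4 : Real.log y ≤ 4 * s := by
    rw [← hs4, Real.log_pow]
    have := Real.log_le_sub_one_of_pos hs0
    push_cast
    linarith
  have h5 : Real.log (y + 1) ≤ 8 * s := by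
    have h6 : Real.log (y + 1) ≤ Real.log (y ^ 2) := Real.log_le_log (by positivity) (by nlinarith)
    rw [Real.log_pow] at h6
    push_cast at h6
    linarith
  have h6 : 2 * √y * Real.log y ≤ 8 * s ^ 3 := by
    rw [← hs2]
    nlinarith
  have h7 : Real.log 4 = 2 * Real.log 2 := by
    rw [show (4 : ℝ) = 2 ^ 2 by norm_num, Real.log_pow]; norm_num
  have h8 := Real.log_two_gt_d9
  have h9 : 8 * s + 8 * s ^ 3 ≤ 0.3 * P := by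
    have h10 : (P : ℝ) = s ^ 4 / 4 := by rw [hs4, hy4]; ring
    have h11 : s ≤ s ^ 3 := by nlinarith
    have h12 : 300 * s ^ 3 ≤ s ^ 4 := by nlinarith [pow_pos hs0 3]
    rw [h10]
    nlinarith
  rw [h7] at h2
  rw [← hy4]
  rw [← hy4] at h3
  nlinarith

theorem card_primes_dvd_le (P n : ℕ) (hP : 2 ≤ P) (hn0 : n ≠ 0) (hn : n ≤ P ^ 3) :
    (((Ioc P (4 * P)).filter Nat.Prime).filter fun p => p ∣ n).card ≤ 3 := by
  set T := ((Ioc P (4 * P)).filter Nat.Prime).filter fun p => p ∣ n with hT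
  have h1 : ∏ p ∈ T, p ∣ n := by
    refine (Finset.prod_dvd_prod_of_subset T n.primeFactors _ fun p hp => ?_).trans
      (Nat.prod_primeFactors_dvd n)
    obtain ⟨h2, h3⟩ := mem_filter.1 hp
    exact Nat.mem_primeFactors.2 ⟨(mem_filter.1 h2).2, h3, hn0⟩
  have h2 : P ^ T.card ≤ ∏ p ∈ T, p :=
    Finset.pow_card_le_prod _ _ _ fun p hp =>
      (mem_Ioc.1 (mem_filter.1 (mem_filter.1 hp).1).1).1.le
  exact (Nat.pow_le_pow_iff_right (by omega)).1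
    (h2.trans ((Nat.le_of_dvd (Nat.pos_of_ne_zero hn0) h1).trans hn))

variable {ι : Type*} [Fintype ι] [DecidableEq ι]

/-- Codimension two. -/
theorem level2 {n : ℤ} {p r e : ℕ} (he : Fintype.card ι = e + 2) (hp : p.Prime)
    (hr : 4 * n ≤ (p : ℤ) ^ 2 * (r : ℤ) ^ 2) (a b c : ι → ℤ) (ha : a ≠ 0) (hac : a ⬝ᵥ c = 0)
    (hbc : b ⬝ᵥ c ≠ 0) (Z : Finset (ι → ℤ)) (hZ : Z.Nonempty) (hS : ∀ x ∈ Z, x ⬝ᵥ x = n)
    (h1 : ∀ x ∈ Z, a ⬝ᵥ x = 0) (h2 : ∀ x ∈ Z, b ⬝ᵥ x = 0)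
    (hrel : Rel Z (2 * (Fintype.card ι * (p - 1)) + e * (2 * r + 1) ^ e)) : False := by
  have e1 := finrank_inf_ker_lt ⊤ (dotL a) (w := cst a) Submodule.mem_top (by
    rw [dotL_cst]
    exact_mod_cast (dot_self_pos ha).ne')
  have e2 := finrank_inf_ker_lt (⊤ ⊓ LinearMap.ker (dotL a)) (dotL b) (w := cst c)
    ⟨Submodule.mem_top, by
      simp only [SetLike.mem_coe, LinearMap.mem_ker]
      rw [dotL_cst, hac]; simp⟩ (by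
    rw [dotL_cst]
    exact_mod_cast hbc)
  rw [finrank_top, Module.finrank_fintype_fun_eq_card] at e1
  refine rec_single hp hr e ((⊤ ⊓ LinearMap.ker (dotL a)) ⊓ LinearMap.ker (dotL b)) (by omega)
    Z hZ hS (fun x hx y hy => ⟨⟨Submodule.mem_top, ?_⟩, ?_⟩) hrel
  · simp only [SetLike.mem_coe, LinearMap.mem_ker]
    rw [dotL_cst, dotProduct_sub, h1 x hx, h1 y hy]; simp
  · simp only [SetLike.mem_coe, LinearMap.mem_ker]
    rw [dotL_cst, dotProduct_sub, h2 x hx, h2 y hy]; simp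

open Classical in
/-- Primes with a mate inject into short vectors. -/
theorem card_mates_le {n : ℤ} {r : ℕ} (Z : Finset (ι → ℤ)) (hS : ∀ x ∈ Z, x ⬝ᵥ x = n)
    (PP : Finset ℕ) (hPP : ∀ p ∈ PP, 0 < p ∧ 4 * n ≤ (p : ℤ) ^ 2 * (r : ℤ) ^ 2)
    {x : ι → ℤ} (hx : x ∈ Z) (T : Finset (ι → ℤ))
    (hT : ∀ p ∈ PP, ∀ y ∈ Z, ∀ z : ι → ℤ, z ≠ 0 → x - y = (p : ℤ) • z → z ⬝ᵥ z ≤ (r : ℤ) ^ 2 →
      2 * (x ⬝ᵥ z) = p * (z ⬝ᵥ z) → z ∈ T) :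
    (PP.filter fun p : ℕ => ∃ y ∈ Z, y ≠ x ∧ ∀ i, (p : ℤ) ∣ x i - y i).card ≤ T.card := by
  have hex : ∀ p : ℕ, ∃ z : ι → ℤ, p ∈ (PP.filter fun p : ℕ =>
      ∃ y ∈ Z, y ≠ x ∧ ∀ i, (p : ℤ) ∣ x i - y i) →
      z ∈ T ∧ z ≠ 0 ∧ 2 * (x ⬝ᵥ z) = p * (z ⬝ᵥ z) := by
    intro p
    by_cases hp : p ∈ (PP.filter fun p : ℕ => ∃ y ∈ Z, y ≠ x ∧ ∀ i, (p : ℤ) ∣ x i - y i)
    · obtain ⟨hp1, y, hy, hyx, hd⟩ := mem_filter.1 hp
      obtain ⟨z, hz0, hz1, hz2, hz3⟩ :=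
        exists_mate (hS x hx) (hS y hy) hyx (hPP p hp1).1 hd (hPP p hp1).2
      exact ⟨z, fun _ => ⟨hT p hp1 y hy z hz0 hz1 hz2 hz3, hz0, hz3⟩⟩
    · exact ⟨0, fun h => absurd h hp⟩
  choose f hf using hex
  refine Finset.card_le_card_of_injOn f (fun p hp => (hf p hp).1) fun p hp p' hp' h => ?_
  obtain ⟨-, h1, h2⟩ := hf p hp
  obtain ⟨-, -, h3⟩ := hf p' hp'
  rw [← h, h2] at h3
  exact_mod_cast mul_right_cancel₀ (dot_self_pos h1).ne' h3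

section Split

variable {κ : Type*} [Fintype κ] (E : κ ⊕ (Fin 5 ⊕ Fin 4) ≃ ι)

omit [DecidableEq ι] in
theorem dot_split (a b : ι → ℤ) : a ⬝ᵥ b =
    (fun i => a (E (.inr (.inl i)))) ⬝ᵥ (fun i => b (E (.inr (.inl i)))) +
    (fun i => a (E (.inr (.inr i)))) ⬝ᵥ (fun i => b (E (.inr (.inr i)))) +
    (fun i => a (E (.inl i))) ⬝ᵥ (fun i => b (E (.inl i))) := by
  simp only [dotProduct]
  rw [← E.sum_comp, Fintype.sum_sum_type, Fintype.sum_sum_type]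
  ring

/-- Extension by zero. -/
def ext59 (v : (Fin 5 → ℤ) ⊕ (Fin 4 → ℤ)) : ι → ℤ :=
  fun i => Sum.elim 0 (v.elim (fun a => Sum.elim a 0) fun b => Sum.elim 0 b) (E.symm i)

omit [DecidableEq ι] in
theorem dot_ext_inl (a : ι → ℤ) (v : Fin 5 → ℤ) :
    ext59 E (.inl v) ⬝ᵥ a = (fun i => a (E (.inr (.inl i)))) ⬝ᵥ v := by
  rw [dot_split E, dotProduct_comm _ v]
  simp [ext59, dotProduct]

omit [DecidableEq ι] in
theorem dot_ext_inr (a : ι → ℤ) (v : Fin 4 → ℤ) :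
    ext59 E (.inr v) ⬝ᵥ a = (fun i => a (E (.inr (.inr i)))) ⬝ᵥ v := by
  rw [dot_split E, dotProduct_comm _ v]
  simp [ext59, dotProduct]

end Split

omit [DecidableEq ι] in
theorem exists_split {e : ℕ} (he : Fintype.card ι = e + 2) (he7 : 7 ≤ e) (i₀ : ι) :
    ∃ E : Fin (e - 7) ⊕ (Fin 5 ⊕ Fin 4) ≃ ι, E (.inr (.inl 0)) = i₀ := by
  classical
  let E₀ : Fin (e - 7) ⊕ (Fin 5 ⊕ Fin 4) ≃ ι := Fintype.equivOfCardEq (by simp; omega)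
  exact ⟨E₀.trans (Equiv.swap (E₀ (.inr (.inl 0))) i₀), by simp⟩

theorem abs_dot_le {μ : Type*} [Fintype μ] [DecidableEq μ] {x v : μ → ℤ} {A : ℤ} {r : ℕ}
    (hx : ∀ i, |x i| ≤ A) (hv : v ∈ box μ r) : |x ⬝ᵥ v| ≤ Fintype.card μ * (A * r) := by
  refine (Finset.abs_sum_le_sum_abs _ _).trans ?_
  refine (Finset.sum_le_card_nsmul _ _ (A * r) fun i _ => ?_).trans ?_
  · rw [abs_mul]
    exact mul_le_mul (hx i) (mem_box.1 hv i) (abs_nonneg _) ((abs_nonneg _).trans (hx i))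
  · rw [Finset.card_univ, nsmul_eq_mul]

open Classical in
/-- The number of mates at level one. -/
theorem level1 {e : ℕ} (he7 : 7 ≤ e) (E : Fin (e - 7) ⊕ (Fin 5 ⊕ Fin 4) ≃ ι) (w : ℕ)
    (hw : 3 ≤ w) (x u : ι → ℤ) (hu : u (E (.inr (.inl 0))) ≠ 0)
    (hU : ∀ i, |u i| ≤ (w ^ 2 * (w ^ (26 * (e + 2))) ^ 2 : ℕ))
    (hx : ∀ i, |x i| ≤ w * (w ^ (26 * (e + 2))) ^ (e + 1))
    (hτ : ∀ t : ℕ, t ≤ w ^ 5 * (w ^ (26 * (e + 2))) ^ (e + 4) → t.divisors.card ≤ w)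
    (h₁ : ∀ v ∈ box (Fin 5) (2 * w ^ (26 * (e + 2))), v ≠ 0 →
      (fun i => u (E (.inr (.inl i)))) ⬝ᵥ v = 0 → ext59 E (.inl v) ⬝ᵥ x ≠ 0)
    (h₂ : ∀ v ∈ box (Fin 4) (2 * w ^ (26 * (e + 2))), v ≠ 0 → ext59 E (.inr v) ⬝ᵥ x ≠ 0) :
    (((box ι (w ^ (26 * (e + 2)))).filter fun z => z ≠ 0 ∧
      z ⬝ᵥ z ≤ ((w ^ (26 * (e + 2)) : ℕ) : ℤ) ^ 2 ∧ u ⬝ᵥ z = 0 ∧
        z ⬝ᵥ z ∣ 2 * (x ⬝ᵥ z)).card : ℝ) * Real.log w ≤
      (3 ^ e * 5 ^ 8) * ((w ^ (26 * (e + 2)) : ℕ) : ℝ) ^ e := by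
  set ρ := w ^ (26 * (e + 2)) with hρ
  have hρ0 : 0 < ρ := pow_pos (by omega) _
  have hw3 : 27 ≤ w ^ 3 := by
    calc 27 = 3 ^ 3 := by norm_num
      _ ≤ w ^ 3 := by gcongr
  have hx' : ∀ i, |x i| ≤ w * (ρ : ℤ) ^ (e + 1) := fun i => by
    have := hx i; rw [hρ]; push_cast; exact this
  have hτ' : ∀ (k : ℕ) (y v : Fin k → ℤ), k ≤ 5 → (∀ i, |y i| ≤ w * (ρ : ℤ) ^ (e + 1)) →
      v ∈ box (Fin k) (2 * ρ) → (2 * (y ⬝ᵥ v)).natAbs.divisors.card ≤ w := by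
    intro k y v hk hy hv
    refine hτ _ ?_
    have h1 := abs_dot_le hy hv
    rw [Fintype.card_fin] at h1
    have h2 : |2 * (y ⬝ᵥ v)| ≤ (w : ℤ) ^ 5 * ρ ^ (e + 4) := by
      rw [abs_mul, abs_two]
      have hk' : (k : ℤ) ≤ 5 := by exact_mod_cast hk
      have h3 : (20 : ℤ) ≤ w ^ 3 := by exact_mod_cast (by omega : 20 ≤ w ^ 3)
      have h4 : (1 : ℤ) ≤ w := by exact_mod_cast (by omega : 1 ≤ w)
      have h5 : (1 : ℤ) ≤ ρ := by exact_mod_cast hρ0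
      push_cast at h1
      calc 2 * |y ⬝ᵥ v| ≤ 2 * (5 * (w * (ρ : ℤ) ^ (e + 1) * (2 * ρ))) := by
            gcongr
            exact h1.trans (by gcongr)
        _ = 20 * (w * 1) * ((ρ : ℤ) ^ (e + 2) * 1) := by ring
        _ ≤ w ^ 3 * (w * w) * ((ρ : ℤ) ^ (e + 2) * ρ ^ 2) := by
            gcongr
            exact one_le_pow₀ h5
        _ = _ := by ring
    rw [← Int.natCast_natAbs] at h2
    exact_mod_cast h2
  have h := level1_count (κ := Fin (e - 7)) ρ (w ^ 2 * ρ ^ 2) w (w ^ (13 * (e + 2)))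
    (fun i => x (E (.inr (.inl i)))) (fun i => u (E (.inr (.inl i))))
    (fun i => x (E (.inr (.inr i)))) (fun i => u (E (.inr (.inr i))))
    (fun i => x (E (.inl i))) (fun i => u (E (.inl i))) hu (fun i => hU _)
    (fun t ht => hτ t (ht.trans (by
      calc 6 * (w ^ 2 * ρ ^ 2) * (2 * ρ) ^ 2 = 24 * w ^ 2 * ρ ^ 4 := by ring
        _ ≤ w ^ 3 * w ^ 2 * ρ ^ (e + 4) := by
          gcongr
          · omega
          · omega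
        _ = _ := by ring)))
    (fun v hv hv0 hv1 => by rw [← dot_ext_inl]; exact h₁ v hv hv0 hv1)
    (fun v hv hv0 => by rw [← dot_ext_inr]; exact h₂ v hv hv0)
    (fun v hv => hτ' 5 _ v le_rfl (fun i => hx' _) hv)
    (fun v hv => hτ' 4 _ v (by omega) (fun i => hx' _) hv)
  have hinj : ((box ι ρ).filter fun z => z ≠ 0 ∧ z ⬝ᵥ z ≤ ((ρ : ℕ) : ℤ) ^ 2 ∧ u ⬝ᵥ z = 0 ∧
      z ⬝ᵥ z ∣ 2 * (x ⬝ᵥ z)).card ≤ _ :=
    Finset.card_le_card_of_injOn (t := (box (Fin (e - 7)) ρ ×ˢ box (Fin 5) ρ ×ˢ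
      box (Fin 4) ρ).filter fun z =>
      0 < z.2.1 ⬝ᵥ z.2.1 + z.2.2 ⬝ᵥ z.2.2 + z.1 ⬝ᵥ z.1 ∧
      z.2.1 ⬝ᵥ z.2.1 + z.2.2 ⬝ᵥ z.2.2 + z.1 ⬝ᵥ z.1 ≤ (ρ : ℤ) ^ 2 ∧
      (fun i => u (E (.inr (.inl i)))) ⬝ᵥ z.2.1 + (fun i => u (E (.inr (.inr i)))) ⬝ᵥ z.2.2 +
        (fun i => u (E (.inl i))) ⬝ᵥ z.1 = 0 ∧
      z.2.1 ⬝ᵥ z.2.1 + z.2.2 ⬝ᵥ z.2.2 + z.1 ⬝ᵥ z.1 ∣
        2 * ((fun i => x (E (.inr (.inl i)))) ⬝ᵥ z.2.1 +
          (fun i => x (E (.inr (.inr i)))) ⬝ᵥ z.2.2 + (fun i => x (E (.inl i))) ⬝ᵥ z.1))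
      (fun z => (fun i => z (E (.inl i)), fun i => z (E (.inr (.inl i))),
        fun i => z (E (.inr (.inr i))))) (by
      intro z hz
      obtain ⟨h1, h2, h3, h4, h5⟩ := mem_filter.1 (mem_coe.1 hz)
      refine mem_coe.2 (mem_filter.2 ⟨?_, ?_⟩)
      · simp only [mem_product, mem_box]
        exact ⟨fun i => mem_box.1 h1 _, fun i => mem_box.1 h1 _, fun i => mem_box.1 h1 _⟩
      · simp only [← dot_split E]
        exact ⟨dot_self_pos h2, h3, h4, h5⟩) (by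
      intro z _ z' _ h
      simp only [Prod.mk.injEq] at h
      funext i
      obtain ⟨j, rfl⟩ := E.surjective i
      rcases j with j | j | j
      · exact congrFun h.1 j
      · exact congrFun h.2.1 j
      · exact congrFun h.2.2 j)
  have h3 := (Nat.mul_le_mul_left (2 * w ^ (13 * (e + 2))) hinj).trans h
  set T := ((box ι ρ).filter fun z => z ≠ 0 ∧ z ⬝ᵥ z ≤ ((ρ : ℕ) : ℤ) ^ 2 ∧ u ⬝ᵥ z = 0 ∧
      z ⬝ᵥ z ∣ 2 * (x ⬝ᵥ z)).card with hT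
  have hs : (w ^ (13 * (e + 2))) ^ 2 = ρ := by rw [hρ, ← pow_mul]; congr 1; ring
  rw [hs, Fintype.card_fin] at h3
  have h4 : T * w ≤ 3 ^ e * 5 ^ 8 * ρ ^ e := by
    obtain ⟨e', rfl⟩ : ∃ e', e = e' + 7 := ⟨e - 7, by omega⟩
    rw [Nat.add_sub_cancel] at h3
    have a1 : 2 * ρ + 1 ≤ 3 * ρ := by omega
    have a2 : 2 * ρ + 1 ≤ 5 * ρ := by omega
    have a3 : 4 * ρ + 1 ≤ 5 * ρ := by omega
    have a4 : 2 * w + 4 ≤ 4 * w := by omega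
    have a5 : 1 ≤ w ^ 2 := Nat.one_le_pow _ _ (by omega)
    have a6 : w ^ 3 ≤ w ^ (13 * (e' + 7 + 2)) := Nat.pow_le_pow_right (by omega) (by omega)
    have a7 : 2 * w ^ 3 * T ≤ (3 * ρ) ^ e' *
        ((ρ ^ 2 * (5 * ρ) ^ 5 + w * (4 * w * (5 * ρ) ^ 7)) +
          ρ * (ρ ^ 2 * (5 * ρ) ^ 4 + w * (4 * w * (5 * ρ) ^ 6))) := by
      refine le_trans (by gcongr) (h3.trans ?_)
      gcongr
    have a8 : ((ρ ^ 2 * (5 * ρ) ^ 5 + w * (4 * w * (5 * ρ) ^ 7)) +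
          ρ * (ρ ^ 2 * (5 * ρ) ^ 4 + w * (4 * w * (5 * ρ) ^ 6))) ≤ 2 * w ^ 2 * 5 ^ 8 * ρ ^ 7 := by
      have : ((ρ ^ 2 * (5 * ρ) ^ 5 + w * (4 * w * (5 * ρ) ^ 7)) +
          ρ * (ρ ^ 2 * (5 * ρ) ^ 4 + w * (4 * w * (5 * ρ) ^ 6))) =
          (3750 * 1 + 375000 * w ^ 2) * ρ ^ 7 := by ring
      rw [this]
      gcongr
      omega
    have a9 : 2 * w ^ 2 * (T * w) ≤ 2 * w ^ 2 * (3 ^ (e' + 7) * 5 ^ 8 * ρ ^ (e' + 7)) := by
      calc 2 * w ^ 2 * (T * w) = 2 * w ^ 3 * T := by ring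
        _ ≤ (3 * ρ) ^ e' * (2 * w ^ 2 * 5 ^ 8 * ρ ^ 7) := a7.trans (by gcongr)
        _ = 2 * w ^ 2 * (3 ^ e' * 5 ^ 8 * ρ ^ (e' + 7)) := by ring
        _ ≤ _ := by gcongr <;> omega
    exact Nat.le_of_mul_le_mul_left a9 (by omega)
  have h5 : Real.log w ≤ w := by
    have := Real.log_le_sub_one_of_pos (x := w) (by exact_mod_cast (by omega : 0 < w))
    linarith
  calc (T : ℝ) * Real.log w ≤ T * w := by gcongr
    _ ≤ _ := by exact_mod_cast h4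

end Pool.Agent.P.MP_d565f2_an
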