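import Pool.Agent.P.MP_d565f2_an.D3B
import Pool.Agent.P.MP_d565f2_an.Levels

/-! Small classes modulo a well chosen prime. -/

set_option autoImplicit false

open Finset Polynomial

namespace Pool.Agent.P.MP_d565f2_an.D3

theorem ev_modEq (F : ℤ[X][X]) {p s s' t t' : ℤ} (hs : p ∣ s - s') (ht : p ∣ t - t') :
    p ∣ F.evalEval s t - F.evalEval s' t' := by
  induction F using Polynomial.induction_on' with
  | add F G hF hG =>
    rw [evalEval_add, evalEval_add, add_sub_add_comm]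
    exact dvd_add hF hG
  | monomial n q =>
    have h1 := hs.trans (sub_dvd_eval_sub s s' q)
    have h2 := ht.trans (sub_dvd_pow_sub_pow t t' n)
    have h3 : (monomial n q).evalEval s t - (monomial n q).evalEval s' t' =
        q.eval s * (t ^ n - t' ^ n) + t' ^ n * (q.eval s - q.eval s') := by
      simp only [evalEval, eval_monomial, eval_mul, eval_pow, eval_C]
      ring
    rw [h3]
    exact dvd_add (h2.mul_left _) (h1.mul_left _)

theorem ev_map {S : Type*} (F : ℤ[X][X]) (τ u : S → ℤ) (s : S) :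
    (F.map (aeval τ).toRingHom).eval u s = F.evalEval (τ s) (u s) := by
  induction F using Polynomial.induction_on' with
  | add F G hF hG => rw [Polynomial.map_add, eval_add, Pi.add_apply, hF, hG, evalEval_add]
  | monomial n q => simp [evalEval, aeval_fn_apply]

theorem mem_RR {S : Type*} {τ : S → ℤ} {p m : ℕ} (hp : p.Prime) (P : (S → ℤ)[X])
    (hP : ∀ u ∈ RR τ ((p : ℤ) ^ m), P.eval u ∈ RR τ ((p : ℤ) ^ m)) {h : S → ℤ} {c d : ℤ}
    (h0 : P.eval h = 0) (hc : ∀ s, (p : ℤ) ∣ h s - c)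
    (hd : ∀ s, (p : ℤ) ∣ P.derivative.eval h s - d) (hd' : ¬ (p : ℤ) ∣ d) :
    h ∈ RR τ ((p : ℤ) ^ m) := by
  obtain ⟨u, e, he⟩ := ((Nat.prime_iff_prime_int.1 hp).coprime_iff_not_dvd).2 hd'
  refine hensel (RR τ ((p : ℤ) ^ m)) (p : S → ℤ) m (fun a => ⟨0, fun s => by simp⟩) P hP h0 (intCast_mem _ c)
    (intCast_mem _ e) (pi_dvd_iff.2 fun s => dvd_sub_comm.1 (hc s)) (pi_dvd_iff.2 fun s => ?_)
  have : (1 - (e : S → ℤ) * P.derivative.eval h) s =
      p * u - e * (P.derivative.eval h s - d) := by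
    simp only [Pi.sub_apply, Pi.mul_apply, Pi.one_apply, Pi.intCast_apply, Int.cast_id]
    linear_combination -he
  rw [this]
  exact dvd_sub (dvd_mul_right _ _) ((hd s).mul_left _)

variable {ι : Type*} [Fintype ι] {a b c : ι}

theorem class_le (habc : ∀ y : ι → ℤ, y ⬝ᵥ y = y a ^ 2 + y b ^ 2 + y c ^ 2)
    (hall : ∀ i, i = a ∨ i = b ∨ i = c) {n : ℤ} {p B j : ℕ} (hp : p.Prime) (hB1 : 1 ≤ B)
    (hpB : 16 * B ≤ p ^ 2) (hj : B ≤ 4 ^ j) (hj1 : 1 ≤ j) (S : Finset (ι → ℤ))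
    (hn : ∀ y ∈ S, y ⬝ᵥ y = n) (hB : ∀ y ∈ S, ∀ i, |y i| ≤ B) (x : ι → ℤ)
    (hx : ∀ y ∈ S, ∀ i, (p : ℤ) ∣ y i - x i) (F : ℤ[X][X])
    (hF : ∀ y ∈ S, F.evalEval (y a) (y b) = 0)
    (hF' : ¬ (p : ℤ) ∣ x c * F.derivative.evalEval (x a) (x b)) : S.card ≤ 2 * j := by
  by_contra hc
  obtain ⟨y, hy⟩ := Function.Embedding.exists_of_card_le_finset (α := Fin (2 * j + 1)) (s := S)
    (by rw [Fintype.card_fin]; omega)
  have hS : ∀ s, y s ∈ S := fun s => hy ⟨s, rfl⟩
  have ha : (fun s => y s a) ∈ RR (fun s => y s a) ((p : ℤ) ^ ((2 * j + 1) * j)) :=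
    ⟨X, fun s => by simp⟩
  have hb : (fun s => y s b) ∈ RR (fun s => y s a) ((p : ℤ) ^ ((2 * j + 1) * j)) := by
    refine mem_RR hp (F.map (aeval fun s => y s a).toRingHom) (fun u hu => ?_) ?_
      (fun s => hx _ (hS s) b) (fun s => ?_) fun h => hF' (h.mul_left _)
    · rw [eval_eq_sum_range]
      refine sum_mem fun i _ => mul_mem ⟨F.coeff i, fun s => ?_⟩ (pow_mem hu i)
      simp [aeval_fn_apply]
    · funext s
      rw [ev_map]
      exact hF _ (hS s)
    · rw [derivative_map, ev_map]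
      exact ev_modEq _ (hx _ (hS s) a) (hx _ (hS s) b)
  have hc : (fun s => y s c) ∈ RR (fun s => y s a) ((p : ℤ) ^ ((2 * j + 1) * j)) := by
    refine mem_RR hp (X ^ 2 + C ((fun s => y s a) ^ 2 + (fun s => y s b) ^ 2 - (n : _ → ℤ)))
      (d := 2 * x c) (fun u hu => ?_) ?_ (fun s => hx _ (hS s) c) (fun s => ?_) fun h => ?_
    · rw [eval_add, eval_pow, eval_X, eval_C]
      exact add_mem (pow_mem hu 2)
        (sub_mem (add_mem (pow_mem ha 2) (pow_mem hb 2)) (intCast_mem _ n))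
    · funext s
      have := hn _ (hS s)
      rw [habc] at this
      simp only [eval_add, eval_pow, eval_X, eval_C, Pi.add_apply, Pi.sub_apply, Pi.pow_apply,
        Pi.intCast_apply, Int.cast_id, Pi.zero_apply]
      linear_combination this
    · have := (hx _ (hS s) c).mul_left 2
      rw [mul_sub] at this
      rw [derivative_add, derivative_C, derivative_X_sq]
      simpa using this
    · rcases (Nat.prime_iff_prime_int.1 hp).dvd_or_dvd h with h | h
      · have h1 : p ≤ 2 := by exact_mod_cast Int.le_of_dvd two_pos h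
        nlinarith
      · exact hF' (h.mul_right _)
  refine strand hB1 hpB hj hj1 y y.injective (fun s => hn _ (hS s)) (fun s => hB _ (hS s))
    (fun s => y s a) (fun s t => ?_) fun i => ?_
  · simpa using dvd_sub (hx _ (hS s) a) (hx _ (hS t) a)
  · rcases hall i with rfl | rfl | rfl
    exacts [ha, hb, hc]

theorem average {α : Type*} {W : Finset α} (hW : W.Nonempty) (PP : Finset ℕ) (bad : α → ℕ → Prop)
    [∀ x p, Decidable (bad x p)] (h : ∀ x ∈ W, 2 * (PP.filter (bad x)).card < PP.card) :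
    ∃ p ∈ PP, 2 * (W.filter (bad · p)).card < W.card := by
  by_contra hc
  push Not at hc
  have h1 := Finset.sum_le_sum hc
  have h2 := Finset.sum_lt_sum_of_nonempty hW h
  have h3 : ∑ p ∈ PP, 2 * (W.filter (bad · p)).card = ∑ x ∈ W, 2 * (PP.filter (bad x)).card := by
    rw [← Finset.mul_sum, ← Finset.mul_sum]
    congr 1
    simp only [Finset.card_filter]
    exact Finset.sum_comm
  simp only [Finset.sum_const, smul_eq_mul] at h1 h2
  rw [h3] at h1
  rw [mul_comm] at h2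
  omega

theorem few_primes {P : ℕ} (hP : 10 ^ 10 ≤ P) {Δ : ℤ} (h0 : Δ ≠ 0) (hΔ : |Δ| ^ 4 ≤ 2 ^ P) :
    2 * (((Ioc P (4 * P)).filter Nat.Prime).filter fun p : ℕ => (p : ℤ) ∣ Δ).card <
      ((Ioc P (4 * P)).filter Nat.Prime).card := by
  have h1 := primes_lower P hP
  set T := ((Ioc P (4 * P)).filter Nat.Prime).filter fun p : ℕ => (p : ℤ) ∣ Δ
  have h2 : ∏ p ∈ T, p ∣ Δ.natAbs := by
    refine (Finset.prod_dvd_prod_of_subset T Δ.natAbs.primeFactors _ fun p hp => ?_).trans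
      (Nat.prod_primeFactors_dvd _)
    obtain ⟨h2, h3⟩ := mem_filter.1 hp
    exact Nat.mem_primeFactors.2 ⟨(mem_filter.1 h2).2, Int.natCast_dvd.1 h3,
      Int.natAbs_ne_zero.2 h0⟩
  have h3 : P ^ T.card ≤ ∏ p ∈ T, p :=
    Finset.pow_card_le_prod _ _ _ fun p hp =>
      (mem_Ioc.1 (mem_filter.1 (mem_filter.1 hp).1).1).1.le
  have h4 : (P ^ T.card) ^ 4 ≤ 2 ^ P := by
    refine (Nat.pow_le_pow_left (h3.trans (Nat.le_of_dvd (Int.natAbs_pos.2 h0) h2)) 4).trans ?_
    rw [Int.abs_eq_natAbs] at hΔ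
    exact_mod_cast hΔ
  have hP' : (10 : ℝ) ^ 10 ≤ P := by exact_mod_cast hP
  have h5 : ((P : ℝ) ^ T.card) ^ 4 ≤ 2 ^ P := by exact_mod_cast h4
  have h6 := Real.log_le_log (by positivity) h5
  rw [Real.log_pow, Real.log_pow, Real.log_pow] at h6
  have h7 : Real.log (4 * P) ≤ 2 * Real.log P := by
    rw [two_mul, ← Real.log_mul (by positivity) (by positivity)]
    exact Real.log_le_log (by positivity) (by nlinarith)
  have h8 := Real.log_two_lt_d9
  have h9 : 0 < Real.log P := Real.log_pos (by linarith)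
  by_contra hc
  have h10 : (((Ioc P (4 * P)).filter Nat.Prime).card : ℝ) ≤ 2 * T.card := by
    exact_mod_cast not_lt.1 hc
  have h11 := mul_le_mul h10 h7 (Real.log_nonneg (by linarith)) (by positivity)
  push_cast at h6
  nlinarith

theorem core (habc : ∀ y : ι → ℤ, y ⬝ᵥ y = y a ^ 2 + y b ^ 2 + y c ^ 2)
    (hall : ∀ i, i = a ∨ i = b ∨ i = c) (hι : Fintype.card ι = 3) {n : ℤ} {P B j : ℕ}
    (hP : 10 ^ 10 ≤ P) (hB1 : 1 ≤ B) (hPB : 16 * B ≤ P ^ 2) (hj : B ≤ 4 ^ j) (hj1 : 1 ≤ j)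
    {W : Finset (ι → ℤ)} (hW : W.Nonempty) (hn : ∀ y ∈ W, y ⬝ᵥ y = n)
    (hB : ∀ y ∈ W, ∀ i, |y i| ≤ B) (f : ℤ[X][X])
    (hf : ∀ y ∈ W, ∃ s, (∀ i ≤ s, (derivative^[i] f).evalEval (y a) (y b) = 0) ∧
      y c * (derivative^[s + 1] f).evalEval (y a) (y b) ≠ 0 ∧
      |y c * (derivative^[s + 1] f).evalEval (y a) (y b)| ^ 4 ≤ 2 ^ P) :
    ¬ Rel W (48 * P * j) := by
  classical
  intro hrel
  choose! s h1 h2 h3 using hf
  obtain ⟨p, hp, hbad⟩ := average hW ((Ioc P (4 * P)).filter Nat.Prime)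
    (fun y p => (p : ℤ) ∣ y c * (derivative^[s y + 1] f).evalEval (y a) (y b))
    fun y hy => few_primes hP (h2 y hy) (h3 y hy)
  obtain ⟨hp, hpp⟩ := mem_filter.1 hp
  obtain ⟨hp1, hp2⟩ := mem_Ioc.1 hp
  have hpB : 16 * B ≤ p ^ 2 := hPB.trans (Nat.pow_le_pow_left hp1.le 2)
  have h4 := two_mul_card_le_of_class (T := 2 * j) hpp
    (A := W.filter fun y => ¬ (p : ℤ) ∣ y c * (derivative^[s y + 1] f).evalEval (y a) (y b))
    (hrel.mono ?_) (filter_subset _ _) (fun y hy z hz i => ?_) fun y hy => ?_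
  · have := Finset.card_filter_add_card_filter_not (s := W)
      fun y => (p : ℤ) ∣ y c * (derivative^[s y + 1] f).evalEval (y a) (y b)
    omega
  · rw [hι]
    calc 2 * ((3 * (p - 1) + 1) * (2 * j)) ≤ 2 * ((12 * P) * (2 * j)) := by
          gcongr
          omega
      _ = _ := by ring
  · have h5 := abs_le.1 (hB y (mem_filter.1 hy).1 i)
    have h6 := abs_le.1 (hB z (mem_filter.1 hz).1 i)
    have h7 : 16 * (B : ℤ) ≤ (p : ℤ) ^ 2 := by exact_mod_cast hpB
    rw [abs_lt]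
    omega
  · obtain ⟨x, hx, hmin⟩ := exists_min_image ((W.filter fun y =>
        ¬ (p : ℤ) ∣ y c * (derivative^[s y + 1] f).evalEval (y a) (y b)).filter
        fun z => ∀ i, (p : ℤ) ∣ y i - z i) s ⟨y, mem_filter.2 ⟨hy, by simp⟩⟩
    have hsub : ∀ z ∈ (W.filter fun y =>
        ¬ (p : ℤ) ∣ y c * (derivative^[s y + 1] f).evalEval (y a) (y b)).filter
        fun z => ∀ i, (p : ℤ) ∣ y i - z i, z ∈ W := fun z hz => (mem_filter.1 (mem_filter.1 hz).1).1
    refine class_le habc hall hpp hB1 hpB hj hj1 _ (fun z hz => hn z (hsub z hz))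
      (fun z hz => hB z (hsub z hz)) x (fun z hz i => ?_) (derivative^[s x] f)
      (fun z hz => h1 z (hsub z hz) _ (hmin z hz)) ?_
    · simpa using dvd_sub ((mem_filter.1 hx).2 i) ((mem_filter.1 hz).2 i)
    · rw [← Function.iterate_succ_apply' derivative]
      exact (mem_filter.1 (mem_filter.1 hx).1).2

end Pool.Agent.P.MP_d565f2_an.D3
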