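import Pool.Agent.P.MP_d565f2_an.D3C
import Pool.Agent.P.MP_d565f2_an.Analytic

/-! The auxiliary polynomial and the bound in dimension three. -/

set_option autoImplicit false

open Finset Polynomial

namespace Pool.Agent.P.MP_d565f2_an.D3

theorem eval_bound {q : ℤ[X]} {g : ℕ} (hq : q.natDegree < g) {H t B : ℤ}
    (hH : ∀ i, |q.coeff i| ≤ H) (hB : 1 ≤ B) (ht : |t| ≤ B) : |q.eval t| ≤ g * (H * B ^ g) := by
  rw [eval_eq_sum_range' hq]
  refine (abs_sum_le_sum_abs _ _).trans ((sum_le_card_nsmul _ _ (H * B ^ g) fun i hi => ?_).trans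
    (by simp))
  rw [abs_mul, abs_pow]
  exact mul_le_mul (hH i) ((pow_le_pow_left₀ (abs_nonneg _) ht i).trans
    (pow_le_pow_right₀ hB (mem_range.1 hi).le)) (by positivity) ((abs_nonneg _).trans (hH i))

theorem first_deriv {q : ℤ[X]} {g : ℕ} (hq : q.natDegree < g) {H t B : ℤ}
    (hH : ∀ i, |q.coeff i| ≤ H) (hB : 1 ≤ B) (ht : |t| ≤ B) (h0 : q ≠ 0) (h1 : q.eval t = 0) :
    ∃ s, (∀ i ≤ s, (derivative^[i] q).eval t = 0) ∧ (derivative^[s + 1] q).eval t ≠ 0 ∧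
      |(derivative^[s + 1] q).eval t| ≤ g * ((g : ℤ) ^ g * H * B ^ g) := by
  obtain ⟨s, hs⟩ := Nat.exists_eq_succ_of_ne_zero ((rootMultiplicity_pos h0).2 h1).ne'
  have h2 := (lt_rootMultiplicity_iff_isRoot_iterate_derivative (n := s) (t := t) h0).1 (by omega)
  refine ⟨s, h2, fun h => ?_, eval_bound
    (((natDegree_iterate_derivative q _).trans (Nat.sub_le _ _)).trans_lt hq) (fun i => ?_) hB ht⟩
  · have h3 := (lt_rootMultiplicity_iff_isRoot_iterate_derivative (n := s + 1) (t := t) h0).2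
      fun m hm => by
        rcases Nat.le_succ_iff.1 hm with h4 | rfl
        exacts [h2 m h4, h]
    omega
  · have hH0 : 0 ≤ H := (abs_nonneg _).trans (hH 0)
    rw [coeff_iterate_derivative]
    rcases lt_or_ge (i + (s + 1)) g with h | h
    · rw [nsmul_eq_mul, abs_mul, Nat.abs_cast]
      refine mul_le_mul ?_ (hH _) (abs_nonneg _) (by positivity)
      exact_mod_cast (Nat.descFactorial_le_pow _ _).trans ((Nat.pow_le_pow_left h.le _).trans
        (Nat.pow_le_pow_right (by omega) (by omega)))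
    · rw [coeff_eq_zero_of_natDegree_lt (by omega), smul_zero, abs_zero]
      positivity

variable {ι : Type*}

open scoped Matrix.Norms.Elementwise in
theorem siegel (a b : ι) {W : Finset (ι → ℤ)} (hW : W.Nonempty) {g B : ℕ} (hg : 2 * W.card ≤ g ^ 2)
    (hB1 : 1 ≤ B) (hB : ∀ y ∈ W, ∀ i, |y i| ≤ B) : ∃ f : ℤ[X][X], f ≠ 0 ∧ f.natDegree < g ∧
      (∀ l, (f.coeff l).natDegree < g) ∧
      (∀ l i, |(f.coeff l).coeff i| ≤ (g : ℤ) ^ 2 * (B : ℤ) ^ (2 * g)) ∧
      ∀ y ∈ W, f.evalEval (y a) (y b) = 0 := by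
  classical
  have hW' := hW.card_pos
  have hg1 : 1 ≤ g := Nat.pos_of_ne_zero fun h => by
    rw [h] at hg
    omega
  have hB' : (1 : ℤ) ≤ B := by exact_mod_cast hB1
  have hB'' : (1 : ℝ) ≤ B := by exact_mod_cast hB1
  let A : Matrix W (Fin g × Fin g) ℤ := Matrix.of fun y q => y.1 a ^ (q.1 : ℕ) * y.1 b ^ (q.2 : ℕ)
  have hc : Fintype.card (Fin g × Fin g) = g ^ 2 := by simp [sq]
  obtain ⟨t, ht0, ht1, ht2⟩ := Int.Matrix.exists_ne_zero_int_vec_norm_le A
    (by rw [hc, Fintype.card_coe]; omega) (by rwa [Fintype.card_coe])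
  have hA : ‖A‖ ≤ (B : ℝ) ^ (2 * g) := by
    refine (Matrix.norm_le_iff (by positivity)).2 fun y q => ?_
    have h1 : |A y q| ≤ (B : ℤ) ^ (2 * g) := by
      simp only [A, Matrix.of_apply, abs_mul, abs_pow, two_mul, pow_add]
      exact mul_le_mul
        ((pow_le_pow_left₀ (abs_nonneg _) (hB _ y.2 a) _).trans (pow_le_pow_right₀ hB' q.1.2.le))
        ((pow_le_pow_left₀ (abs_nonneg _) (hB _ y.2 b) _).trans (pow_le_pow_right₀ hB' q.2.2.le))
        (by positivity) (by positivity)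
    rw [Int.norm_eq_abs]
    exact_mod_cast h1
  have ht : ∀ q, |t q| ≤ (g : ℤ) ^ 2 * (B : ℤ) ^ (2 * g) := by
    intro q
    have h1 : (1 : ℝ) ≤ g := by exact_mod_cast hg1
    have h2 : (2 : ℝ) * W.card ≤ (g : ℝ) ^ 2 := by exact_mod_cast hg
    have h3 : (0 : ℝ) < W.card := by exact_mod_cast hW'
    rw [hc, Fintype.card_coe, Nat.cast_pow] at ht2
    have h4 := ((norm_le_pi_norm t q).trans ht2).trans (Real.rpow_le_self_of_one_le
      (one_le_mul_of_one_le_of_one_le (one_le_pow₀ h1) (le_max_left _ _))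
      ((div_le_one (by linarith)).2 (by linarith)))
    have h5 := h4.trans (mul_le_mul_of_nonneg_left (max_le (one_le_pow₀ hB'') hA) (by positivity))
    rw [Int.norm_eq_abs] at h5
    exact_mod_cast h5
  refine ⟨ofFn g fun l => ofFn g fun i => t (i, l), fun h => ht0 ?_, ofFn_natDegree_lt hg1 _,
    fun l => ?_, fun l i => ?_, fun y hy => ?_⟩
  · funext q
    have h1 := congrFun (injective_ofFn g (h.trans (ofFn_zero g).symm)) q.2
    exact congrFun (injective_ofFn g (h1.trans (ofFn_zero g).symm)) q.1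
  · rcases lt_or_ge l g with h | h
    · rw [ofFn_coeff_eq_val_of_lt _ h]
      exact ofFn_natDegree_lt hg1 _
    · rw [ofFn_coeff_eq_zero_of_ge _ h, natDegree_zero]
      exact hg1
  · rcases lt_or_ge l g with h | h
    · rw [ofFn_coeff_eq_val_of_lt _ h]
      rcases lt_or_ge i g with h' | h'
      · rw [ofFn_coeff_eq_val_of_lt _ h']
        exact ht _
      · rw [ofFn_coeff_eq_zero_of_ge _ h', abs_zero]
        positivity
    · rw [ofFn_coeff_eq_zero_of_ge _ h, coeff_zero, abs_zero]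
      positivity
  · have h1 := congrFun ht1 ⟨y, hy⟩
    simp only [Matrix.mulVec, dotProduct, A, Matrix.of_apply, Fintype.sum_prod_type_right,
      Pi.zero_apply] at h1
    rw [← h1]
    simp only [ofFn_eq_sum_monomial, evalEval, eval_finsetSum, eval_monomial, eval_mul, eval_pow,
      eval_C, Finset.sum_mul]
    exact sum_congr rfl fun l _ => sum_congr rfl fun i _ => by ring

theorem coords (c : Fin 3) : ∃ a b : Fin 3,
    (∀ y : Fin 3 → ℤ, y ⬝ᵥ y = y a ^ 2 + y b ^ 2 + y c ^ 2) ∧ ∀ i, i = a ∨ i = b ∨ i = c := by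
  fin_cases c
  · exact ⟨1, 2, fun y => by simp [dotProduct, Fin.sum_univ_three]; ring, by decide⟩
  · exact ⟨0, 2, fun y => by simp [dotProduct, Fin.sum_univ_three]; ring, by decide⟩
  · exact ⟨0, 1, fun y => by simp [dotProduct, Fin.sum_univ_three]; ring, by decide⟩

theorem not_rel {n g B L P j : ℕ} (hn : 1 ≤ n) (hB1 : 1 ≤ B)
    (hB : ∀ y ∈ sph (Fin 3) n, ∀ i, |y i| ≤ B) (hg : 2 * (sph (Fin 3) n).card ≤ g ^ 2)
    (hgL : g ≤ 2 ^ L) (hBL : B ≤ 2 ^ L) (hP : 10 ^ 10 ≤ P) (hPB : 16 * B ≤ P ^ 2)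
    (hPL : 40 * g * L ≤ P) (hj : B ≤ 4 ^ j) (hj1 : 1 ≤ j) :
    ∀ Z ⊆ sph (Fin 3) n, Z.Nonempty → ¬ Rel Z (48 * P * j + g + 1) := by
  classical
  intro Z hZ ⟨x, hx⟩ hrel
  obtain ⟨c, hc⟩ : ∃ c, x c ≠ 0 := by
    refine Function.ne_iff.1 fun h => ?_
    have := mem_sph.1 (hZ hx)
    simp [h] at this
    omega
  obtain ⟨a, b, habc, hall⟩ := coords c
  have h1 := hrel.filter (MvPolynomial.X c) (by rw [MvPolynomial.totalDegree_X])
  simp only [MvPolynomial.eval_X] at h1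
  set W := Z.filter fun y => y c ≠ 0
  have hWZ : W ⊆ sph (Fin 3) n := (filter_subset _ _).trans hZ
  have hW : W.Nonempty := ⟨x, mem_filter.2 ⟨hx, hc⟩⟩
  obtain ⟨f, hf0, hf1, hf2, hf3, hf4⟩ := siegel a b hW
    ((Nat.mul_le_mul_left 2 (card_le_card hWZ)).trans hg) hB1 fun y hy => hB y (hWZ hy)
  have hB' : (1 : ℤ) ≤ B := by exact_mod_cast hB1
  have hgL' : (g : ℤ) ≤ 2 ^ L := by exact_mod_cast hgL
  have hBL' : (B : ℤ) ≤ 2 ^ L := by exact_mod_cast hBL
  have hpow : ∀ Δ : ℤ, |Δ| ≤ (2 ^ L) ^ (10 * g) → |Δ| ^ 4 ≤ 2 ^ P := fun Δ h =>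
    (pow_le_pow_left₀ (abs_nonneg _) h 4).trans (by
      rw [← pow_mul, ← pow_mul]
      exact pow_le_pow_right₀ one_le_two (by linarith))
  have hE : (1 : ℤ) ≤ 2 ^ L := hB'.trans hBL'
  obtain ⟨W', hW1, hW2, hW3, hor⟩ := Rel.kill f.leadingCoeff.roots.toFinset
    (fun _ => Pi.single a 1) id (k := 48 * P * j) hW (h1.mono (by
      have := (Multiset.toFinset_card_le _).trans (card_roots' f.leadingCoeff)
      have := hf2 f.natDegree
      rw [coeff_natDegree] at this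
      omega))
  simp only [single_dotProduct, one_mul, id] at hor
  have hn' : ∀ y ∈ W', y ⬝ᵥ y = n := fun y hy => mem_sph.1 (hWZ (hW1 hy))
  have hB2 : ∀ y ∈ W', ∀ i, |y i| ≤ B := fun y hy => hB y (hWZ (hW1 hy))
  have hc' : ∀ y ∈ W', y c ≠ 0 := fun y hy => (mem_filter.1 (hW1 hy)).2
  rcases hor with hor | ⟨r, -, hor⟩
  · refine core habc hall (by simp) hP hB1 hPB hj hj1 hW2 hn' hB2 f (fun y hy => ?_) hW3
    obtain ⟨s, h2, h3, h4⟩ := first_deriv (q := f.map (evalRingHom (y a))) (t := y b)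
      (natDegree_map_le.trans_lt hf1)
      (fun l => by
        rw [coeff_map]
        exact eval_bound (hf2 l) (hf3 l) hB' (hB2 y hy a)) hB' (hB2 y hy b)
      (fun h => hor y hy (y a) (by
        have h5 := congrArg (coeff · f.natDegree) h
        simp only [coeff_map, coeff_natDegree, coeff_zero, coe_evalRingHom] at h5
        exact Multiset.mem_toFinset.2 ((mem_roots (leadingCoeff_ne_zero.2 hf0)).2 h5)) rfl)
      (by rw [map_evalRingHom_eval]; exact hf4 y (hW1 hy))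
    simp only [iterate_derivative_map, map_evalRingHom_eval] at h2 h3 h4
    refine ⟨s, h2, mul_ne_zero (hc' y hy) h3, hpow _ ?_⟩
    rw [abs_mul]
    calc _ ≤ (B : ℤ) * (g * ((g : ℤ) ^ g * (g * ((g : ℤ) ^ 2 * (B : ℤ) ^ (2 * g) * (B : ℤ) ^ g)) *
          (B : ℤ) ^ g)) := mul_le_mul (hB2 y hy c) h4 (abs_nonneg _) (by positivity)
      _ ≤ 2 ^ L * (2 ^ L * ((2 ^ L) ^ g * (2 ^ L * ((2 ^ L) ^ 2 * (2 ^ L) ^ (2 * g) *
          (2 ^ L) ^ g)) * (2 ^ L) ^ g)) := by gcongr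
      _ = (2 ^ L) ^ (5 * g + 5) := by ring
      _ ≤ _ := pow_le_pow_right₀ hE (by omega)
  · refine core (a := b) (b := a) (c := c) (fun y => by rw [habc]; ring) (fun i => by
      rcases hall i with h | h | h <;> simp [h]) (by simp) hP hB1 hPB hj hj1 hW2 hn' hB2
      (X - C (C r)) (fun y hy => ⟨0, fun i hi => ?_, ?_, hpow _ ?_⟩) hW3
    · simp [Nat.le_zero.1 hi, hor y hy, evalEval]
    · simpa using hc' y hy
    · simpa using ((hB2 y hy c).trans hBL').trans (le_self_pow₀ hE (by omega))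

theorem bound : ∃ C : ℝ, 0 < C ∧ ∀ n : ℕ, 1 ≤ n → ∃ K : ℕ,
    (∀ Z ⊆ sph (Fin 3) n, Z.Nonempty → ¬ Rel Z K) ∧
      (K : ℝ) ≤ C * √((sph (Fin 3) n).card + √n) * Real.log (n + 1) ^ 2 := by
  refine ⟨10 ^ 13, by positivity, fun n hn => ?_⟩
  set N := (sph (Fin 3) n).card
  set j := Nat.log 2 n + 1 with hj
  have h1 : n < 2 ^ j := Nat.lt_pow_succ_log_self one_lt_two n
  have h2 : n.sqrt ≤ n := Nat.sqrt_le_self n
  have hbox : sph (Fin 3) n ⊆ box (Fin 3) n.sqrt := fun y hy => mem_box.2 fun i => by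
    have h3 := (sq_le_dot y i).trans (mem_sph.1 hy).le
    have h4 : (n : ℤ) < ((n.sqrt : ℤ) + 1) ^ 2 := by exact_mod_cast Nat.lt_succ_sqrt' n
    exact Int.lt_add_one_iff.1 (abs_lt_of_sq_lt_sq (h3.trans_lt h4) (by positivity))
  have h3 : N ≤ (2 * n.sqrt + 1) ^ 3 := by simpa [card_box] using card_le_card hbox
  have h4 : 2 * (N.sqrt + 1) ≤ 2 ^ (9 * j) :=
    calc 2 * (N.sqrt + 1) ≤ 2 * ((2 * 2 ^ j) ^ 3 + (2 * 2 ^ j) ^ 3) := by
          have h5 := (Nat.sqrt_le_self N).trans (h3.trans (Nat.pow_le_pow_left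
            (show 2 * n.sqrt + 1 ≤ 2 * 2 ^ j by omega) 3))
          have h6 : 1 ≤ (2 * 2 ^ j) ^ 3 := Nat.one_le_pow _ _ (by positivity)
          omega
      _ = 2 ^ (3 * j + 5) := by ring
      _ ≤ _ := Nat.pow_le_pow_right two_pos (by omega)
  refine ⟨_, not_rel (g := 2 * (N.sqrt + 1)) (B := n.sqrt) (L := 9 * j)
    (P := 10 ^ 10 + 720 * (N.sqrt + 1) * j + 4 * (n.sqrt.sqrt + 1)) (j := j) hn
    (Nat.sqrt_pos.2 hn) (fun y hy => mem_box.1 (hbox hy)) ?_ h4
    ((h2.trans h1.le).trans (Nat.pow_le_pow_right two_pos (by omega))) (by omega) ?_ (by linarith)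
    ((h2.trans h1.le).trans (Nat.pow_le_pow_left (by norm_num) j)) (by omega), ?_⟩
  · have := Nat.lt_succ_sqrt' N
    simp only [Nat.succ_eq_add_one] at this
    nlinarith
  · refine le_trans ?_ (Nat.pow_le_pow_left (Nat.le_add_left _ _) 2)
    have := Nat.lt_succ_sqrt' n.sqrt
    simp only [Nat.succ_eq_add_one] at this
    nlinarith
  have hn' : (1 : ℝ) ≤ n := by exact_mod_cast hn
  have h5 : (1 : ℝ) ≤ √n := Real.one_le_sqrt.2 hn'
  have hN : (0 : ℝ) ≤ N := by positivity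
  set R := √((N : ℝ) + √n)
  have h6 : 1 ≤ R := Real.one_le_sqrt.2 (by linarith)
  have h7 : (N.sqrt : ℝ) ≤ R := Real.nat_sqrt_le_real_sqrt.trans (Real.sqrt_le_sqrt (by linarith))
  have h8 : (n.sqrt.sqrt : ℝ) ≤ R := Real.nat_sqrt_le_real_sqrt.trans
    (Real.sqrt_le_sqrt (by linarith [Real.nat_sqrt_le_real_sqrt (a := n)]))
  have h9 : (j : ℝ) ≤ 3 * Real.log (n + 1) := by
    have h10 : ((2 : ℝ) ^ Nat.log 2 n) ≤ n + 1 := by
      have : ((2 : ℝ) ^ Nat.log 2 n) ≤ n := by exact_mod_cast Nat.pow_log_le_self 2 (by omega)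
      linarith
    have h11 := Real.log_le_log (by positivity) h10
    have h12 := Real.log_le_log two_pos (show (2 : ℝ) ≤ n + 1 by linarith)
    rw [Real.log_pow] at h11
    have h13 := Real.log_two_gt_d9
    have h14 : (0 : ℝ) ≤ Nat.log 2 n := by positivity
    rw [hj]
    push_cast
    nlinarith
  have h10 : (1 : ℝ) ≤ j := by exact_mod_cast (by omega : 1 ≤ j)
  have h11 : (j : ℝ) ^ 2 ≤ 9 * Real.log (n + 1) ^ 2 := by nlinarith
  have h12 : R ≤ R * j := le_mul_of_one_le_right (by linarith) h10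
  have h13 : R * j ≤ R * j * j := le_mul_of_one_le_right (by positivity) h10
  push_cast
  calc _ ≤ 48 * (10 ^ 10 * (R * j) + 720 * (R + R) * j + 4 * (R * j + R * j)) * j +
        2 * (R * j * j + R * j * j) + R * j * j := by
        gcongr <;> linarith
    _ ≤ 10 ^ 12 * R * (j : ℝ) ^ 2 := by nlinarith
    _ ≤ 10 ^ 12 * R * (9 * Real.log (n + 1) ^ 2) := by gcongr
    _ ≤ _ := by nlinarith [mul_nonneg (by linarith : 0 ≤ R) (sq_nonneg (Real.log (n + 1)))]

end Pool.Agent.P.MP_d565f2_an.D3
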