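import Pool.Agent.P.MP_d565f2_an.Analytic

set_option autoImplicit false

open Finset ArithmeticFunction
open scoped ArithmeticFunction.Moebius

namespace Pool.Agent.P.MP_d565f2_an

theorem succ_pow_le (B a : ℕ) (hB : 1 ≤ B) : (a + 1) ^ B ≤ B ^ B * 2 ^ a := by
  have h1 : a + 1 ≤ B * 2 ^ (a / B) := by
    have h2 : a / B + 1 ≤ 2 ^ (a / B) := Nat.lt_two_pow_self
    have h3 : a < B * (a / B + 1) := Nat.lt_mul_div_succ a hB
    calc a + 1 ≤ B * (a / B + 1) := h3
      _ ≤ B * 2 ^ (a / B) := Nat.mul_le_mul_left _ h2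
  calc (a + 1) ^ B ≤ (B * 2 ^ (a / B)) ^ B := Nat.pow_le_pow_left h1 _
    _ = B ^ B * 2 ^ (a / B * B) := by rw [mul_pow, ← pow_mul]
    _ ≤ B ^ B * 2 ^ a :=
      Nat.mul_le_mul_left _ (Nat.pow_le_pow_right (by omega) (Nat.div_mul_le_self a B))

theorem card_divisors_pow_le (B : ℕ) (hB : 1 ≤ B) :
    ∃ C : ℕ, ∀ n : ℕ, n ≠ 0 → n.divisors.card ^ B ≤ C * n := by
  refine ⟨(B ^ B) ^ (2 ^ B), fun n hn => ?_⟩
  have hBB : 1 ≤ B ^ B := Nat.one_le_pow _ _ hB
  rw [Nat.card_divisors hn, ← Finset.prod_pow]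
  have h1 : ∏ p ∈ n.primeFactors, (n.factorization p + 1) ^ B ≤
      ∏ p ∈ n.primeFactors, ((if p < 2 ^ B then B ^ B else 1) * p ^ n.factorization p) := by
    refine Finset.prod_le_prod' fun p hp => ?_
    have hp2 := (Nat.prime_of_mem_primeFactors hp).two_le
    split_ifs with h
    · exact (succ_pow_le B _ hB).trans (Nat.mul_le_mul_left _ (Nat.pow_le_pow_left hp2 _))
    · rw [one_mul]
      have h2 : n.factorization p + 1 ≤ 2 ^ n.factorization p := Nat.lt_two_pow_self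
      calc (n.factorization p + 1) ^ B ≤ (2 ^ n.factorization p) ^ B := Nat.pow_le_pow_left h2 _
        _ = (2 ^ B) ^ n.factorization p := by rw [← pow_mul, ← pow_mul, mul_comm]
        _ ≤ p ^ n.factorization p := Nat.pow_le_pow_left (by omega) _
  refine h1.trans ?_
  rw [Finset.prod_mul_distrib]
  have h2 : ∏ p ∈ n.primeFactors, p ^ n.factorization p = n := by
    conv_rhs => rw [← Nat.prod_factorization_pow_eq_self hn]
    rfl
  rw [h2]
  refine Nat.mul_le_mul_right _ ?_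
  rw [← Finset.prod_filter, Finset.prod_const]
  refine Nat.pow_le_pow_right hBB ?_
  calc (n.primeFactors.filter fun p => p < 2 ^ B).card ≤ (Finset.range (2 ^ B)).card :=
        Finset.card_le_card fun p hp => Finset.mem_range.2 (Finset.mem_filter.1 hp).2
    _ = 2 ^ B := Finset.card_range _

/-- The divisor bound in the form used below. -/
theorem divisor_bound (B : ℕ) : ∃ w₀ : ℕ, ∀ w : ℕ, w₀ ≤ w → ∀ t : ℕ, t ≤ w ^ B →
    t.divisors.card ≤ w := by
  obtain ⟨C, hC⟩ := card_divisors_pow_le (B + 1) (by omega)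
  refine ⟨C, fun w hw t ht => ?_⟩
  rcases Nat.eq_zero_or_pos t with rfl | h0
  · simp
  have h1 : t.divisors.card ^ (B + 1) ≤ w ^ (B + 1) :=
    calc t.divisors.card ^ (B + 1) ≤ C * t := hC t h0.ne'
      _ ≤ w * w ^ B := Nat.mul_le_mul hw ht
      _ = w ^ (B + 1) := by ring
  exact (Nat.pow_le_pow_iff_left (by omega)).1 h1

theorem ex_add (s t : ℝ) : ex (s + t) = ex s * ex t := by
  unfold ex
  rw [← Complex.exp_add]
  congr 1
  push_cast
  ring

theorem ex_zero : ex 0 = 1 := by simp [ex]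

theorem ex_int (n : ℤ) : ex n = 1 := by
  unfold ex
  rw [← Complex.exp_int_mul_two_pi_mul_I n]
  congr 1
  push_cast
  ring

theorem ex_add_int (s : ℝ) (n : ℤ) : ex (s + n) = ex s := by rw [ex_add, ex_int, mul_one]

theorem norm_ex (t : ℝ) : ‖ex t‖ = 1 := by
  have : ex t = Complex.exp (((2 * Real.pi * t : ℝ) : ℂ) * Complex.I) := by
    unfold ex
    congr 1
    push_cast
    ring
  rw [this, Complex.norm_exp_ofReal_mul_I]

theorem ex_nat_mul (n : ℕ) (t : ℝ) : ex (n * t) = ex t ^ n := by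
  unfold ex
  rw [← Complex.exp_nat_mul]
  congr 1
  push_cast
  ring

theorem conj_ex (t : ℝ) : (starRingEnd ℂ) (ex t) = ex (-t) := by
  unfold ex
  rw [← Complex.exp_conj]
  congr 1
  simp only [map_mul, Complex.conj_ofReal, Complex.conj_I, map_ofNat]
  push_cast
  ring

theorem ex_eq_one_iff (t : ℝ) : ex t = 1 ↔ ∃ n : ℤ, t = n := by
  constructor
  · intro h
    obtain ⟨n, hn⟩ := Complex.exp_eq_one_iff.1 h
    refine ⟨n, ?_⟩
    have h2 : (2 * (Real.pi : ℂ) * Complex.I) * (t : ℂ) =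
        (2 * (Real.pi : ℂ) * Complex.I) * (n : ℂ) := by rw [hn]; ring
    have h3 := mul_left_cancel₀ Complex.two_pi_I_ne_zero h2
    exact_mod_cast h3
  · rintro ⟨n, rfl⟩
    exact ex_int n

/-- Orthogonality of additive characters modulo `q`. -/
theorem sum_ex (q : ℕ) (hq : 0 < q) (g : ℤ) :
    ∑ r ∈ range q, ex ((r : ℝ) * g / q) = if (q : ℤ) ∣ g then (q : ℂ) else 0 := by
  have hq' : (q : ℝ) ≠ 0 := by positivity
  have h1 : ∀ r : ℕ, ex ((r : ℝ) * g / q) = ex (g / q) ^ r := by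
    intro r
    rw [← ex_nat_mul, mul_div_assoc]
  simp only [h1]
  split_ifs with h
  · obtain ⟨k, rfl⟩ := h
    have : ex ((((q : ℤ) * k : ℤ) : ℝ) / q) = 1 := by
      rw [← ex_int k]
      congr 1
      push_cast
      field_simp
    rw [this]
    simp
  · have h2 : ex (g / q) ≠ 1 := by
      intro h3
      obtain ⟨k, hk⟩ := (ex_eq_one_iff _).1 h3
      apply h
      refine ⟨k, ?_⟩
      have : (g : ℝ) = q * k := by rw [← hk]; field_simp
      exact_mod_cast this
    rw [geom_sum_eq h2, ← ex_nat_mul]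
    have : (q : ℝ) * (g / q) = (g : ℤ) := by field_simp
    rw [this, ex_int]
    simp

/-- Farey fractions in `[0, 1)` with denominator at most `R`. -/
noncomputable def farey (R : ℕ) : Finset ℚ :=
  (Icc 1 R).biUnion fun q => (range q).image fun r : ℕ => (r : ℚ) / (q : ℚ)

theorem eq_div_of_den_dvd {s : ℚ} (h0 : 0 ≤ s) (h1 : s < 1) {q : ℕ} (hq : 0 < q)
    (hd : s.den ∣ q) : ∃ r : ℕ, r < q ∧ (r : ℚ) / (q : ℚ) = s := by
  obtain ⟨k, rfl⟩ := hd
  have hk : 0 < k := Nat.pos_of_mul_pos_left hq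
  have hnum : 0 ≤ s.num := Rat.num_nonneg.2 h0
  have hden : (0 : ℚ) < s.den := by exact_mod_cast s.pos
  have hs : (s.num.toNat : ℚ) = s * s.den := by
    have h2 : ((s.num.toNat : ℤ) : ℚ) = s.num := by rw [Int.toNat_of_nonneg hnum]
    rw [Rat.mul_den_eq_num, ← h2, Int.cast_natCast]
  refine ⟨s.num.toNat * k, ?_, ?_⟩
  · have h3 : (s.num.toNat : ℚ) < s.den := by
      rw [hs]
      nlinarith
    have h4 : s.num.toNat < s.den := by exact_mod_cast h3
    exact Nat.mul_lt_mul_of_pos_right h4 hk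
  · have hk' : (0 : ℚ) < k := by exact_mod_cast hk
    push_cast
    rw [hs]
    field_simp

theorem den_div_dvd (r : ℤ) (q : ℕ) : ((r : ℚ) / (q : ℚ)).den ∣ q := by
  have h := Rat.den_dvd r q
  rw [Rat.divInt_eq_div] at h
  exact_mod_cast h

theorem mem_farey {R : ℕ} {s : ℚ} : s ∈ farey R ↔ 0 ≤ s ∧ s < 1 ∧ s.den ≤ R := by
  simp only [farey, mem_biUnion, mem_Icc, mem_image, mem_range]
  constructor
  · rintro ⟨q, ⟨hq1, hq2⟩, r, hr, rfl⟩
    have hq : (0 : ℚ) < q := by exact_mod_cast hq1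
    refine ⟨by positivity, ?_, ?_⟩
    · rw [div_lt_one hq]; exact_mod_cast hr
    · have := den_div_dvd r q
      exact (Nat.le_of_dvd hq1 (by simpa using this)).trans hq2
  · rintro ⟨h0, h1, h2⟩
    obtain ⟨r, hr, hrs⟩ := eq_div_of_den_dvd h0 h1 s.pos dvd_rfl
    exact ⟨s.den, ⟨s.pos, h2⟩, r, hr, hrs⟩

theorem sum_farey_den_dvd {M : Type*} [AddCommMonoid M] {R q : ℕ} (hq : 0 < q) (hqR : q ≤ R)
    (f : ℚ → M) :
    ∑ s ∈ (farey R).filter (fun s => s.den ∣ q), f s = ∑ r ∈ range q, f ((r : ℚ) / (q : ℚ)) := by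
  have hq' : (0 : ℚ) < q := by exact_mod_cast hq
  have : (farey R).filter (fun s => s.den ∣ q) =
      (range q).image fun r : ℕ => (r : ℚ) / (q : ℚ) := by
    ext s
    simp only [mem_filter, mem_farey, mem_image, mem_range]
    constructor
    · rintro ⟨⟨h0, h1, -⟩, h2⟩
      exact eq_div_of_den_dvd h0 h1 hq h2
    · rintro ⟨r, hr, rfl⟩
      have h3 : ((r : ℚ) / (q : ℚ)).den ∣ q := by simpa using den_div_dvd r q
      refine ⟨⟨by positivity, ?_, (Nat.le_of_dvd hq h3).trans hqR⟩, h3⟩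
      rw [div_lt_one hq']; exact_mod_cast hr
  rw [this, Finset.sum_image]
  intro a _ b _ hab
  have h := (div_left_inj' hq'.ne').1 hab
  exact_mod_cast h

theorem card_farey_den_eq (R q : ℕ) : ((farey R).filter fun s => s.den = q).card ≤ q := by
  rcases Nat.eq_zero_or_pos q with rfl | hq
  · rw [Nat.le_zero, Finset.card_eq_zero, Finset.filter_eq_empty_iff]
    intro s _
    exact s.pos.ne'
  · calc ((farey R).filter fun s => s.den = q).card
        ≤ ((range q).image fun r : ℕ => (r : ℚ) / (q : ℚ)).card := by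
          refine Finset.card_le_card fun s hs => ?_
          obtain ⟨hs1, hs2⟩ := mem_filter.1 hs
          obtain ⟨h0, h1, -⟩ := mem_farey.1 hs1
          obtain ⟨r, hr, hrs⟩ := eq_div_of_den_dvd h0 h1 hq (hs2 ▸ dvd_rfl)
          exact mem_image.2 ⟨r, mem_range.2 hr, hrs⟩
      _ ≤ (range q).card := Finset.card_image_le
      _ = q := Finset.card_range q

/-- Ramanujan sums at a large prime. -/
theorem ramanujan {R p : ℕ} (hp : p.Prime) (hR : R < p) : ∀ q : ℕ, 0 < q → q ≤ R →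
    ∑ s ∈ (farey R).filter (fun s => s.den = q), ex ((s : ℝ) * p) = (μ q : ℂ) := by
  intro q
  induction q using Nat.strong_induction_on with
  | _ q ih =>
    intro hq hqR
    have h1 : ∑ e ∈ q.divisors, ∑ s ∈ (farey R).filter (fun s => s.den = e), ex ((s : ℝ) * p) =
        if q = 1 then 1 else 0 := by
      have h2 : ∑ e ∈ q.divisors, ∑ s ∈ (farey R).filter (fun s => s.den = e), ex ((s : ℝ) * p) =
          ∑ s ∈ (farey R).filter (fun s => s.den ∣ q), ex ((s : ℝ) * p) := by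
        rw [← Finset.sum_fiberwise_of_maps_to (s := (farey R).filter (fun s => s.den ∣ q))
          (t := q.divisors) (g := fun s => s.den)
          (fun s hs => Nat.mem_divisors.2 ⟨(mem_filter.1 hs).2, hq.ne'⟩)]
        refine Finset.sum_congr rfl fun e he => Finset.sum_congr ?_ fun _ _ => rfl
        ext s
        simp only [mem_filter]
        constructor
        · rintro ⟨h3, h4⟩
          exact ⟨⟨h3, h4 ▸ Nat.dvd_of_mem_divisors he⟩, h4⟩
        · rintro ⟨⟨h3, -⟩, h4⟩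
          exact ⟨h3, h4⟩
      rw [h2, sum_farey_den_dvd hq hqR]
      have h3 := sum_ex q hq p
      have h4 : ∀ r : ℕ, ((((r : ℚ) / (q : ℚ) : ℚ) : ℝ) * p) = (r : ℝ) * ((p : ℤ) : ℝ) / q := by
        intro r
        push_cast
        ring
      simp only [h4, h3]
      by_cases h5 : q = 1
      · simp [h5]
      · rw [if_neg h5, if_neg]
        intro h6
        have h7 : q ∣ p := by exact_mod_cast h6
        rcases (Nat.dvd_prime hp).1 h7 with h8 | h8 <;> omega
    have h2 : ∑ e ∈ q.divisors, (μ e : ℂ) = if q = 1 then 1 else 0 := by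
      have h3 := congrArg (fun f : ArithmeticFunction ℤ => f q) moebius_mul_coe_zeta
      simp only [coe_mul_zeta_apply, one_apply] at h3
      exact_mod_cast h3
    rw [← h2, ← Nat.insert_self_properDivisors hq.ne', Finset.sum_insert Nat.self_notMem_properDivisors,
      Finset.sum_insert Nat.self_notMem_properDivisors] at h1
    have h3 : ∑ e ∈ q.properDivisors, ∑ s ∈ (farey R).filter (fun s => s.den = e),
        ex ((s : ℝ) * p) = ∑ e ∈ q.properDivisors, (μ e : ℂ) := by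
      refine Finset.sum_congr rfl fun e he => ?_
      have h4 := Nat.mem_properDivisors.1 he
      exact ih e h4.2 (Nat.pos_of_mem_properDivisors he) (by omega)
    rw [h3] at h1
    exact add_right_cancel h1

/-- The Selberg sum. -/
noncomputable def selL (R : ℕ) : ℝ := ∑ q ∈ Icc 1 R, ((μ q : ℤ) : ℝ) ^ 2 / q

theorem log_le_selL (R : ℕ) : Real.log (R + 1) ≤ 2 * selL R := by
  classical
  have h1 := log_add_one_le_harmonic R
  rw [harmonic_eq_sum_Icc] at h1
  push_cast at h1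
  refine h1.trans ?_
  have hex : ∀ n : ℕ, ∃ ab : ℕ × ℕ, 0 < n → 0 < ab.1 ∧ 0 < ab.2 ∧ ab.2 ^ 2 * ab.1 = n ∧
      Squarefree ab.1 := by
    intro n
    rcases Nat.eq_zero_or_pos n with rfl | hn
    · exact ⟨(0, 0), fun h => absurd h (lt_irrefl _)⟩
    · obtain ⟨a, b, h⟩ := Nat.sq_mul_squarefree_of_pos hn
      exact ⟨(a, b), fun _ => h⟩
  choose f hf using hex
  let g : ℕ × ℕ → ℝ := fun ab => ((μ ab.1 : ℤ) : ℝ) ^ 2 / ab.1 * ((ab.2 : ℝ) ^ 2)⁻¹
  have hg : ∀ ab, 0 ≤ g ab := fun ab => by positivity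
  have h2 : ∑ n ∈ Icc 1 R, (n : ℝ)⁻¹ = ∑ n ∈ Icc 1 R, g (f n) := by
    refine Finset.sum_congr rfl fun n hn => ?_
    obtain ⟨ha, hb, hab, hsq⟩ := hf n (mem_Icc.1 hn).1
    have h3 : ((μ (f n).1 : ℤ) : ℝ) ^ 2 = 1 := by exact_mod_cast moebius_sq_eq_one_of_squarefree hsq
    have h4 : (n : ℝ) = ((f n).2 : ℝ) ^ 2 * (f n).1 := by exact_mod_cast hab.symm
    simp only [g, h3]
    rw [h4]
    field_simp
  have h3 : ∑ n ∈ Icc 1 R, g (f n) ≤ ∑ ab ∈ Icc 1 R ×ˢ Icc 1 R, g ab := by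
    rw [← Finset.sum_image (f := g) (g := f) (s := Icc 1 R)]
    · refine Finset.sum_le_sum_of_subset_of_nonneg ?_ fun ab _ _ => hg ab
      intro ab hab
      obtain ⟨n, hn, rfl⟩ := mem_image.1 hab
      obtain ⟨hn1, hn2⟩ := mem_Icc.1 hn
      obtain ⟨ha, hb, hab, -⟩ := hf n hn1
      simp only [mem_product, mem_Icc]
      refine ⟨⟨ha, ?_⟩, hb, ?_⟩ <;> nlinarith [Nat.one_le_pow 2 _ hb]
    · intro n hn n' hn' h
      have h4 := (hf n (mem_Icc.1 (mem_coe.1 hn)).1).2.2.1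
      have h5 := (hf n' (mem_Icc.1 (mem_coe.1 hn')).1).2.2.1
      rw [← h4, ← h5, h]
  rw [h2]
  refine h3.trans ?_
  rw [Finset.sum_product]
  simp only [g]
  rw [← Finset.sum_mul_sum, mul_comm]
  refine mul_le_mul_of_nonneg_right ?_ (Finset.sum_nonneg fun q _ => by positivity)
  have h4 := sum_Ioo_inv_sq_le (α := ℝ) 0 (R + 1)
  have h5 : Ioo 0 (R + 1) = Icc 1 R := by ext n; simp; omega
  rw [h5] at h4
  simpa using h4

end Pool.Agent.P.MP_d565f2_an
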