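import Pool.Agent.P.MP_d565f2_an.Levels
import Pool.Agent.P.MP_d565f2_an.Analytic

set_option autoImplicit false

open Finset Module

namespace Pool.Agent.P.MP_d565f2_an

variable {ι : Type*} [Fintype ι] [DecidableEq ι]

open Classical in
/-- The normal vectors removed at the first step. -/
noncomputable def firstNormals (ι : Type*) [Fintype ι] [DecidableEq ι] (X Y : ℕ) :
    Finset (ι → ℤ) :=
  (box ι Y).filter fun u => u ≠ 0 ∧ (u ∈ box ι X ∨ ∃ i j, ∀ l, l ≠ i → l ≠ j → u l = 0)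

theorem card_firstNormals (X Y : ℕ) : (firstNormals ι X Y).card ≤
    (2 * X + 1) ^ Fintype.card ι + Fintype.card ι ^ 2 * (2 * Y + 1) ^ 2 := by
  classical
  have h1 : firstNormals ι X Y ⊆ box ι X ∪ (univ : Finset (ι × ι)).biUnion fun ij =>
      (box ι Y).filter fun u => ∀ l, l ≠ ij.1 → l ≠ ij.2 → u l = 0 := by
    intro u hu
    obtain ⟨h2, -, h3 | ⟨i, j, h3⟩⟩ := mem_filter.1 hu
    · exact mem_union_left _ h3
    · exact mem_union_right _ (mem_biUnion.2 ⟨(i, j), mem_univ _, mem_filter.2 ⟨h2, h3⟩⟩)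
  refine (card_le_card h1).trans ((card_union_le _ _).trans ?_)
  rw [card_box]
  refine Nat.add_le_add_left ?_ _
  refine (card_biUnion_le_card_mul _ _ ((2 * Y + 1) ^ 2) fun ij _ => ?_).trans ?_
  · have h2 := card_box (ι := Fin 2) Y
    rw [Fintype.card_fin] at h2
    rw [← h2]
    refine Finset.card_le_card_of_injOn (fun u => ![u ij.1, u ij.2]) (fun u hu => ?_) ?_
    · have h3 := mem_box.1 (mem_filter.1 (mem_coe.1 hu)).1
      refine mem_coe.2 (mem_box.2 fun i => ?_)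
      fin_cases i
      · exact h3 _
      · exact h3 _
    · intro u hu u' hu' h
      have h3 := (mem_filter.1 (mem_coe.1 hu)).2
      have h4 := (mem_filter.1 (mem_coe.1 hu')).2
      have h5 : u ij.1 = u' ij.1 := congrFun h 0
      have h6 : u ij.2 = u' ij.2 := congrFun h 1
      funext l
      by_cases hl : l = ij.1
      · rw [hl, h5]
      by_cases hl' : l = ij.2
      · rw [hl', h6]
      rw [h3 l hl hl', h4 l hl hl']
  · rw [card_univ, Fintype.card_prod, sq (Fintype.card ι)]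

theorem hyp0_of_firstNormals {x : ι → ℤ} {e w : ℕ}
    (hb : ∀ i, |x i| ≤ w * (w ^ (26 * (e + 2))) ^ (e + 1))
    (hXY : Fintype.card ι * w ^ (26 * e) ≤ w ^ 2 * (w ^ (26 * (e + 2))) ^ 2)
    (h : ∀ u ∈ firstNormals ι (Fintype.card ι * w ^ (26 * e))
      (w ^ 2 * (w ^ (26 * (e + 2))) ^ 2), u ⬝ᵥ x ≠ 0) : Hyp0 x e w := by
  classical
  refine ⟨hb, fun v hv0 hv => ?_, fun i j hij a b ha0 ha hb' => ?_⟩
  · rw [dotProduct_comm]
    have hv' : ∀ i, |v i| ≤ ((Fintype.card ι * w ^ (26 * e) : ℕ) : ℤ) := fun i => by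
      have := hv i
      push_cast at this ⊢
      exact this
    refine h v (mem_filter.2 ⟨mem_box.2 fun i => (hv' i).trans ?_, hv0, Or.inl (mem_box.2 hv')⟩)
    exact_mod_cast hXY
  · have h1 := h (Pi.single i b - Pi.single j a) (mem_filter.2 ⟨mem_box.2 fun l => ?_,
      fun h0 => ha0 ?_, Or.inr ⟨i, j, fun l hi hj => ?_⟩⟩)
    · rw [sub_dotProduct, single_dotProduct, single_dotProduct] at h1
      rwa [mul_comm (x i), mul_comm (x j)]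
    · by_cases hl : l = i
      · subst hl
        simpa [Pi.single_eq_of_ne hij] using hb'
      by_cases hl' : l = j
      · subst hl'
        simpa [Pi.single_eq_of_ne hl] using ha
      simp only [Pi.sub_apply, Pi.single_eq_of_ne hl, Pi.single_eq_of_ne hl', sub_zero, abs_zero]
      positivity
    · have := congrFun h0 j
      simpa [Pi.single_eq_of_ne hij.symm] using this
    · simp [Pi.single_eq_of_ne hi, Pi.single_eq_of_ne hj]

theorem enough_primes {w P B n T : ℕ} {C R : ℝ} (hP : 10 ^ 10 ≤ P) (hn0 : n ≠ 0) (hn : n ≤ P ^ 3)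
    (hw : 2 ≤ w) (hB : 4 * P ≤ w ^ B) (hT : (T : ℝ) * Real.log w ≤ C * R) (hR : (w : ℝ) ≤ R)
    (hK : (2 * B * C + 3 * B) * R < P) :
    2 * T < (((Ioc P (4 * P)).filter Nat.Prime).filter fun p => ¬ p ∣ n).card := by
  have h1 := primes_lower P hP
  have h2 := card_primes_dvd_le P n (by omega) hn0 hn
  have h3 := Finset.card_filter_add_card_filter_not (s := (Ioc P (4 * P)).filter Nat.Prime)
    (fun p => p ∣ n)
  have hw' : (2 : ℝ) ≤ w := by exact_mod_cast hw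
  have hP' : (10 : ℝ) ^ 10 ≤ P := by exact_mod_cast hP
  have h4 : Real.log (4 * P) ≤ B * Real.log w := by
    rw [← Real.log_pow]
    exact Real.log_le_log (by positivity) (by exact_mod_cast hB)
  have h5 : Real.log w ≤ R := by
    have := Real.log_le_sub_one_of_pos (x := w) (by linarith)
    linarith
  have h6 : 0 ≤ Real.log (4 * P) := Real.log_nonneg (by linarith)
  by_contra hcon
  have h7 : (((Ioc P (4 * P)).filter Nat.Prime).card : ℝ) ≤ 2 * T + 3 := by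
    exact_mod_cast (by omega : ((Ioc P (4 * P)).filter Nat.Prime).card ≤ 2 * T + 3)
  have h8 : (P : ℝ) ≤ (2 * T + 3) * (B * Real.log w) :=
    h1.trans (mul_le_mul h7 h4 h6 (by positivity))
  have h9 : (0 : ℝ) ≤ B := by positivity
  have h10 := mul_le_mul_of_nonneg_left hT h9
  have h11 := mul_le_mul_of_nonneg_left h5 h9
  nlinarith

theorem core {e : ℕ} (he : Fintype.card ι = e + 2) (he7 : 7 ≤ e) :
    ∃ w₀ K : ℕ, ∀ w : ℕ, w₀ ≤ w → ∀ n : ℕ, n ≠ 0 → n ≤ ((w ^ (26 * (e + 2))) ^ (e + 1)) ^ 2 →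
      ∀ Z ⊆ sph ι n, Z.Nonempty → ¬ Rel Z (K * (w ^ (26 * (e + 2))) ^ e) := by
  classical
  obtain ⟨C₀, hC₀, hl0⟩ := level0 he he7
  obtain ⟨w₁, hw₁⟩ := divisor_bound (5 + 26 * (e + 2) * (e + 4))
  set B : ℕ := 26 * (e + 2) * e + 1 with hB
  set C : ℝ := C₀ + 3 ^ e * 5 ^ 8 with hC
  obtain ⟨K₀, hK₀⟩ := exists_nat_gt (2 * B * C + 3 * B)
  obtain ⟨K, hK, hK'⟩ : ∃ K : ℕ, K₀ ≤ K ∧ 10 ^ 10 ≤ K := ⟨K₀ + 10 ^ 10, by omega, by omega⟩
  refine ⟨w₁ + 4 * K + 12 * (e + 2), 8 * (e + 2) * K + e * 3 ^ e + 2 * 5 ^ 5 +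
    ((3 * (e + 2)) ^ (e + 2) + (e + 2) ^ 2 * 9), fun w hw n hn0 hn Z hZ hne hrel => ?_⟩
  have hw4 : 4 * K ≤ w := le_trans ((Nat.le_add_left _ _).trans (Nat.le_add_right _ _)) hw
  set ρ := w ^ (26 * (e + 2)) with hρ
  have hw2 : 3 ≤ w := by omega
  have hwρ : w ≤ ρ := Nat.le_self_pow (by omega) _
  have hρ1 : 1 ≤ ρ := by omega
  have hρe : ρ ≤ ρ ^ e := Nat.le_self_pow (by omega) _
  set P := K * ρ ^ e with hP
  have hP1 : 10 ^ 10 ≤ P := by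
    calc 10 ^ 10 ≤ K * 1 := by omega
      _ ≤ P := by rw [hP]; gcongr; omega
  have hwP : w ≤ P := by
    calc w ≤ 1 * ρ ^ e := by omega
      _ ≤ P := by rw [hP]; gcongr; omega
  have hn3 : n ≤ P ^ 3 := by
    calc n ≤ (ρ ^ (e + 1)) ^ 2 := hn
      _ = 1 ^ 3 * ρ ^ (2 * e + 2) := by ring
      _ ≤ K ^ 3 * ρ ^ (3 * e) := by
        gcongr
        · omega
        · omega
      _ = P ^ 3 := by rw [hP]; ring
  have hn4 : ∀ p : ℕ, P < p → 4 * (n : ℤ) ≤ (p : ℤ) ^ 2 * (ρ : ℤ) ^ 2 := by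
    intro p hp
    have : 4 * n ≤ p ^ 2 * ρ ^ 2 := by
      calc 4 * n ≤ 4 * (ρ ^ (e + 1)) ^ 2 := by omega
        _ = (2 * ρ ^ e) ^ 2 * ρ ^ 2 := by ring
        _ ≤ (K * ρ ^ e) ^ 2 * ρ ^ 2 := by gcongr; omega
        _ ≤ p ^ 2 * ρ ^ 2 := by gcongr
    exact_mod_cast this
  have hτ : ∀ t : ℕ, t ≤ w ^ 5 * ρ ^ (e + 4) → t.divisors.card ≤ w := fun t ht =>
    hw₁ w (by omega) t (by rw [pow_add w 5, pow_mul w (26 * (e + 2))]; exact ht)
  have h4P : 4 * P ≤ w ^ B := by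
    calc 4 * P = ρ ^ e * (4 * K) := by rw [hP]; ring
      _ ≤ ρ ^ e * w := Nat.mul_le_mul_left _ hw4
      _ = w ^ B := by rw [hB, pow_succ w (26 * (e + 2) * e), pow_mul w (26 * (e + 2))]
  have hS : ∀ x ∈ Z, x ⬝ᵥ x = n := fun x hx => mem_sph.1 (hZ hx)
  have hbd : ∀ x ∈ Z, ∀ i, |x i| ≤ w * (w ^ (26 * (e + 2))) ^ (e + 1) := by
    intro x hx i
    have h1 : x ⬝ᵥ x ≤ ((ρ ^ (e + 1) : ℕ) : ℤ) ^ 2 := by rw [hS x hx]; exact_mod_cast hn
    have h2 := mem_box.1 (mem_box_of_dot h1) i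
    refine h2.trans ?_
    have h3 : ρ ^ (e + 1) ≤ w * ρ ^ (e + 1) := Nat.le_mul_of_pos_left _ (by omega)
    have h4 : ((ρ ^ (e + 1) : ℕ) : ℤ) ≤ ((w * ρ ^ (e + 1) : ℕ) : ℤ) := by exact_mod_cast h3
    refine h4.trans (le_of_eq ?_)
    rw [hρ]
    push_cast
    rfl
  set PP := ((Ioc P (4 * P)).filter Nat.Prime).filter fun p => ¬ p ∣ n with hPP
  have hPP1 : ∀ p ∈ PP, p.Prime ∧ P < p ∧ p ≤ 4 * P ∧ ¬ p ∣ n := by
    intro p hp
    obtain ⟨h1, h2⟩ := mem_filter.1 hp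
    obtain ⟨h3, h4⟩ := mem_filter.1 h1
    exact ⟨h4, (mem_Ioc.1 h3).1, (mem_Ioc.1 h3).2, h2⟩
  have hPP2 : ∀ T : ℕ, (T : ℝ) * Real.log w ≤ C * ((ρ : ℕ) : ℝ) ^ e → 2 * T < PP.card := by
    intro T hT
    refine enough_primes hP1 hn0 hn3 (by omega) h4P hT (by exact_mod_cast hwρ.trans hρe) ?_
    have h1 : (0 : ℝ) < ((ρ : ℕ) : ℝ) ^ e := by positivity
    have h2 : (K₀ : ℝ) ≤ K := by exact_mod_cast (by omega : K₀ ≤ K)
    rw [hP]
    push_cast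
    exact mul_lt_mul_of_pos_right (hK₀.trans_le h2) h1
  have hCρ : ∀ C' : ℝ, C' ≤ C → C' * ((ρ : ℕ) : ℝ) ^ e ≤ C * ((ρ : ℕ) : ℝ) ^ e := fun C' h =>
    mul_le_mul_of_nonneg_right h (by positivity)
  have hXY : Fintype.card ι * w ^ (26 * e) ≤ w ^ 2 * ρ ^ 2 := by
    rw [he]
    refine Nat.mul_le_mul (le_trans (by omega) (Nat.le_self_pow two_ne_zero w)) ?_
    exact (Nat.pow_le_pow_right (by omega) (by omega)).trans (Nat.le_self_pow two_ne_zero ρ)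
  have hF0 : (firstNormals ι (Fintype.card ι * w ^ (26 * e)) (w ^ 2 * ρ ^ 2)).card ≤
      ((3 * (e + 2)) ^ (e + 2) + (e + 2) ^ 2 * 9) * ρ ^ e := by
    refine (card_firstNormals _ _).trans ?_
    rw [he]
    have a1 : 1 ≤ (e + 2) * w ^ (26 * e) := Nat.mul_pos (by omega) (by positivity)
    have a2 : 1 ≤ w ^ 2 * ρ ^ 2 := by
      have : 0 < w ^ 2 * ρ ^ 2 := by positivity
      omega
    have a3 : w ^ 4 ≤ ρ := Nat.pow_le_pow_right (by omega) (by omega)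
    calc (2 * ((e + 2) * w ^ (26 * e)) + 1) ^ (e + 2) + (e + 2) ^ 2 * (2 * (w ^ 2 * ρ ^ 2) + 1) ^ 2
        ≤ (3 * ((e + 2) * w ^ (26 * e))) ^ (e + 2) + (e + 2) ^ 2 * (3 * (w ^ 2 * ρ ^ 2)) ^ 2 := by
          gcongr <;> omega
      _ = (3 * (e + 2)) ^ (e + 2) * ρ ^ e + (e + 2) ^ 2 * 9 * (w ^ 4 * ρ ^ 4) := by
          rw [← mul_assoc 3, mul_pow, hρ, ← pow_mul w (26 * e), ← pow_mul w _ e,
            show 26 * e * (e + 2) = 26 * (e + 2) * e by ring]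
          ring
      _ ≤ (3 * (e + 2)) ^ (e + 2) * ρ ^ e + (e + 2) ^ 2 * 9 * ρ ^ e := by
          gcongr
          calc w ^ 4 * ρ ^ 4 ≤ ρ * ρ ^ 4 := by gcongr
            _ = ρ ^ 5 := by ring
            _ ≤ ρ ^ e := Nat.pow_le_pow_right hρ1 (by omega)
      _ = _ := by ring
  obtain ⟨Z₁, hZ₁, hne₁, hrel₁, hcase⟩ := Rel.kill
    (firstNormals ι (Fintype.card ι * w ^ (26 * e)) (w ^ 2 * ρ ^ 2)) (fun u => u) (fun _ => 0)
    (k := (8 * (e + 2) * K + e * 3 ^ e + 2 * 5 ^ 5) * ρ ^ e) hne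
    (hrel.mono ((Nat.add_le_add_left hF0 _).trans (le_of_eq (by ring))))
  have hdeg : 2 * (Fintype.card ι * (4 * P)) = 8 * (e + 2) * K * ρ ^ e := by rw [he, hP]; ring
  rcases hcase with hout | ⟨u, hu, hin⟩
  · refine Rel.false_of_average hne₁ PP (4 * P) (fun p hp => ⟨(hPP1 p hp).1, (hPP1 p hp).2.2.1⟩)
      (hrel₁.mono (by rw [hdeg]; gcongr; omega)) fun x hx => ?_
    have h1 := hl0 x w (hyp0_of_firstNormals (hbd x (hZ₁ hx)) hXY (hout x hx)) (by omega) hτ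
    refine lt_of_le_of_lt (Nat.mul_le_mul_left 2 ?_)
      (hPP2 _ (h1.trans (hCρ _ (by rw [hC]; linarith [(by positivity : (0 : ℝ) ≤ 3 ^ e * 5 ^ 8)]))))
    convert card_mates_le Z₁ (fun x hx => hS x (hZ₁ hx)) PP
      (fun p hp => ⟨(hPP1 p hp).1.pos, hn4 p (hPP1 p hp).2.1⟩) hx _
      fun p hp y _ z hz0 _ hz2 hz3 => ?_
    refine mem_filter.2 ⟨mem_box_of_dot hz2, hz0, hz2, p, (hPP1 p hp).1,
      hwP.trans_lt (hPP1 p hp).2.1, ?_, hz3⟩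
    rw [hS x (hZ₁ hx)]
    exact_mod_cast (hPP1 p hp).2.2.2
  obtain ⟨hub, hu0, -⟩ := mem_filter.1 hu
  obtain ⟨i₀, hi₀⟩ := Function.ne_iff.1 hu0
  obtain ⟨E, hE⟩ := exists_split he he7 i₀
  set F₁ : Finset ((Fin 5 → ℤ) ⊕ (Fin 4 → ℤ)) :=
    ((box (Fin 5) (2 * ρ)).filter fun v => v ≠ 0 ∧
      (fun i => u (E (.inr (.inl i)))) ⬝ᵥ v = 0).disjSum
      ((box (Fin 4) (2 * ρ)).filter fun v => v ≠ 0) with hF₁
  have hF1 : F₁.card ≤ 2 * 5 ^ 5 * ρ ^ e := by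
    rw [hF₁, card_disjSum]
    refine (Nat.add_le_add (card_filter_le _ _) (card_filter_le _ _)).trans ?_
    rw [card_box, card_box, Fintype.card_fin, Fintype.card_fin]
    have a1 : (2 * (2 * ρ) + 1) ^ 4 ≤ (2 * (2 * ρ) + 1) ^ 5 :=
      Nat.pow_le_pow_right (by omega) (by omega)
    have a2 : (2 * (2 * ρ) + 1) ^ 5 ≤ 5 ^ 5 * ρ ^ e := by
      calc (2 * (2 * ρ) + 1) ^ 5 ≤ (5 * ρ) ^ 5 := by gcongr; omega
        _ = 5 ^ 5 * ρ ^ 5 := by ring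
        _ ≤ _ := by gcongr; omega
    omega
  obtain ⟨Z₂, hZ₂, hne₂, hrel₂, hcase⟩ := Rel.kill F₁ (ext59 E) (fun _ => 0)
    (k := (8 * (e + 2) * K + e * 3 ^ e) * ρ ^ e) hne₁
    (hrel₁.mono ((Nat.add_le_add_left hF1 _).trans (le_of_eq (by ring))))
  have hS₂ : ∀ x ∈ Z₂, x ⬝ᵥ x = n := fun x hx => hS x (hZ₁ (hZ₂ hx))
  rcases hcase with hout | ⟨v, hv, hin₂⟩
  · refine Rel.false_of_average hne₂ PP (4 * P) (fun p hp => ⟨(hPP1 p hp).1, (hPP1 p hp).2.2.1⟩)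
      (hrel₂.mono (by rw [hdeg]; gcongr; omega)) fun x hx => ?_
    have h1 := level1 he7 E w hw2 x u (by rw [hE]; exact hi₀) (mem_box.1 hub)
      (hbd x (hZ₁ (hZ₂ hx))) hτ
      (fun v hv hv0 hv1 => hout x hx _ (inl_mem_disjSum.2 (mem_filter.2 ⟨hv, hv0, hv1⟩)))
      (fun v hv hv0 => hout x hx _ (inr_mem_disjSum.2 (mem_filter.2 ⟨hv, hv0⟩)))
    refine lt_of_le_of_lt (Nat.mul_le_mul_left 2 ?_)
      (hPP2 _ (h1.trans (hCρ _ (by rw [hC]; linarith))))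
    convert card_mates_le Z₂ hS₂ PP
      (fun p hp => ⟨(hPP1 p hp).1.pos, hn4 p (hPP1 p hp).2.1⟩) hx _
      fun p hp y hy z hz0 hz1 hz2 hz3 => ?_
    refine mem_filter.2 ⟨mem_box_of_dot hz2, hz0, hz2, ?_, ⟨p, by rw [hz3, mul_comm]⟩⟩
    have h2 : u ⬝ᵥ (x - y) = 0 := by
      rw [dotProduct_sub, hin x (hZ₂ hx), hin y (hZ₂ hy), sub_zero]
    rw [hz1, dotProduct_smul, smul_eq_mul] at h2
    exact (mul_eq_zero.1 h2).resolve_left (by exact_mod_cast (hPP1 p hp).1.ne_zero)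
  obtain ⟨p, hp, hp1, hp2⟩ := Nat.exists_prime_lt_and_le_two_mul P (by omega)
  have hrel₃ : Rel Z₂ (2 * (Fintype.card ι * (p - 1)) + e * (2 * ρ + 1) ^ e) := by
    refine hrel₂.mono ?_
    rw [add_mul, ← hdeg, mul_assoc e, ← mul_pow]
    gcongr <;> omega
  rcases v with v | v
  · obtain ⟨-, hv0, hv1⟩ := mem_filter.1 (inl_mem_disjSum.1 hv)
    refine level2 he hp (hn4 p hp1) u (ext59 E (.inl v)) (ext59 E (.inl v)) hu0 ?_ ?_ Z₂ hne₂ hS₂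
      (fun x hx => hin x (hZ₂ hx)) hin₂ hrel₃
    · rw [dotProduct_comm, dot_ext_inl, hv1]
    · rw [dot_ext_inl]
      simpa [ext59] using (dot_self_pos hv0).ne'
  · obtain ⟨-, hv0⟩ := mem_filter.1 (inr_mem_disjSum.1 hv)
    refine level2 he hp (hn4 p hp1) (ext59 E (.inr v)) u (ext59 E (.inl (Pi.single 0 1))) ?_ ?_ ?_
      Z₂ hne₂ hS₂ hin₂ (fun x hx => hin x (hZ₂ hx)) hrel₃
    · intro h0
      refine hv0 (funext fun i => ?_)
      simpa [ext59] using congrFun h0 (E (.inr (.inr i)))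
    · rw [dot_ext_inr]
      simp [ext59, dotProduct]
    · rw [dotProduct_comm, dot_ext_inl, dotProduct_single, mul_one, hE]
      exact hi₀

theorem sharp_bound (d : ℕ) (hd : 9 ≤ d) : ∃ C : ℝ, 0 < C ∧ ∀ n : ℕ, 1 ≤ n → ∃ K : ℕ,
    (∀ Z ⊆ sph (Fin d) n, Z.Nonempty → ¬ Rel Z K) ∧
      (K : ℝ) ≤ C * (n : ℝ) ^ (((d : ℝ) - 2) / (2 * ((d : ℝ) - 1))) := by
  obtain ⟨e, rfl⟩ : ∃ e, d = e + 2 := ⟨d - 2, by omega⟩
  obtain ⟨w₀, K, h⟩ := core (ι := Fin (e + 2)) (e := e) (Fintype.card_fin _) (by omega)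
  refine ⟨(K : ℝ) * (w₀ + 2) ^ (26 * (e + 2) * e) + 1, by positivity, fun n hn => ?_⟩
  set t : ℝ := (n : ℝ) ^ ((1 : ℝ) / (26 * ((e : ℝ) + 2) * (e + 1) * 2)) with ht
  have hn' : (1 : ℝ) ≤ n := by exact_mod_cast hn
  have ht1 : 1 ≤ t := Real.one_le_rpow hn' (by positivity)
  have hr1 : t ≤ ((⌈t⌉₊ + w₀ : ℕ) : ℝ) := by
    have := Nat.le_ceil t
    push_cast
    linarith [(by positivity : (0 : ℝ) ≤ w₀)]
  have hr2 : ((⌈t⌉₊ + w₀ : ℕ) : ℝ) ≤ (w₀ + 2) * t := by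
    have := Nat.ceil_lt_add_one (show 0 ≤ t by linarith)
    push_cast
    nlinarith [(by positivity : (0 : ℝ) ≤ w₀)]
  have htp : t ^ (26 * (e + 2) * (e + 1) * 2) = n := by
    rw [ht, ← Real.rpow_natCast, ← Real.rpow_mul (by positivity)]
    push_cast
    rw [one_div_mul_cancel (by positivity), Real.rpow_one]
  have hnr : n ≤ (((⌈t⌉₊ + w₀) ^ (26 * (e + 2))) ^ (e + 1)) ^ 2 := by
    rw [← pow_mul, ← pow_mul, ← mul_assoc]
    have : (n : ℝ) ≤ ((⌈t⌉₊ + w₀ : ℕ) : ℝ) ^ (26 * (e + 2) * (e + 1) * 2) := by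
      rw [← htp]
      gcongr
    exact_mod_cast this
  refine ⟨_, h (⌈t⌉₊ + w₀) (by omega) n (by omega) hnr, ?_⟩
  have htd : t ^ (26 * (e + 2) * e) =
      (n : ℝ) ^ ((((e + 2 : ℕ) : ℝ) - 2) / (2 * (((e + 2 : ℕ) : ℝ) - 1))) := by
    rw [ht, ← Real.rpow_natCast, ← Real.rpow_mul (by positivity)]
    congr 1
    push_cast
    rw [show (e : ℝ) + 2 - 1 = e + 1 by ring]
    field_simp
    ring
  rw [← htd, ← pow_mul, Nat.cast_mul, Nat.cast_pow]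
  have h0 : 0 ≤ t ^ (26 * (e + 2) * e) := by positivity
  calc (K : ℝ) * ((⌈t⌉₊ + w₀ : ℕ) : ℝ) ^ (26 * (e + 2) * e)
      ≤ K * ((w₀ + 2) * t) ^ (26 * (e + 2) * e) := by gcongr
    _ = K * (w₀ + 2) ^ (26 * (e + 2) * e) * t ^ (26 * (e + 2) * e) := by rw [mul_pow]; ring
    _ ≤ _ := by nlinarith

end Pool.Agent.P.MP_d565f2_an
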