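import Mathlib

set_option autoImplicit false

open MvPolynomial Finset

namespace Pool.Agent.P.MP_d565f2_an

variable {ι : Type*}

/-- `Rel Z k`: there is a weight `c`, nowhere zero on `Z`, orthogonal to all integer
polynomials of total degree at most `k`. -/
def Rel (Z : Finset (ι → ℤ)) (k : ℕ) : Prop :=
  ∃ c : (ι → ℤ) → ℂ, (∀ x ∈ Z, c x ≠ 0) ∧
    ∀ f : MvPolynomial ι ℤ, f.totalDegree ≤ k → ∑ x ∈ Z, c x * ((eval x f : ℤ) : ℂ) = 0

theorem Rel.mono {Z : Finset (ι → ℤ)} {k k' : ℕ} (h : Rel Z k) (hk : k' ≤ k) : Rel Z k' := by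
  obtain ⟨c, hc, hf⟩ := h
  exact ⟨c, hc, fun f hf' => hf f (hf'.trans hk)⟩

theorem Rel.filter {Z : Finset (ι → ℤ)} {k a : ℕ} (h : Rel Z (k + a)) (g : MvPolynomial ι ℤ)
    (hg : g.totalDegree ≤ a) : Rel (Z.filter fun x => eval x g ≠ 0) k := by
  classical
  obtain ⟨c, hc, hf⟩ := h
  refine ⟨fun x => c x * ((eval x g : ℤ) : ℂ), ?_, ?_⟩
  · intro x hx
    rw [mem_filter] at hx
    exact mul_ne_zero (hc x hx.1) (by exact_mod_cast hx.2)
  · intro f hf'
    have h1 := hf (f * g) ((totalDegree_mul f g).trans (by omega))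
    rw [← h1, sum_filter]
    refine sum_congr rfl fun x _ => ?_
    split_ifs with h2
    · simp only [map_mul]; push_cast; ring
    · push Not at h2
      simp [h2]

variable [Fintype ι]

/-- The affine form `x ↦ u ⬝ x - t` as a polynomial. -/
noncomputable def aff (u : ι → ℤ) (t : ℤ) : MvPolynomial ι ℤ := (∑ i, C (u i) * X i) - C t

theorem eval_aff (u : ι → ℤ) (t : ℤ) (x : ι → ℤ) : eval x (aff u t) = u ⬝ᵥ x - t := by
  simp [aff, dotProduct]

theorem totalDegree_aff (u : ι → ℤ) (t : ℤ) : (aff u t).totalDegree ≤ 1 := by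
  classical
  unfold aff
  refine (totalDegree_sub _ _).trans (max_le ?_ (by rw [totalDegree_C]; omega))
  refine (totalDegree_finsetSum _ _).trans (Finset.sup_le fun i _ => ?_)
  refine (totalDegree_mul _ _).trans ?_
  rw [totalDegree_C, totalDegree_X]

/-- Killing a finite family of hyperplanes. -/
theorem Rel.kill {κ : Type*} (F : Finset κ) (u : κ → ι → ℤ) (t : κ → ℤ) :
    ∀ {Z : Finset (ι → ℤ)} {k : ℕ}, Z.Nonempty → Rel Z (k + F.card) →
      ∃ Z' ⊆ Z, Z'.Nonempty ∧ Rel Z' k ∧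
        ((∀ x ∈ Z', ∀ j ∈ F, u j ⬝ᵥ x ≠ t j) ∨ ∃ j ∈ F, ∀ x ∈ Z', u j ⬝ᵥ x = t j) := by
  classical
  induction F using Finset.induction_on with
  | empty =>
    intro Z k hZ h
    exact ⟨Z, subset_rfl, hZ, by simpa using h, Or.inl (by simp)⟩
  | insert j F hj ih =>
    intro Z k hZ h
    rw [card_insert_of_notMem hj, ← add_assoc] at h
    by_cases hall : ∀ x ∈ Z, u j ⬝ᵥ x = t j
    · exact ⟨Z, subset_rfl, hZ, h.mono (by omega), Or.inr ⟨j, mem_insert_self _ _, hall⟩⟩
    · push Not at hall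
      obtain ⟨x, hx, hx'⟩ := hall
      have h1 := h.filter (aff (u j) (t j)) (totalDegree_aff _ _)
      have hne : (Z.filter fun x => eval x (aff (u j) (t j)) ≠ 0).Nonempty :=
        ⟨x, mem_filter.2 ⟨hx, by rw [eval_aff]; exact sub_ne_zero.2 hx'⟩⟩
      obtain ⟨Z', hZ', hne', hrel, hor⟩ := ih hne h1
      refine ⟨Z', hZ'.trans (filter_subset _ _), hne', hrel, ?_⟩
      rcases hor with hor | ⟨j', hj', hor⟩
      · left
        intro y hy j' hj'
        rcases mem_insert.1 hj' with rfl | hj'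
        · have := (mem_filter.1 (hZ' hy)).2
          rw [eval_aff] at this
          exact sub_ne_zero.1 this
        · exact hor y hy j' hj'
      · exact Or.inr ⟨j', mem_insert_of_mem hj', hor⟩

/-- The polynomial that is the indicator of the class of `a` modulo the prime `p`. -/
noncomputable def ind (p : ℕ) (a : ι → ℤ) : MvPolynomial ι ℤ :=
  ∏ i, (1 - (X i - C (a i)) ^ (p - 1))

theorem totalDegree_ind (p : ℕ) (a : ι → ℤ) :
    (ind p a).totalDegree ≤ Fintype.card ι * (p - 1) := by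
  classical
  unfold ind
  refine (totalDegree_finsetProd _ _).trans ?_
  rw [← Finset.card_univ, ← smul_eq_mul, ← Finset.sum_const]
  refine Finset.sum_le_sum fun i _ => ?_
  refine (totalDegree_sub _ _).trans (max_le (by simp) ?_)
  refine (totalDegree_pow _ _).trans ?_
  have : (X i - C (a i) : MvPolynomial ι ℤ).totalDegree ≤ 1 := by
    refine (totalDegree_sub _ _).trans (max_le ?_ (by rw [totalDegree_C]; omega))
    rw [totalDegree_X]
  calc (p - 1) * (X i - C (a i) : MvPolynomial ι ℤ).totalDegree ≤ (p - 1) * 1 :=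
        Nat.mul_le_mul_left _ this
    _ = p - 1 := by ring

theorem eval_ind_self {p : ℕ} (hp : p.Prime) (a : ι → ℤ) : eval a (ind p a) = 1 := by
  have : p - 1 ≠ 0 := by have := hp.two_le; omega
  simp [ind, this]

theorem eval_ind_ne {p : ℕ} (hp : p.Prime) {a b : ι → ℤ} (h : ∃ i, ¬ (p : ℤ) ∣ a i - b i) :
    ((eval b (ind p a) : ℤ) : ZMod p) = 0 := by
  classical
  have := Fact.mk hp
  obtain ⟨i, hi⟩ := h
  simp only [ind, map_prod, map_sub, map_one, map_pow, eval_X, eval_C]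
  push_cast
  refine Finset.prod_eq_zero (mem_univ i) ?_
  have h1 : ((b i : ZMod p) - (a i : ZMod p)) ≠ 0 := by
    intro h0
    apply hi
    rw [← ZMod.intCast_zmod_eq_zero_iff_dvd]
    push_cast
    linear_combination -h0
  rw [ZMod.pow_card_sub_one_eq_one h1, sub_self]

/-- Points that are pairwise incongruent modulo a prime make up at most half of `Z`. -/
theorem Rel.two_mul_card_le {Z A : Finset (ι → ℤ)} {p : ℕ} (hp : p.Prime)
    (h : Rel Z (2 * (Fintype.card ι * (p - 1)))) (hA : A ⊆ Z)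
    (hinc : ∀ a ∈ A, ∀ b ∈ A, a ≠ b → ∃ i, ¬ (p : ℤ) ∣ a i - b i) :
    2 * A.card ≤ Z.card := by
  classical
  have := Fact.mk hp
  obtain ⟨c, hc, hf⟩ := h
  let M : Matrix A Z ℂ := Matrix.of fun a y => ((eval y.1 (ind p a.1) : ℤ) : ℂ)
  let D : Matrix Z Z ℂ := Matrix.diagonal fun y => c y.1
  have hD : D.det ≠ 0 := by
    rw [Matrix.det_diagonal]
    exact Finset.prod_ne_zero_iff.2 fun y _ => hc y.1 y.2
  have hmul : M * (D * M.transpose) = 0 := by
    ext a b
    have h1 := hf (ind p a.1 * ind p b.1) ((totalDegree_mul _ _).trans (by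
      have := totalDegree_ind p a.1
      have := totalDegree_ind p b.1
      omega))
    rw [← Finset.sum_coe_sort Z] at h1
    rw [Matrix.mul_apply, Matrix.zero_apply, ← h1]
    refine Finset.sum_congr rfl fun y _ => ?_
    simp only [D, Matrix.diagonal_mul, Matrix.transpose_apply, M, map_mul, Matrix.of_apply]
    push_cast
    ring
  have hrank := Matrix.rank_add_rank_le_card_of_mul_eq_zero hmul
  rw [Matrix.rank_mul_eq_right_of_det_ne_zero _ _ hD, Matrix.rank_transpose] at hrank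
  have hM : A.card ≤ M.rank := by
    let e : A → Z := fun a => ⟨a.1, hA a.2⟩
    let N : Matrix A A ℤ := Matrix.of fun a b => eval b.1 (ind p a.1)
    have hN : N.det ≠ 0 := by
      intro h0
      have h1 : (Int.castRingHom (ZMod p)).mapMatrix N = 1 := by
        ext a b
        by_cases hab : a = b
        · subst hab
          simp [N, eval_ind_self hp]
        · rw [Matrix.one_apply_ne hab]
          simpa [N] using eval_ind_ne hp (hinc a.1 a.2 b.1 b.2 fun h => hab (Subtype.ext h))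
      have h2 := RingHom.map_det (Int.castRingHom (ZMod p)) N
      rw [h1, h0] at h2
      simp at h2
    have h3 : M.submatrix id e = (Int.castRingHom ℂ).mapMatrix N := by
      ext a b
      simp [M, N, e]
    have h4 : (M.submatrix id e).det ≠ 0 := by
      rw [h3, ← RingHom.map_det]
      simpa using hN
    have h5 := Matrix.rank_of_det_ne_zero h4
    have h6 := Matrix.rank_submatrix_le M id e
    rw [h5] at h6
    simpa using h6
  have : Fintype.card Z = Z.card := by simp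
  omega

/-- Averaging over a set of primes. -/
theorem Rel.false_of_average {Z : Finset (ι → ℤ)} (hZ : Z.Nonempty) (PP : Finset ℕ) (P : ℕ)
    (hPP : ∀ p ∈ PP, p.Prime ∧ p ≤ P) (h : Rel Z (2 * (Fintype.card ι * P)))
    (hav : ∀ x ∈ Z, 2 * (PP.filter fun p : ℕ => ∃ y ∈ Z, y ≠ x ∧ ∀ i, (p : ℤ) ∣ x i - y i).card
      < PP.card) : False := by
  classical
  have key : ∀ p ∈ PP, Z.card ≤
      2 * (Z.filter fun x => ∃ y ∈ Z, y ≠ x ∧ ∀ i, (p : ℤ) ∣ x i - y i).card := by
    intro p hp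
    obtain ⟨hp1, hp2⟩ := hPP p hp
    have h1 := (h.mono (k' := 2 * (Fintype.card ι * (p - 1))) (by
      have : p - 1 ≤ P := by omega
      gcongr)).two_mul_card_le hp1
      (A := Z.filter fun x => ¬ ∃ y ∈ Z, y ≠ x ∧ ∀ i, (p : ℤ) ∣ x i - y i) (filter_subset _ _) (by
        intro a ha b hb hab
        rw [mem_filter] at ha hb
        by_contra hcon
        push Not at hcon
        exact ha.2 ⟨b, hb.1, hab.symm, hcon⟩)
    have h2 := Finset.card_filter_add_card_filter_not (s := Z)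
      (fun x => ∃ y ∈ Z, y ≠ x ∧ ∀ i, (p : ℤ) ∣ x i - y i)
    omega
  have h1 : ∑ p ∈ PP, Z.card ≤ ∑ p ∈ PP,
      2 * (Z.filter fun x => ∃ y ∈ Z, y ≠ x ∧ ∀ i, (p : ℤ) ∣ x i - y i).card :=
    Finset.sum_le_sum key
  have h2 : ∑ x ∈ Z, 2 * (PP.filter fun p : ℕ => ∃ y ∈ Z, y ≠ x ∧ ∀ i, (p : ℤ) ∣ x i - y i).card
      < ∑ x ∈ Z, PP.card := Finset.sum_lt_sum_of_nonempty hZ hav
  have h3 : ∑ p ∈ PP, 2 * (Z.filter fun x => ∃ y ∈ Z, y ≠ x ∧ ∀ i, (p : ℤ) ∣ x i - y i).card =
      ∑ x ∈ Z, 2 * (PP.filter fun p : ℕ => ∃ y ∈ Z, y ≠ x ∧ ∀ i, (p : ℤ) ∣ x i - y i).card := by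
    rw [← Finset.mul_sum, ← Finset.mul_sum]
    congr 1
    simp only [Finset.card_filter]
    exact Finset.sum_comm
  simp only [Finset.sum_const, smul_eq_mul] at h1 h2
  rw [h3] at h1
  rw [mul_comm] at h2
  omega

end Pool.Agent.P.MP_d565f2_an
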