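import Pool.Agent.P.MP_d565f2_an.Theta3

set_option autoImplicit false

open Finset

namespace Pool.Agent.P.MP_d565f2_an

theorem card_le_of_diff_int (e : ℕ) (T : Finset ℚ) (h0 : ∀ t ∈ T, 0 ≤ t ∧ t < 1)
    (he : 0 < e) (h : ∀ t ∈ T, ∀ t' ∈ T, ∃ k : ℤ, (t - t') * e = k) : T.card ≤ e := by
  have he' : (0 : ℚ) < e := by exact_mod_cast he
  calc T.card ≤ (range e).card := by
        refine Finset.card_le_card_of_injOn (fun t => ⌊t * e⌋₊) ?_ ?_
        · intro t ht
          obtain ⟨h1, h2⟩ := h0 t ht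
          simp only [coe_range, Set.mem_Iio]
          rw [Nat.floor_lt (by positivity)]
          nlinarith
        · intro t ht t' ht' hff
          obtain ⟨k, hk⟩ := h t ht t' ht'
          have h1 := Nat.floor_le (show 0 ≤ t * e by have := (h0 t ht).1; positivity)
          have h2 := Nat.lt_floor_add_one (t * e)
          have h3 := Nat.floor_le (show 0 ≤ t' * e by have := (h0 t' ht').1; positivity)
          have h4 := Nat.lt_floor_add_one (t' * e)
          simp only at hff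
          rw [hff] at h1 h2
          have h5 : (k : ℚ) < 1 := by linarith
          have h6 : (-1 : ℚ) < k := by linarith
          have h7 : k < 1 := by exact_mod_cast h5
          have h8 : -1 < k := by exact_mod_cast h6
          have h9 : k = 0 := by omega
          rw [h9, Int.cast_zero, mul_eq_zero] at hk
          rcases hk with hk | hk
          · exact sub_eq_zero.1 hk
          · exact absurd hk he'.ne'
    _ = e := card_range e

theorem sum_gcd_le (a : ℕ) (ha : 0 < a) :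
    ∑ b ∈ Icc (-(a : ℤ)) a, Int.gcd a b ≤ 3 * a * a.divisors.card := by
  rw [← Finset.sum_fiberwise_of_maps_to (t := a.divisors) (g := fun b : ℤ => Int.gcd a b)
    (fun b _ => Nat.mem_divisors.2 ⟨by
      have := Int.gcd_dvd_left (a : ℤ) b
      exact_mod_cast this, ha.ne'⟩)]
  rw [mul_comm, ← smul_eq_mul]
  refine Finset.sum_le_card_nsmul _ _ _ fun e he => ?_
  have he0 : 0 < e := Nat.pos_of_mem_divisors he
  have hea : e ≤ a := Nat.divisor_le he
  have h1 : ((Icc (-(a : ℤ)) a).filter fun b => Int.gcd a b = e).card ≤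
      (Icc (-((a / e : ℕ) : ℤ)) (a / e : ℕ)).card := by
    refine Finset.card_le_card_of_injOn (fun b => b / e) ?_ ?_
    · intro b hb
      obtain ⟨hb1, hb2⟩ := mem_filter.1 (mem_coe.1 hb)
      obtain ⟨c, rfl⟩ : (e : ℤ) ∣ b := hb2 ▸ Int.gcd_dvd_right _ _
      have he' : (e : ℤ) ≠ 0 := by exact_mod_cast he0.ne'
      simp only [Int.mul_ediv_cancel_left _ he', coe_Icc, Set.mem_Icc]
      rw [← abs_le]
      have h2 : |(e : ℤ) * c| ≤ a := abs_le.2 (mem_Icc.1 hb1)
      rw [abs_mul, Nat.abs_cast] at h2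
      have h3 : e * c.natAbs ≤ a := by
        have : ((e * c.natAbs : ℕ) : ℤ) ≤ a := by push_cast; exact h2
        exact_mod_cast this
      have h4 : c.natAbs ≤ a / e := (Nat.le_div_iff_mul_le he0).2 (by linarith)
      rw [← Int.natCast_natAbs]
      exact_mod_cast h4
    · intro b hb b' hb' hbb
      obtain ⟨c, rfl⟩ : (e : ℤ) ∣ b := (mem_filter.1 (mem_coe.1 hb)).2 ▸ Int.gcd_dvd_right _ _
      obtain ⟨c', rfl⟩ : (e : ℤ) ∣ b' := (mem_filter.1 (mem_coe.1 hb')).2 ▸ Int.gcd_dvd_right _ _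
      have he' : (e : ℤ) ≠ 0 := by exact_mod_cast he0.ne'
      simp only [Int.mul_ediv_cancel_left _ he'] at hbb
      rw [hbb]
  have h2 : (Icc (-((a / e : ℕ) : ℤ)) (a / e : ℕ)).card = 2 * (a / e) + 1 := by
    rw [Int.card_Icc]; omega
  calc ∑ b ∈ (Icc (-(a : ℤ)) a).filter fun b => Int.gcd a b = e, Int.gcd a b
      = ((Icc (-(a : ℤ)) a).filter fun b => Int.gcd a b = e).card * e := by
        rw [Finset.sum_congr rfl fun b hb => (mem_filter.1 hb).2, Finset.sum_const, smul_eq_mul]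
    _ ≤ (2 * (a / e) + 1) * e := Nat.mul_le_mul_right _ (h2 ▸ h1)
    _ ≤ 3 * a := by have := Nat.div_mul_le_self a e; nlinarith

variable {ι : Type*} [Fintype ι]

/-- The integer vector attached to a fraction. -/
noncomputable def nu (X : ι → ℤ) (t : ℚ) (i : ι) : ℤ :=
  t.num * X i - t.den * round ((t : ℝ) * X i)

/-- Distance of `t X` to the integer lattice. -/
noncomputable def del (X : ι → ℤ) (t : ℚ) : ℝ := ndv fun i => (t : ℝ) * X i

/-- Sup norm of `nu`. -/
noncomputable def av (X : ι → ℤ) (t : ℚ) : ℕ := univ.sup fun i => (nu X t i).natAbs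

omit [Fintype ι] in
theorem abs_nu (X : ι → ℤ) (t : ℚ) (i : ι) :
    (((nu X t i).natAbs : ℕ) : ℝ) = t.den * nd ((t : ℝ) * X i) := by
  have hden : (0 : ℝ) < t.den := by exact_mod_cast t.pos
  rw [Nat.cast_natAbs, nd, ← abs_of_pos hden, ← abs_mul, nu]
  push_cast
  congr 1
  have : (t.num : ℝ) = t * t.den := by exact_mod_cast (Rat.mul_den_eq_num t).symm
  rw [this]
  ring

theorem natAbs_nu_le (X : ι → ℤ) (t : ℚ) (i : ι) : (nu X t i).natAbs ≤ av X t :=
  Finset.le_sup (f := fun i => (nu X t i).natAbs) (mem_univ i)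

theorem exists_av [Nonempty ι] (X : ι → ℤ) (t : ℚ) : ∃ i, (nu X t i).natAbs = av X t := by
  obtain ⟨i, -, hi⟩ := Finset.exists_mem_eq_sup univ univ_nonempty fun i => (nu X t i).natAbs
  exact ⟨i, hi.symm⟩

theorem av_eq [Nonempty ι] (X : ι → ℤ) (t : ℚ) : (av X t : ℝ) = t.den * del X t := by
  have hden : (0 : ℝ) < t.den := by exact_mod_cast t.pos
  apply le_antisymm
  · obtain ⟨i, hi⟩ := exists_av X t
    rw [← hi, abs_nu]
    exact mul_le_mul_of_nonneg_left (nd_le_ndv (fun i => (t : ℝ) * X i) i) hden.le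
  · obtain ⟨i, hi⟩ := exists_ndv_eq fun i => (t : ℝ) * X i
    rw [del, ← hi, ← abs_nu]
    exact_mod_cast natAbs_nu_le X t i

theorem del_le_half [Nonempty ι] (X : ι → ℤ) (t : ℚ) : del X t ≤ 1 / 2 := by
  obtain ⟨i, hi⟩ := exists_ndv_eq fun i => (t : ℝ) * X i
  rw [del, ← hi]
  exact abs_sub_round _

theorem del_nonneg [Nonempty ι] (X : ι → ℤ) (t : ℚ) : 0 ≤ del X t := ndv_nonneg _

theorem av_le_den [Nonempty ι] (X : ι → ℤ) (t : ℚ) : av X t ≤ t.den := by
  have h1 := av_eq X t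
  have h2 := del_le_half X t
  have hden : (0 : ℝ) < t.den := by exact_mod_cast t.pos
  have : (av X t : ℝ) ≤ t.den := by nlinarith
  exact_mod_cast this

omit [Fintype ι] in
theorem card_fiber_le (X : ι → ℤ) (i j : ι) (Y m : ℕ) (ε b : ℤ) (hε : ε ≠ 0) :
    ((farey Y).filter fun t => t.den = m ∧ nu X t i = ε ∧ nu X t j = b).card ≤ Int.gcd ε b := by
  rcases ((farey Y).filter fun t => t.den = m ∧ nu X t i = ε ∧ nu X t j = b).eq_empty_or_nonempty
    with h | ⟨t₀, ht₀⟩
  · simp [h]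
  obtain ⟨-, hm, hi, hj⟩ := mem_filter.1 ht₀
  have hm0 : 0 < m := hm ▸ t₀.pos
  set g : ℕ := Int.gcd (X i) (X j) with hg
  set e : ℕ := Int.gcd g m with he
  have he0 : 0 < e := Int.gcd_pos_of_ne_zero_right _ (by exact_mod_cast hm0.ne')
  have heg : (e : ℤ) ∣ g := Int.gcd_dvd_left _ _
  have hem : (e : ℤ) ∣ m := Int.gcd_dvd_right _ _
  have h1 : (e : ℤ) ∣ ε := by
    rw [← hi, nu, hm]
    exact dvd_sub ((heg.trans (Int.gcd_dvd_left _ _)).mul_left _) (hem.mul_right _)
  have h2 : (e : ℤ) ∣ b := by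
    rw [← hj, nu, hm]
    exact dvd_sub ((heg.trans (Int.gcd_dvd_right _ _)).mul_left _) (hem.mul_right _)
  have h3 : e ≤ Int.gcd ε b :=
    Nat.le_of_dvd (Int.gcd_pos_of_ne_zero_left _ hε) (Int.dvd_gcd h1 h2)
  refine le_trans (card_le_of_diff_int e _ ?_ he0 ?_) h3
  · intro t ht
    have := mem_farey.1 (mem_filter.1 ht).1
    exact ⟨this.1, this.2.1⟩
  · intro t ht t' ht'
    obtain ⟨-, hm1, hi1, hj1⟩ := mem_filter.1 ht
    obtain ⟨-, hm2, hi2, hj2⟩ := mem_filter.1 ht'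
    have hmq : (m : ℚ) ≠ 0 := by exact_mod_cast hm0.ne'
    have ht1 : t * m = t.num := by rw [← hm1]; exact Rat.mul_den_eq_num t
    have ht2 : t' * m = t'.num := by rw [← hm2]; exact Rat.mul_den_eq_num t'
    have key : ∀ l : ι, nu X t l = nu X t' l →
        (t - t') * X l = (round ((t : ℝ) * X l) - round ((t' : ℝ) * X l) : ℤ) := by
      intro l hl
      rw [nu, nu, hm1, hm2] at hl
      have h4 : ((t.num * X l - m * round ((t : ℝ) * X l) : ℤ) : ℚ) =
          ((t'.num * X l - m * round ((t' : ℝ) * X l) : ℤ) : ℚ) := by rw [hl]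
      push_cast at h4 ⊢
      apply mul_left_cancel₀ hmq
      linear_combination h4 + X l * ht1 - X l * ht2
    have k1 := key i (hi1.trans hi2.symm)
    have k2 := key j (hj1.trans hj2.symm)
    have b1 : (g : ℚ) = X i * Int.gcdA (X i) (X j) + X j * Int.gcdB (X i) (X j) := by
      exact_mod_cast Int.gcd_eq_gcd_ab (X i) (X j)
    have b2 : (e : ℚ) = g * Int.gcdA g m + m * Int.gcdB g m := by
      exact_mod_cast Int.gcd_eq_gcd_ab (g : ℤ) m
    refine ⟨((round ((t : ℝ) * X i) - round ((t' : ℝ) * X i)) * Int.gcdA (X i) (X j) +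
      (round ((t : ℝ) * X j) - round ((t' : ℝ) * X j)) * Int.gcdB (X i) (X j)) * Int.gcdA g m +
      (t.num - t'.num) * Int.gcdB g m, ?_⟩
    push_cast at k1 k2 ⊢
    rw [b2]
    linear_combination (Int.gcdA g m : ℚ) * (t - t') * b1 +
      (Int.gcdA (X i) (X j) * Int.gcdA g m : ℚ) * k1 +
      (Int.gcdB (X i) (X j) * Int.gcdA g m : ℚ) * k2 + (Int.gcdB g m : ℚ) * (ht1 - ht2)

/-- The hypotheses for the divisor count of short vectors. -/
structure SVHyp (X : ι → ℤ) (Y w : ℕ) : Prop where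
  nondeg : ∀ i j, i ≠ j → ∀ a b : ℤ, a ≠ 0 → |a| ≤ Y → |b| ≤ Y → X i * b - X j * a ≠ 0
  div1 : ∀ a : ℕ, a ≤ Y → a.divisors.card ≤ w
  div2 : ∀ i j, ∀ a b : ℤ, |a| ≤ Y → |b| ≤ Y → (X i * b - X j * a).natAbs.divisors.card ≤ w

theorem card_av_eq_le (hd : 2 ≤ Fintype.card ι) {X : ι → ℤ} {Y w : ℕ} (h : SVHyp X Y w)
    {a : ℕ} (ha : 0 < a) (haY : a ≤ Y) :
    ((farey Y).filter fun t => av X t = a).card ≤ 6 * Fintype.card ι * w ^ 2 * a := by
  classical
  have hnt : Nontrivial ι := Fintype.one_lt_card_iff_nontrivial.1 (by omega)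
  choose j hj using fun i : ι => exists_ne i
  have hsub : ((farey Y).filter fun t => av X t = a) ⊆
      univ.biUnion fun i : ι => ({(a : ℤ), -(a : ℤ)} : Finset ℤ).biUnion fun ε =>
        (Icc (-(a : ℤ)) a).biUnion fun b =>
          (X i * b - X (j i) * ε).natAbs.divisors.biUnion fun m =>
            (farey Y).filter fun t => t.den = m ∧ nu X t i = ε ∧ nu X t (j i) = b := by
    intro t ht
    obtain ⟨ht1, ht2⟩ := mem_filter.1 ht
    obtain ⟨i, hi⟩ := exists_av X t
    have h1 := natAbs_nu_le X t (j i)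
    simp only [mem_biUnion, mem_univ, true_and, mem_filter]
    refine ⟨i, nu X t i, ?_, nu X t (j i), ?_, t.den, ?_, ht1, rfl, rfl, rfl⟩
    · simp only [mem_insert, mem_singleton]; omega
    · simp only [mem_Icc]; omega
    · rw [Nat.mem_divisors, Int.natAbs_ne_zero]
      refine ⟨?_, h.nondeg i (j i) (hj i).symm _ _ (by omega) (by
        rw [← Int.natCast_natAbs]; omega) (by rw [← Int.natCast_natAbs]; omega)⟩
      rw [← Int.natCast_dvd]
      refine ⟨X (j i) * round ((t : ℝ) * X i) - X i * round ((t : ℝ) * X (j i)), ?_⟩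
      simp only [nu]
      ring
  refine (Finset.card_le_card hsub).trans ?_
  have hw := h.div1 a haY
  have h3 := sum_gcd_le a ha
  have key : ∀ i : ι, ∀ ε ∈ ({(a : ℤ), -(a : ℤ)} : Finset ℤ),
      ((Icc (-(a : ℤ)) a).biUnion fun b =>
        (X i * b - X (j i) * ε).natAbs.divisors.biUnion fun m =>
          (farey Y).filter fun t => t.den = m ∧ nu X t i = ε ∧ nu X t (j i) = b).card ≤
      3 * w ^ 2 * a := by
    intro i ε hε
    have hε' : ε = a ∨ ε = -a := by simpa using hε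
    have hε0 : ε ≠ 0 := by omega
    have hgcd : ∀ b : ℤ, Int.gcd ε b = Int.gcd a b := by
      intro b
      rcases hε' with rfl | rfl <;> simp
    refine Finset.card_biUnion_le.trans ?_
    calc ∑ b ∈ Icc (-(a : ℤ)) a, ((X i * b - X (j i) * ε).natAbs.divisors.biUnion fun m =>
          (farey Y).filter fun t => t.den = m ∧ nu X t i = ε ∧ nu X t (j i) = b).card
        ≤ ∑ b ∈ Icc (-(a : ℤ)) a, w * Int.gcd a b := by
          refine Finset.sum_le_sum fun b hb => ?_
          refine (Finset.card_biUnion_le_card_mul _ _ (Int.gcd a b) fun m _ => ?_).trans ?_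
          · rw [← hgcd]
            exact card_fiber_le X i (j i) Y m ε b hε0
          · refine Nat.mul_le_mul_right _ (h.div2 i (j i) ε b ?_ ?_)
            · rw [abs_le]; omega
            · have := mem_Icc.1 hb
              rw [abs_le]; omega
      _ = w * ∑ b ∈ Icc (-(a : ℤ)) a, Int.gcd a b := by rw [Finset.mul_sum]
      _ ≤ w * (3 * a * w) := Nat.mul_le_mul_left _ (h3.trans (Nat.mul_le_mul_left _ hw))
      _ = 3 * w ^ 2 * a := by ring
  refine (Finset.card_biUnion_le_card_mul _ _ (2 * (3 * w ^ 2 * a)) fun i _ => ?_).trans ?_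
  · refine (Finset.card_biUnion_le_card_mul _ _ _ (key i)).trans ?_
    exact Nat.mul_le_mul_right _ Finset.card_le_two
  · rw [Finset.card_univ]
    apply le_of_eq
    ring

theorem sum_le_of_av (hd : 2 ≤ Fintype.card ι) {X : ι → ℤ} {Y w : ℕ} (h : SVHyp X Y w)
    (T : Finset ℚ) (hT : T ⊆ farey Y) (f : ℚ → ℝ) (g : ℕ → ℝ) (hg : ∀ a, 0 ≤ g a)
    (hf : ∀ t ∈ T, 0 < av X t ∧ f t ≤ g (av X t) / av X t) :
    ∑ t ∈ T, f t ≤ 6 * Fintype.card ι * w ^ 2 * ∑ a ∈ Icc 1 Y, g a := by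
  classical
  have : Nonempty ι := Fintype.card_pos_iff.1 (by omega)
  rw [← Finset.sum_fiberwise_of_maps_to (s := T) (t := Icc 1 Y) (g := fun t => av X t)
    (fun t ht => mem_Icc.2 ⟨(hf t ht).1, (av_le_den X t).trans (mem_farey.1 (hT ht)).2.2⟩),
    Finset.mul_sum]
  refine Finset.sum_le_sum fun a ha => ?_
  obtain ⟨ha1, ha2⟩ := mem_Icc.1 ha
  have ha' : (0 : ℝ) < a := by exact_mod_cast ha1
  have h1 : (T.filter fun t => av X t = a).card ≤ 6 * Fintype.card ι * w ^ 2 * a :=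
    (Finset.card_le_card (Finset.filter_subset_filter _ hT)).trans (card_av_eq_le hd h ha1 ha2)
  have h2 : ((T.filter fun t => av X t = a).card : ℝ) ≤ 6 * Fintype.card ι * w ^ 2 * a := by
    exact_mod_cast h1
  calc ∑ t ∈ T.filter fun t => av X t = a, f t ≤ (T.filter fun t => av X t = a).card • (g a / a) :=
        Finset.sum_le_card_nsmul _ _ _ fun t ht => by
          obtain ⟨ht1, ht2⟩ := mem_filter.1 ht
          rw [← ht2]
          exact (hf t ht1).2
    _ ≤ (6 * Fintype.card ι * w ^ 2 * a) * (g a / a) := by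
        rw [nsmul_eq_mul]
        have := hg a
        gcongr
    _ = _ := by field_simp

theorem sum_min_le (Y : ℕ) {r : ℝ} (hr : 0 < r) :
    ∑ a ∈ Icc 1 Y, min (1 / r ^ 2) ((Y : ℝ) ^ 2 / (a : ℝ) ^ 2) ≤ 3 * Y / r := by
  rcases Nat.eq_zero_or_pos Y with rfl | hY
  · simp
  have hY' : (0 : ℝ) < Y := by exact_mod_cast hY
  set k := ⌊r * Y⌋₊ with hk
  have hk1 : (k : ℝ) ≤ r * Y := Nat.floor_le (by positivity)
  have hk2 : r * Y < k + 1 := Nat.lt_floor_add_one _
  have h1 : Icc 1 Y ⊆ Icc 1 k ∪ Ioo k (Y + 1) := by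
    intro a ha
    simp only [mem_union, mem_Icc, mem_Ioo] at ha ⊢
    omega
  have hnn : ∀ a : ℕ, 0 ≤ min (1 / r ^ 2) ((Y : ℝ) ^ 2 / (a : ℝ) ^ 2) := fun a =>
    le_min (by positivity) (by positivity)
  refine (Finset.sum_le_sum_of_subset_of_nonneg h1 fun a _ _ => hnn a).trans ?_
  rw [Finset.sum_union (by
    rw [Finset.disjoint_left]
    intro a ha hb
    simp only [mem_Icc, mem_Ioo] at ha hb
    omega)]
  have h2 : ∑ a ∈ Icc 1 k, min (1 / r ^ 2) ((Y : ℝ) ^ 2 / (a : ℝ) ^ 2) ≤ Y / r := by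
    calc ∑ a ∈ Icc 1 k, min (1 / r ^ 2) ((Y : ℝ) ^ 2 / (a : ℝ) ^ 2)
        ≤ (Icc 1 k).card • (1 / r ^ 2) :=
          Finset.sum_le_card_nsmul _ _ _ fun a _ => min_le_left _ _
      _ = k * (1 / r ^ 2) := by simp
      _ ≤ (r * Y) * (1 / r ^ 2) := by gcongr
      _ = Y / r := by field_simp
  have h3 : ∑ a ∈ Ioo k (Y + 1), min (1 / r ^ 2) ((Y : ℝ) ^ 2 / (a : ℝ) ^ 2) ≤ 2 * Y / r := by
    calc ∑ a ∈ Ioo k (Y + 1), min (1 / r ^ 2) ((Y : ℝ) ^ 2 / (a : ℝ) ^ 2)
        ≤ ∑ a ∈ Ioo k (Y + 1), (Y : ℝ) ^ 2 * ((a : ℝ) ^ 2)⁻¹ :=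
          Finset.sum_le_sum fun a _ => min_le_right _ _
      _ = (Y : ℝ) ^ 2 * ∑ a ∈ Ioo k (Y + 1), ((a : ℝ) ^ 2)⁻¹ := by rw [Finset.mul_sum]
      _ ≤ (Y : ℝ) ^ 2 * (2 / (k + 1)) := by
          gcongr
          exact sum_Ioo_inv_sq_le k (Y + 1)
      _ ≤ (Y : ℝ) ^ 2 * (2 / (r * Y)) := by gcongr
      _ = 2 * Y / r := by field_simp
  have : (3 : ℝ) * Y / r = Y / r + 2 * Y / r := by ring
  linarith

/-- The sum over fractions with nonzero short vector. -/
theorem nonexact_sum_le (hd : 2 ≤ Fintype.card ι) {X : ι → ℤ} {Y w : ℕ} (h : SVHyp X Y w)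
    {κ r : ℝ} (hκ : 0 < κ) (hr : 0 < r) (A : ℕ) (hA : 0 < A) :
    ∑ t ∈ (farey Y).filter (fun t => del X t ≠ 0), 1 / (t.den : ℝ) * Psi (del X t / κ) ≤
      6 * Fintype.card ι * w ^ 2 * (3 * κ ^ 3 * Y / r + r * A) +
        ((farey Y).filter fun t => del X t ≤ r ∧ A < av X t).card * (r / A) := by
  classical
  have : Nonempty ι := Fintype.card_pos_iff.1 (by omega)
  have hA' : (0 : ℝ) < A := by exact_mod_cast hA
  have hpos : ∀ t : ℚ, del X t ≠ 0 → 0 < del X t ∧ 0 < av X t ∧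
      1 / (t.den : ℝ) = del X t / av X t := by
    intro t ht
    have h1 : 0 < del X t := lt_of_le_of_ne (del_nonneg X t) ht.symm
    have hden : (0 : ℝ) < t.den := by exact_mod_cast t.pos
    have h2 : (0 : ℝ) < av X t := by rw [av_eq]; positivity
    refine ⟨h1, by exact_mod_cast h2, ?_⟩
    rw [av_eq]
    field_simp
  rw [← Finset.sum_filter_add_sum_filter_not _ (fun t => r < del X t),
    ← Finset.sum_filter_add_sum_filter_not (((farey Y).filter fun t => del X t ≠ 0).filter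
      fun t => ¬ r < del X t) (fun t => av X t ≤ A)]
  have h1 := sum_le_of_av hd h (((farey Y).filter fun t => del X t ≠ 0).filter
      fun t => r < del X t) ((filter_subset _ _).trans (filter_subset _ _))
    (fun t => 1 / (t.den : ℝ) * Psi (del X t / κ))
    (fun a => κ ^ 3 * min (1 / r ^ 2) ((Y : ℝ) ^ 2 / (a : ℝ) ^ 2))
    (fun a => mul_nonneg (by positivity) (le_min (by positivity) (by positivity))) (by
      intro t ht
      obtain ⟨ht1, ht2⟩ := mem_filter.1 ht
      obtain ⟨ht3, ht4⟩ := mem_filter.1 ht1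
      obtain ⟨p1, p2, p3⟩ := hpos t ht4
      have p2' : (0 : ℝ) < av X t := by exact_mod_cast p2
      refine ⟨p2, ?_⟩
      have p4 : 1 / del X t ^ 2 ≤ min (1 / r ^ 2) ((Y : ℝ) ^ 2 / (av X t : ℝ) ^ 2) := by
        refine le_min (by gcongr) ?_
        have p5 : (t.den : ℝ) ≤ Y := by exact_mod_cast (mem_farey.1 ht3).2.2
        have hden : (0 : ℝ) < t.den := by exact_mod_cast t.pos
        rw [av_eq, mul_pow, div_le_div_iff₀ (by positivity) (by positivity), one_mul]
        gcongr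
      calc 1 / (t.den : ℝ) * Psi (del X t / κ) ≤ del X t / av X t * (1 / (del X t / κ) ^ 3) := by
            rw [p3]
            gcongr
            exact Psi_le (by positivity)
        _ = κ ^ 3 * (1 / del X t ^ 2) / av X t := by field_simp
        _ ≤ _ := by gcongr)
  have h2 := sum_le_of_av hd h ((((farey Y).filter fun t => del X t ≠ 0).filter
      fun t => ¬ r < del X t).filter fun t => av X t ≤ A)
    ((filter_subset _ _).trans ((filter_subset _ _).trans (filter_subset _ _)))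
    (fun t => 1 / (t.den : ℝ) * Psi (del X t / κ))
    (fun a => if a ≤ A then r else 0)
    (fun a => by split_ifs <;> positivity) (by
      intro t ht
      obtain ⟨ht0, ht5⟩ := mem_filter.1 ht
      obtain ⟨ht1, ht2⟩ := mem_filter.1 ht0
      obtain ⟨ht3, ht4⟩ := mem_filter.1 ht1
      obtain ⟨p1, p2, p3⟩ := hpos t ht4
      have p2' : (0 : ℝ) < av X t := by exact_mod_cast p2
      refine ⟨p2, ?_⟩
      rw [if_pos ht5, p3]
      calc del X t / av X t * Psi (del X t / κ) ≤ r / av X t * 1 := by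
            gcongr
            · exact Psi_nonneg _
            · exact not_lt.1 ht2
            · exact Psi_le_one _
        _ = _ := mul_one _)
  have h3 : ∑ t ∈ (((farey Y).filter fun t => del X t ≠ 0).filter
      fun t => ¬ r < del X t).filter (fun t => ¬ av X t ≤ A),
      1 / (t.den : ℝ) * Psi (del X t / κ) ≤
      ((farey Y).filter fun t => del X t ≤ r ∧ A < av X t).card * (r / A) := by
    refine (Finset.sum_le_card_nsmul _ _ (r / A) fun t ht => ?_).trans ?_
    · obtain ⟨ht0, ht5⟩ := mem_filter.1 ht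
      obtain ⟨ht1, ht2⟩ := mem_filter.1 ht0
      obtain ⟨ht3, ht4⟩ := mem_filter.1 ht1
      obtain ⟨p1, p2, p3⟩ := hpos t ht4
      have p6 : (A : ℝ) ≤ av X t := by exact_mod_cast (not_le.1 ht5).le
      rw [p3]
      calc del X t / av X t * Psi (del X t / κ) ≤ r / A * 1 := by
            gcongr
            · exact Psi_nonneg _
            · exact not_lt.1 ht2
            · exact Psi_le_one _
        _ = _ := mul_one _
    · rw [nsmul_eq_mul]
      gcongr
      intro t ht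
      obtain ⟨ht0, ht5⟩ := mem_filter.1 ht
      obtain ⟨ht1, ht2⟩ := mem_filter.1 ht0
      exact mem_filter.2 ⟨(mem_filter.1 ht1).1, not_lt.1 ht2, not_le.1 ht5⟩
  have h4 : ∑ a ∈ Icc 1 Y, κ ^ 3 * min (1 / r ^ 2) ((Y : ℝ) ^ 2 / (a : ℝ) ^ 2) ≤
      3 * κ ^ 3 * Y / r := by
    rw [← Finset.mul_sum]
    calc κ ^ 3 * ∑ a ∈ Icc 1 Y, min (1 / r ^ 2) ((Y : ℝ) ^ 2 / (a : ℝ) ^ 2)
        ≤ κ ^ 3 * (3 * Y / r) := by gcongr; exact sum_min_le Y hr
      _ = _ := by ring
  have h5 : ∑ a ∈ Icc 1 Y, (if a ≤ A then r else 0) ≤ r * A := by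
    rw [← Finset.sum_filter, Finset.sum_const, nsmul_eq_mul, mul_comm]
    gcongr
    calc ((Icc 1 Y).filter fun a => a ≤ A).card ≤ (Icc 1 A).card :=
          Finset.card_le_card fun a ha => by
            simp only [mem_filter, mem_Icc] at ha ⊢; omega
      _ = A := by simp
  have h6 : (0 : ℝ) ≤ 6 * Fintype.card ι * w ^ 2 := by positivity
  have h7 := mul_le_mul_of_nonneg_left h4 h6
  have h8 := mul_le_mul_of_nonneg_left h5 h6
  rw [mul_add]
  linarith

end Pool.Agent.P.MP_d565f2_an
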