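import Pool.Agent.P.MP_d565f2_an.Short1

set_option autoImplicit false

open Finset
open scoped Real

namespace Pool.Agent.P.MP_d565f2_an

variable {ι : Type*} [Fintype ι] [DecidableEq ι]

/-- The box `[0, H)^ι`. -/
noncomputable def box0 (ι : Type*) [Fintype ι] [DecidableEq ι] (H : ℕ) : Finset (ι → ℤ) :=
  Fintype.piFinset fun _ => Ico (0 : ℤ) H

theorem mem_box0 {H : ℕ} {u : ι → ℤ} : u ∈ box0 ι H ↔ ∀ i, 0 ≤ u i ∧ u i < H := by
  simp [box0]

theorem card_box0 (H : ℕ) : (box0 ι H).card = H ^ Fintype.card ι := by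
  simp [box0, Fintype.card_piFinset]

theorem card_hyper_le [Nonempty ι] (X : ι → ℤ) (h H : ℕ) (hh : 0 < h)
    (hX : ∀ v : ι → ℤ, v ≠ 0 → (∀ i, |v i| ≤ Fintype.card ι * h) → X ⬝ᵥ v ≠ 0) (c : ℤ) :
    ((box0 ι H).filter fun u => X ⬝ᵥ u = c).card ≤ (H / h + 1) ^ (Fintype.card ι - 1) := by
  obtain ⟨i₀, hi₀⟩ := Finite.exists_max fun i => |X i|
  have hd : 1 ≤ Fintype.card ι := Fintype.card_pos
  have hh' : (0 : ℤ) < h := by exact_mod_cast hh
  have hX0 : 0 < |X i₀| := by
    by_contra hcon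
    have h1 : ∀ i, X i = 0 := fun i => abs_nonpos_iff.1 ((hi₀ i).trans (not_lt.1 hcon))
    refine hX (Pi.single i₀ 1) (by simp) (fun i => ?_) (by simp [h1])
    have h2 : (1 : ℤ) ≤ Fintype.card ι * h := by
      have : 1 ≤ Fintype.card ι * h := Nat.mul_pos hd hh
      exact_mod_cast this
    rw [Pi.single_apply]
    split_ifs <;> simp <;> omega
  have hc : (box0 {i // i ≠ i₀} (H / h + 1)).card = (H / h + 1) ^ (Fintype.card ι - 1) := by
    rw [card_box0]
    simp
  rw [← hc]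
  refine Finset.card_le_card_of_injOn (fun u i => u i.1 / h) ?_ ?_
  · intro u hu
    have hu1 := mem_box0.1 (mem_filter.1 (mem_coe.1 hu)).1
    refine mem_coe.2 (mem_box0.2 fun i => ⟨Int.ediv_nonneg (hu1 i.1).1 hh'.le, ?_⟩)
    have := Int.ediv_le_ediv hh' (hu1 i.1).2.le
    push_cast
    omega
  · intro u hu u' hu' huu
    obtain ⟨hu1, hu2⟩ := mem_filter.1 (mem_coe.1 hu)
    obtain ⟨hu1', hu2'⟩ := mem_filter.1 (mem_coe.1 hu')
    have h1 : ∀ i, i ≠ i₀ → |u i - u' i| ≤ h := by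
      intro i hi
      have h2 : u i / h = u' i / h := congrFun huu ⟨i, hi⟩
      have e1 := Int.emod_add_mul_ediv (u i) h
      have e2 := Int.emod_add_mul_ediv (u' i) h
      have e3 := Int.emod_nonneg (u i) hh'.ne'
      have e4 := Int.emod_nonneg (u' i) hh'.ne'
      have e5 := Int.emod_lt_of_pos (u i) hh'
      have e6 := Int.emod_lt_of_pos (u' i) hh'
      rw [h2] at e1
      rw [abs_le]
      constructor <;> linarith
    have h2 : X ⬝ᵥ (u - u') = 0 := by rw [dotProduct_sub, hu2, hu2', sub_self]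
    by_contra hne
    refine hX (u - u') (sub_ne_zero.2 hne) (fun i => ?_) h2
    have hd' : (1 : ℤ) ≤ Fintype.card ι := by exact_mod_cast hd
    by_cases hi : i = i₀
    · subst hi
      have h3 : X i * (u i - u' i) = -∑ j ∈ univ.erase i, X j * (u j - u' j) := by
        rw [dotProduct, ← Finset.add_sum_erase _ _ (mem_univ i)] at h2
        simp only [Pi.sub_apply] at h2
        linarith
      have h4 : |X i| * |u i - u' i| ≤ |X i| * (Fintype.card ι * h) := by
        rw [← abs_mul, h3, abs_neg]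
        refine (Finset.abs_sum_le_sum_abs _ _).trans ?_
        refine (Finset.sum_le_card_nsmul _ _ (|X i| * h) fun j hj => ?_).trans ?_
        · rw [abs_mul]
          exact mul_le_mul (hi₀ j) (h1 j (mem_erase.1 hj).1) (abs_nonneg _) (abs_nonneg _)
        · have h5 : ((univ.erase i).card : ℤ) ≤ Fintype.card ι := by
            exact_mod_cast Finset.card_le_univ _
          rw [nsmul_eq_mul]
          nlinarith [mul_pos hX0 hh']
      exact le_of_mul_le_mul_left h4 hX0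
    · have := h1 i hi
      simp only [Pi.sub_apply]
      nlinarith

theorem nd_le (y : ℝ) (k : ℤ) : nd y ≤ |y - k| := round_le y k

theorem nd_add_le (y e : ℝ) : nd (y + e) ≤ nd y + |e| := by
  refine (nd_le _ (round y)).trans ?_
  have : y + e - round y = (y - round y) + e := by ring
  rw [this]
  exact abs_add_le _ _

theorem re_ex_ge {θ : ℝ} (h : |θ| ≤ 1 / 6) : 1 / 2 ≤ (ex θ).re := by
  have h1 : ex θ = Complex.exp (((2 * π * θ : ℝ) : ℂ) * Complex.I) := by
    unfold ex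
    congr 1
    push_cast
    ring
  rw [h1, Complex.exp_ofReal_mul_I_re, ← Real.cos_abs, ← Real.cos_pi_div_three]
  have hpi := Real.pi_pos
  refine Real.cos_le_cos_of_nonneg_of_le_pi (abs_nonneg _) (by linarith) ?_
  rw [abs_mul, abs_of_pos (by positivity)]
  nlinarith

theorem bohr_grid_le (X : ι → ℤ) (J H U : ℕ) (hJ : 0 < J) {r : ℝ}
    (hr : Fintype.card ι * H * r ≤ 1 / 6)
    (hXJ : ∀ u ∈ box0 ι H, ∀ u' ∈ box0 ι H, |X ⬝ᵥ (u - u')| < J)
    (hU : ∀ c : ℤ, ((box0 ι H).filter fun u => X ⬝ᵥ u = c).card ≤ U) :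
    (((range J).filter fun j : ℕ => ∀ i, nd ((j : ℝ) / J * X i) ≤ r).card : ℝ) *
      ((H : ℝ) ^ Fintype.card ι) ^ 2 ≤ 4 * J * (H : ℝ) ^ Fintype.card ι * U := by
  classical
  let S : ℕ → ℂ := fun j => ∑ u ∈ box0 ι H, ex ((j : ℝ) * (X ⬝ᵥ u : ℤ) / J)
  have h1 : ∀ j : ℕ, (∀ i, nd ((j : ℝ) / J * X i) ≤ r) →
      ((H : ℝ) ^ Fintype.card ι) ^ 2 ≤ 4 * ‖S j‖ ^ 2 := by
    intro j hj
    have h2 : (H : ℝ) ^ Fintype.card ι / 2 ≤ ‖S j‖ := by
      refine le_trans ?_ (Complex.re_le_norm _)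
      simp only [S, Complex.re_sum]
      refine le_trans (le_of_eq ?_) (Finset.card_nsmul_le_sum _ _ (1 / 2 : ℝ) fun u hu => ?_)
      · rw [card_box0, nsmul_eq_mul]; push_cast; ring
      · have h3 : (j : ℝ) * (X ⬝ᵥ u : ℤ) / J =
            ∑ i, ((j : ℝ) / J * X i - round ((j : ℝ) / J * X i)) * u i +
              ((∑ i, round ((j : ℝ) / J * X i) * u i : ℤ) : ℝ) := by
          simp only [dotProduct]
          push_cast
          rw [← Finset.sum_add_distrib, Finset.mul_sum, Finset.sum_div]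
          exact Finset.sum_congr rfl fun i _ => by ring
        rw [h3, ex_add_int]
        refine re_ex_ge ((Finset.abs_sum_le_sum_abs _ _).trans ?_)
        refine (Finset.sum_le_card_nsmul _ _ (r * H) fun i _ => ?_).trans ?_
        · rw [abs_mul]
          have h4 := mem_box0.1 hu i
          have h5 : |(u i : ℝ)| ≤ H := by
            rw [abs_of_nonneg (by exact_mod_cast h4.1)]
            exact_mod_cast h4.2.le
          exact mul_le_mul (hj i) h5 (abs_nonneg _) ((nd_nonneg _).trans (hj i))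
        · rw [Finset.card_univ, nsmul_eq_mul]
          linarith
    have h3 : 0 ≤ (H : ℝ) ^ Fintype.card ι / 2 := by positivity
    nlinarith
  have h2 : ∑ j ∈ range J, ((‖S j‖ ^ 2 : ℝ) : ℂ) =
      ∑ u' ∈ box0 ι H, ∑ u ∈ box0 ι H, if X ⬝ᵥ u = X ⬝ᵥ u' then (J : ℂ) else 0 := by
    have h3 : ∀ j : ℕ, ((‖S j‖ ^ 2 : ℝ) : ℂ) =
        ∑ u' ∈ box0 ι H, ∑ u ∈ box0 ι H, ex ((j : ℝ) * (X ⬝ᵥ (u - u') : ℤ) / J) := by
      intro j
      rw [Complex.ofReal_pow, ← Complex.mul_conj', map_sum, Finset.sum_mul_sum, Finset.sum_comm]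
      refine Finset.sum_congr rfl fun u' _ => Finset.sum_congr rfl fun u _ => ?_
      rw [conj_ex, ← ex_add, dotProduct_sub]
      congr 1
      push_cast
      ring
    simp only [h3]
    rw [Finset.sum_comm]
    refine Finset.sum_congr rfl fun u' hu' => ?_
    rw [Finset.sum_comm]
    refine Finset.sum_congr rfl fun u hu => ?_
    rw [sum_ex J hJ]
    have h4 : (J : ℤ) ∣ X ⬝ᵥ (u - u') ↔ X ⬝ᵥ u = X ⬝ᵥ u' := by
      constructor
      · intro h5
        have := Int.eq_zero_of_abs_lt_dvd h5 (hXJ u hu u' hu')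
        rwa [dotProduct_sub, sub_eq_zero] at this
      · intro h5
        rw [dotProduct_sub, h5, sub_self]
        exact dvd_zero _
    simp only [h4]
  have h3 : ∑ j ∈ range J, ‖S j‖ ^ 2 =
      ∑ u' ∈ box0 ι H, (((box0 ι H).filter fun u => X ⬝ᵥ u = X ⬝ᵥ u').card : ℝ) * J := by
    apply Complex.ofReal_injective
    rw [Complex.ofReal_sum, h2, Complex.ofReal_sum]
    refine Finset.sum_congr rfl fun u' _ => ?_
    rw [← Finset.sum_filter, Finset.sum_const, nsmul_eq_mul]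
    push_cast
    rfl
  have h4 : ∑ j ∈ range J, ‖S j‖ ^ 2 ≤ (H : ℝ) ^ Fintype.card ι * (U * J) := by
    rw [h3]
    refine (Finset.sum_le_card_nsmul _ _ ((U : ℝ) * J) fun u' _ => ?_).trans ?_
    · have : (((box0 ι H).filter fun u => X ⬝ᵥ u = X ⬝ᵥ u').card : ℝ) ≤ U := by
        exact_mod_cast hU _
      gcongr
    · rw [card_box0, nsmul_eq_mul]
      push_cast
      rfl
  calc (((range J).filter fun j : ℕ => ∀ i, nd ((j : ℝ) / J * X i) ≤ r).card : ℝ) *
        ((H : ℝ) ^ Fintype.card ι) ^ 2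
      ≤ ∑ j ∈ (range J).filter fun j : ℕ => ∀ i, nd ((j : ℝ) / J * X i) ≤ r, 4 * ‖S j‖ ^ 2 := by
        rw [← nsmul_eq_mul]
        exact Finset.card_nsmul_le_sum _ _ _ fun j hj => h1 j (mem_filter.1 hj).2
    _ ≤ ∑ j ∈ range J, 4 * ‖S j‖ ^ 2 :=
        Finset.sum_le_sum_of_subset_of_nonneg (filter_subset _ _) fun _ _ _ => by positivity
    _ ≤ _ := by
        rw [← Finset.mul_sum]
        linarith

omit [DecidableEq ι] in
theorem farey_bohr_le (X : ι → ℤ) (Y J : ℕ) (hJ : Y ^ 2 ≤ J) (hJ0 : 0 < J) {r : ℝ}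
    (hXr : ∀ i, |(X i : ℝ)| ≤ r * J) :
    ((farey Y).filter fun t => del X t ≤ r).card ≤
      ((range J).filter fun j : ℕ => ∀ i, nd ((j : ℝ) / J * X i) ≤ 2 * r).card := by
  classical
  have hJ' : (0 : ℚ) < J := by exact_mod_cast hJ0
  have hJr : (0 : ℝ) < J := by exact_mod_cast hJ0
  refine Finset.card_le_card_of_injOn (fun t => ⌊t * J⌋₊) ?_ ?_
  · intro t ht
    obtain ⟨ht1, ht2⟩ := mem_filter.1 (mem_coe.1 ht)
    obtain ⟨h0, h1, -⟩ := mem_farey.1 ht1
    refine mem_coe.2 (mem_filter.2 ⟨mem_range.2 ?_, fun i => ?_⟩)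
    · rw [Nat.floor_lt (by positivity)]
      nlinarith
    · have h2 : ((⌊t * J⌋₊ : ℕ) : ℝ) ≤ t * J := by
        exact_mod_cast Nat.floor_le (show 0 ≤ t * J by positivity)
      have h3 : (t : ℝ) * J < (⌊t * J⌋₊ : ℕ) + 1 := by
        exact_mod_cast Nat.lt_floor_add_one (t * J)
      have h4 : ((⌊t * J⌋₊ : ℕ) : ℝ) / J * X i =
          t * X i + (((⌊t * J⌋₊ : ℕ) : ℝ) - t * J) * (X i / J) := by
        field_simp
        ring
      have h5 : |((⌊t * J⌋₊ : ℕ) : ℝ) - t * J| ≤ 1 := by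
        rw [abs_le]; constructor <;> linarith
      have h6 : |(X i : ℝ) / J| ≤ r := by
        rw [abs_div, abs_of_pos hJr, div_le_iff₀ hJr]
        exact hXr i
      have h7 : nd ((t : ℝ) * X i) ≤ r := (nd_le_ndv (fun i => (t : ℝ) * X i) i).trans ht2
      simp only
      rw [h4]
      refine (nd_add_le _ _).trans ?_
      rw [abs_mul]
      have h8 : |((⌊t * J⌋₊ : ℕ) : ℝ) - t * J| * |(X i : ℝ) / J| ≤ 1 * r := by gcongr
      linarith
  · intro t ht t' ht' hff
    obtain ⟨h0, -, h1⟩ := mem_farey.1 (mem_filter.1 (mem_coe.1 ht)).1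
    obtain ⟨h0', -, h1'⟩ := mem_farey.1 (mem_filter.1 (mem_coe.1 ht')).1
    have e1 := Nat.floor_le (show 0 ≤ t * J by positivity)
    have e2 := Nat.lt_floor_add_one (t * J)
    have e3 := Nat.floor_le (show 0 ≤ t' * J by positivity)
    have e4 := Nat.lt_floor_add_one (t' * J)
    simp only at hff
    rw [hff] at e1 e2
    have e5 : |(t - t') * J| < 1 := by rw [abs_lt]; constructor <;> linarith
    have hk : (t - t') * (t.den * t'.den) = (t.num * t'.den - t'.num * t.den : ℤ) := by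
      push_cast
      rw [← Rat.mul_den_eq_num t, ← Rat.mul_den_eq_num t']
      ring
    have e6 : ((t.den * t'.den : ℕ) : ℚ) ≤ J := by
      exact_mod_cast (Nat.mul_le_mul h1 h1').trans (by rw [← sq]; exact hJ)
    have e7 : |((t.num * t'.den - t'.num * t.den : ℤ) : ℚ)| < 1 := by
      rw [← hk]
      refine lt_of_le_of_lt ?_ e5
      rw [abs_mul, abs_mul (t - t')]
      refine mul_le_mul_of_nonneg_left ?_ (abs_nonneg _)
      rw [abs_of_pos hJ', abs_of_nonneg (by positivity)]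
      exact_mod_cast e6
    have e8 : |t.num * t'.den - t'.num * t.den| < 1 := by exact_mod_cast e7
    have e9 : t.num * t'.den - t'.num * t.den = 0 := Int.abs_lt_one_iff.1 e8
    rw [e9, Int.cast_zero, mul_eq_zero] at hk
    rcases hk with hk | hk
    · exact sub_eq_zero.1 hk
    · exfalso
      have : (0 : ℚ) < t.den * t'.den := by exact_mod_cast Nat.mul_pos t.pos t'.pos
      exact this.ne' hk

/-- The number of Farey fractions in a Bohr set. -/
theorem card_bohr_le [Nonempty ι] (X : ι → ℤ) (Y J H h M : ℕ) (hh : 0 < h) (hH : 0 < H)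
    (hJ : Y ^ 2 ≤ J) (hM : ∀ i, |X i| ≤ M) (hJ2 : Fintype.card ι * M * H < J) {r : ℝ}
    (hMr : (M : ℝ) ≤ r * J) (hr : Fintype.card ι * H * (2 * r) ≤ 1 / 6)
    (hX : ∀ v : ι → ℤ, v ≠ 0 → (∀ i, |v i| ≤ Fintype.card ι * h) → X ⬝ᵥ v ≠ 0) :
    (((farey Y).filter fun t => del X t ≤ r).card : ℝ) * (H : ℝ) ^ Fintype.card ι ≤
      4 * J * ((H / h + 1 : ℕ) : ℝ) ^ (Fintype.card ι - 1) := by
  have hJ0 : 0 < J := by omega
  have h1 := farey_bohr_le X Y J hJ hJ0 (r := r) fun i => by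
    have : ((|X i| : ℤ) : ℝ) ≤ M := by exact_mod_cast hM i
    push_cast at this
    linarith
  have h2 := bohr_grid_le X J H _ hJ0 hr (fun u hu u' hu' => by
    have h3 : |X ⬝ᵥ (u - u')| ≤ Fintype.card ι * M * H := by
      refine (Finset.abs_sum_le_sum_abs _ _).trans ?_
      refine (Finset.sum_le_card_nsmul _ _ ((M : ℤ) * H) fun i _ => ?_).trans ?_
      · rw [abs_mul]
        have e1 := mem_box0.1 hu i
        have e2 := mem_box0.1 hu' i
        refine mul_le_mul (hM i) ?_ (abs_nonneg _) (by positivity)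
        simp only [Pi.sub_apply]
        rw [abs_le]; constructor <;> linarith
      · rw [Finset.card_univ, nsmul_eq_mul, mul_assoc]
    have h4 : ((Fintype.card ι * M * H : ℕ) : ℤ) < J := by exact_mod_cast hJ2
    push_cast at h4
    linarith) (card_hyper_le X h H hh hX)
  have h3 : (((farey Y).filter fun t => del X t ≤ r).card : ℝ) ≤
      (((range J).filter fun j : ℕ => ∀ i, nd ((j : ℝ) / J * X i) ≤ 2 * r).card : ℝ) := by
    exact_mod_cast h1
  have hH' : (0 : ℝ) < (H : ℝ) ^ Fintype.card ι := by positivity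
  refine le_of_mul_le_mul_right ?_ hH'
  push_cast at h2 ⊢
  calc _ = (((farey Y).filter fun t => del X t ≤ r).card : ℝ) * ((H : ℝ) ^ Fintype.card ι) ^ 2 := by
        ring
    _ ≤ (((range J).filter fun j : ℕ => ∀ i, nd ((j : ℝ) / J * X i) ≤ 2 * r).card : ℝ) *
          ((H : ℝ) ^ Fintype.card ι) ^ 2 := by gcongr
    _ ≤ _ := h2.trans (le_of_eq (by ring))

end Pool.Agent.P.MP_d565f2_an
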