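import Pool.Agent.P.MP_d565f2_an.Short2

set_option autoImplicit false

open Finset ArithmeticFunction
open scoped ArithmeticFunction.Moebius

namespace Pool.Agent.P.MP_d565f2_an

theorem fract_sub_mem {R : ℕ} {s s' : ℚ} (hs : s ∈ farey R) (hs' : s' ∈ farey R) :
    Int.fract (s - s') ∈ farey (R ^ 2) := by
  refine mem_farey.2 ⟨Int.fract_nonneg _, Int.fract_lt_one _, ?_⟩
  have h1 : (Int.fract (s - s')).den = (s - s').den := Rat.sub_intCast_den _ _
  rw [h1, sq]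
  exact (Nat.le_of_dvd (Nat.mul_pos s.pos s'.pos) (Rat.sub_den_dvd s s')).trans
    (Nat.mul_le_mul (mem_farey.1 hs).2.2 (mem_farey.1 hs').2.2)

theorem eq_of_sub_int {R : ℕ} {s s' : ℚ} (hs : s ∈ farey R) (hs' : s' ∈ farey R) {z : ℤ}
    (h : s - s' = z) : s = s' := by
  obtain ⟨h1, h2, -⟩ := mem_farey.1 hs
  obtain ⟨h3, h4, -⟩ := mem_farey.1 hs'
  have h5 : (z : ℚ) < 1 := by linarith
  have h6 : (-1 : ℚ) < z := by linarith
  have h7 : z < 1 := by exact_mod_cast h5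
  have h8 : -1 < z := by exact_mod_cast h6
  have h9 : z = 0 := by omega
  rw [h9, Int.cast_zero] at h
  exact sub_eq_zero.1 h

/-- The Selberg type weight combined with the Schur test. -/
theorem sieve_ineq {σ : Type*} (Ω Ω₀ : Finset σ) (g : σ → ℤ) (R : ℕ) (hΩ : Ω₀ ⊆ Ω)
    (hp : ∀ x ∈ Ω₀, ∃ p : ℕ, p.Prime ∧ R < p ∧ g x = p) :
    Ω₀.card * selL R ≤ ∑ s ∈ farey (R ^ 2), ‖∑ x ∈ Ω, ex ((s : ℝ) * g x)‖ := by
  classical
  set B := ∑ s ∈ farey (R ^ 2), ‖∑ x ∈ Ω, ex ((s : ℝ) * g x)‖ with hB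
  have hB0 : 0 ≤ B := Finset.sum_nonneg fun _ _ => norm_nonneg _
  have hL0 : 0 ≤ selL R := Finset.sum_nonneg fun _ _ => by positivity
  let a : ℚ → ℝ := fun s => ((μ s.den : ℤ) : ℝ) / s.den
  let La : ℤ → ℂ := fun n => ∑ s ∈ farey R, (a s : ℂ) * ex ((s : ℝ) * n)
  let E : ℚ → ℂ := fun s => ∑ x ∈ Ω, ex ((s : ℝ) * g x)
  have hmaps : ∀ s ∈ farey R, s.den ∈ Icc 1 R := fun s hs =>
    mem_Icc.2 ⟨s.pos, (mem_farey.1 hs).2.2⟩
  have h1 : ∀ p : ℕ, p.Prime → R < p → La p = (selL R : ℂ) := by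
    intro p hp hR
    simp only [La, selL]
    rw [← Finset.sum_fiberwise_of_maps_to hmaps, Complex.ofReal_sum]
    refine Finset.sum_congr rfl fun q hq => ?_
    have h2 := ramanujan hp hR q (mem_Icc.1 hq).1 (mem_Icc.1 hq).2
    calc ∑ s ∈ (farey R).filter (fun s => s.den = q), (a s : ℂ) * ex ((s : ℝ) * ((p : ℤ) : ℝ))
        = ∑ s ∈ (farey R).filter (fun s => s.den = q),
            ((((μ q : ℤ) : ℝ) / q : ℝ) : ℂ) * ex ((s : ℝ) * p) := by
          refine Finset.sum_congr rfl fun s hs => ?_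
          simp only [a, (mem_filter.1 hs).2]
          rfl
      _ = _ := by
          rw [← Finset.mul_sum, h2]
          push_cast
          ring
  have h2 : ∑ s ∈ farey R, a s ^ 2 ≤ selL R := by
    rw [← Finset.sum_fiberwise_of_maps_to hmaps, selL]
    refine Finset.sum_le_sum fun q hq => ?_
    have hq0 : (0 : ℝ) < q := by exact_mod_cast (mem_Icc.1 hq).1
    calc ∑ s ∈ (farey R).filter (fun s => s.den = q), a s ^ 2
        = ((farey R).filter (fun s => s.den = q)).card * (((μ q : ℤ) : ℝ) / q) ^ 2 := by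
          rw [← nsmul_eq_mul, ← Finset.sum_const]
          refine Finset.sum_congr rfl fun s hs => ?_
          simp only [a, (mem_filter.1 hs).2]
      _ ≤ q * (((μ q : ℤ) : ℝ) / q) ^ 2 := by
          gcongr
          exact_mod_cast card_farey_den_eq R q
      _ = _ := by field_simp
  have hEfract : ∀ s : ℚ, E s = E (Int.fract s) := by
    intro s
    refine Finset.sum_congr rfl fun x _ => ?_
    rw [← ex_add_int (((Int.fract s : ℚ) : ℝ) * g x) (⌊s⌋ * g x)]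
    congr 1
    rw [Int.fract]
    push_cast
    ring
  have h3 : ∀ s ∈ farey R, ∑ s' ∈ farey R, ‖E (s - s')‖ ≤ B := by
    intro s hs
    simp only [fun s' => hEfract (s - s')]
    rw [← Finset.sum_image (f := fun t => ‖E t‖) (g := fun s' => Int.fract (s - s'))]
    · refine Finset.sum_le_sum_of_subset_of_nonneg ?_ fun _ _ _ => norm_nonneg _
      intro t ht
      obtain ⟨s', hs', rfl⟩ := mem_image.1 ht
      exact fract_sub_mem hs hs'
    · intro s₁ h₁ s₂ h₂ h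
      obtain ⟨z, hz⟩ := Int.fract_eq_fract.1 h
      exact (eq_of_sub_int h₂ h₁ (z := z) (by linarith)).symm
  have h4 : ∀ s' ∈ farey R, ∑ s ∈ farey R, ‖E (s - s')‖ ≤ B := by
    intro s' hs'
    simp only [fun s => hEfract (s - s')]
    rw [← Finset.sum_image (f := fun t => ‖E t‖) (g := fun s => Int.fract (s - s'))]
    · refine Finset.sum_le_sum_of_subset_of_nonneg ?_ fun _ _ _ => norm_nonneg _
      intro t ht
      obtain ⟨s, hs, rfl⟩ := mem_image.1 ht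
      exact fract_sub_mem hs hs'
    · intro s₁ h₁ s₂ h₂ h
      obtain ⟨z, hz⟩ := Int.fract_eq_fract.1 h
      exact eq_of_sub_int h₁ h₂ (z := z) (by linarith)
  have h5 : ((∑ x ∈ Ω, ‖La (g x)‖ ^ 2 : ℝ) : ℂ) =
      ∑ s ∈ farey R, ∑ s' ∈ farey R, ((a s * a s' : ℝ) : ℂ) * E (s - s') := by
    rw [Complex.ofReal_sum]
    have h6 : ∀ x, ((‖La (g x)‖ ^ 2 : ℝ) : ℂ) = ∑ s ∈ farey R, ∑ s' ∈ farey R,
        ((a s * a s' : ℝ) : ℂ) * ex (((s - s' : ℚ) : ℝ) * g x) := by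
      intro x
      rw [Complex.ofReal_pow, ← Complex.mul_conj', map_sum, Finset.sum_mul_sum]
      refine Finset.sum_congr rfl fun s _ => Finset.sum_congr rfl fun s' _ => ?_
      have h7 : ((s - s' : ℚ) : ℝ) * g x = s * g x + -(s' * g x) := by push_cast; ring
      rw [map_mul, conj_ex, Complex.conj_ofReal, h7, ex_add]
      push_cast
      ring
    simp only [h6, E, Finset.mul_sum]
    rw [Finset.sum_comm]
    exact Finset.sum_congr rfl fun s _ => Finset.sum_comm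
  have h6 : ∑ x ∈ Ω, ‖La (g x)‖ ^ 2 ≤ selL R * B := by
    have h7 : ∑ x ∈ Ω, ‖La (g x)‖ ^ 2 ≤
        ∑ s ∈ farey R, ∑ s' ∈ farey R, (a s ^ 2 / 2 + a s' ^ 2 / 2) * ‖E (s - s')‖ := by
      refine (le_abs_self _).trans ?_
      rw [← Real.norm_eq_abs, ← Complex.norm_real, h5]
      refine (norm_sum_le _ _).trans (Finset.sum_le_sum fun s _ => ?_)
      refine (norm_sum_le _ _).trans (Finset.sum_le_sum fun s' _ => ?_)
      rw [norm_mul, Complex.norm_real, Real.norm_eq_abs]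
      refine mul_le_mul_of_nonneg_right ?_ (norm_nonneg _)
      rw [abs_le]
      constructor <;> nlinarith [sq_nonneg (a s - a s'), sq_nonneg (a s + a s')]
    refine h7.trans ?_
    simp only [add_mul, Finset.sum_add_distrib]
    rw [Finset.sum_comm (f := fun s s' => a s' ^ 2 / 2 * ‖E (s - s')‖)]
    simp only [← Finset.mul_sum]
    have h8 : ∑ s ∈ farey R, a s ^ 2 / 2 * ∑ s' ∈ farey R, ‖E (s - s')‖ ≤
        ∑ s ∈ farey R, a s ^ 2 / 2 * B :=
      Finset.sum_le_sum fun s hs => mul_le_mul_of_nonneg_left (h3 s hs) (by positivity)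
    have h9 : ∑ s' ∈ farey R, a s' ^ 2 / 2 * ∑ s ∈ farey R, ‖E (s - s')‖ ≤
        ∑ s ∈ farey R, a s ^ 2 / 2 * B :=
      Finset.sum_le_sum fun s hs => mul_le_mul_of_nonneg_left (h4 s hs) (by positivity)
    rw [← Finset.sum_mul, ← Finset.sum_div] at h8 h9
    nlinarith
  have h7 : Ω₀.card * selL R ^ 2 ≤ ∑ x ∈ Ω, ‖La (g x)‖ ^ 2 := by
    refine le_trans ?_ (Finset.sum_le_sum_of_subset_of_nonneg hΩ fun _ _ _ => by positivity)
    rw [← nsmul_eq_mul]
    refine Finset.card_nsmul_le_sum _ _ _ fun x hx => ?_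
    obtain ⟨p, hp1, hp2, hp3⟩ := hp x hx
    rw [hp3, h1 p hp1 hp2, Complex.norm_real, Real.norm_of_nonneg hL0]
  rcases hL0.eq_or_lt with h0 | h0
  · rw [← h0, mul_zero]; exact hB0
  · refine le_of_mul_le_mul_left ?_ h0
    nlinarith

theorem cube_Psi_le {s ρ : ℝ} (hs : 0 < s) (hsρ : s ≤ ρ) (c : ℝ) :
    s ^ 3 * Psi (s * c) ≤ ρ ^ 3 * Psi (ρ * c) := by
  unfold Psi
  have h1 : 0 < max 1 (s * c) := lt_of_lt_of_le one_pos (le_max_left _ _)
  have h2 : 0 < max 1 (ρ * c) := lt_of_lt_of_le one_pos (le_max_left _ _)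
  have h3 : s / max 1 (s * c) ≤ ρ / max 1 (ρ * c) := by
    rw [div_le_div_iff₀ h1 h2]
    rcases le_total 1 (ρ * c) with h | h
    · rw [max_eq_right h]
      have := le_max_right 1 (s * c)
      nlinarith
    · rw [max_eq_left h]
      have := le_max_left 1 (s * c)
      nlinarith
  rw [mul_one_div, mul_one_div, ← div_pow, ← div_pow]
  gcongr

theorem card_mul_den_le (t : ℚ) (M Q : ℕ) :
    (((Icc 1 M).filter fun m : ℕ => ((m : ℚ) * t).den ≤ Q).card : ℝ) ≤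
      (Q : ℝ) ^ 2 * M / t.den := by
  have hden : (0 : ℝ) < t.den := by exact_mod_cast t.pos
  have hdvd : ∀ m : ℕ, t.den ∣ m * ((m : ℚ) * t).den := by
    intro m
    have h1 : ((m * ((m : ℚ) * t).den : ℕ) : ℚ) * t = (((m : ℚ) * t).num : ℚ) := by
      rw [← Rat.mul_den_eq_num]
      push_cast
      ring
    have h2 : ((m * ((m : ℚ) * t).den : ℕ) : ℤ) * t.num = ((m : ℚ) * t).num * t.den := by
      have h3 : ((m * ((m : ℚ) * t).den : ℕ) : ℚ) * t.num = ((m : ℚ) * t).num * t.den := by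
        rw [← h1, ← Rat.mul_den_eq_num t]
        ring
      exact_mod_cast h3
    have h4 : (t.den : ℤ) ∣ ((m * ((m : ℚ) * t).den : ℕ) : ℤ) * t.num := ⟨_, by rw [h2, mul_comm]⟩
    have h5 : IsCoprime (t.den : ℤ) t.num := by
      rw [Int.isCoprime_iff_gcd_eq_one, Int.gcd_comm]
      exact t.reduced
    exact_mod_cast h5.dvd_of_dvd_mul_right h4
  have h1 : ((Icc 1 M).filter fun m : ℕ => ((m : ℚ) * t).den ≤ Q).card ≤
      (Icc 1 Q ×ˢ Icc 1 (Q * M / t.den)).card := by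
    refine Finset.card_le_card_of_injOn
      (fun m => (((m : ℚ) * t).den, m * ((m : ℚ) * t).den / t.den)) ?_ ?_
    · intro m hm
      obtain ⟨hm1, hm2⟩ := mem_filter.1 (mem_coe.1 hm)
      obtain ⟨hm3, hm4⟩ := mem_Icc.1 hm1
      have hpos := ((m : ℚ) * t).pos
      simp only [coe_product, Set.mem_prod, coe_Icc, Set.mem_Icc]
      refine ⟨⟨hpos, hm2⟩, ?_, Nat.div_le_div_right ?_⟩
      · exact Nat.div_pos (Nat.le_of_dvd (Nat.mul_pos hm3 hpos) (hdvd m)) t.pos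
      · rw [mul_comm]
        exact Nat.mul_le_mul hm2 hm4
    · intro m _ m' _ h
      simp only [Prod.mk.injEq] at h
      have h2 := Nat.div_mul_cancel (hdvd m)
      have h3 := Nat.div_mul_cancel (hdvd m')
      rw [h.2, h3, h.1] at h2
      exact (Nat.eq_of_mul_eq_mul_right ((m' : ℚ) * t).pos h2).symm
  rw [Finset.card_product, Nat.card_Icc, Nat.card_Icc, Nat.add_sub_cancel, Nat.add_sub_cancel] at h1
  have h2 : ((Q * M / t.den : ℕ) : ℝ) ≤ Q * M / t.den := by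
    have := Nat.cast_div_le (α := ℝ) (m := Q * M) (n := t.den)
    push_cast at this
    exact this
  calc (((Icc 1 M).filter fun m : ℕ => ((m : ℚ) * t).den ≤ Q).card : ℝ)
      ≤ Q * ((Q * M / t.den : ℕ) : ℝ) := by exact_mod_cast h1
    _ ≤ Q * (Q * M / t.den) := by gcongr
    _ = _ := by ring

theorem sum_shift_le (G : ℚ → ℝ) (hG : ∀ t, 0 ≤ G t) (Q M m : ℕ) (hm : 0 < m) (hmM : m ≤ M) :
    ∑ s ∈ farey Q, ∑ a ∈ range m, G ((a + s) / m) ≤
      ∑ t ∈ (farey (Q * M)).filter (fun t => ((m : ℚ) * t).den ≤ Q), G t := by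
  classical
  have hm' : (0 : ℚ) < m := by exact_mod_cast hm
  rw [← Finset.sum_product', ← Finset.sum_image (f := G)
    (g := fun x : ℚ × ℕ => ((x.2 : ℚ) + x.1) / m)]
  · refine Finset.sum_le_sum_of_subset_of_nonneg ?_ fun _ _ _ => hG _
    intro t ht
    obtain ⟨⟨s, a⟩, hx, rfl⟩ := mem_image.1 ht
    obtain ⟨hs, ha⟩ := mem_product.1 hx
    obtain ⟨h0, h1, h2⟩ := mem_farey.1 hs
    have ha' : (a : ℚ) + 1 ≤ m := by exact_mod_cast mem_range.1 ha
    simp only at h0 h1 h2 ⊢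
    have h3 : (m : ℚ) * (((a : ℚ) + s) / m) = s + (a : ℤ) := by
      push_cast
      field_simp
      ring
    refine mem_filter.2 ⟨mem_farey.2 ⟨by positivity, ?_, ?_⟩, ?_⟩
    · rw [div_lt_one hm']; linarith
    · have hden : (0 : ℚ) < s.den := by exact_mod_cast s.pos
      have h4 : ((a : ℚ) + s) / m = ((a * s.den + s.num : ℤ) : ℚ) / ((s.den * m : ℕ) : ℚ) := by
        push_cast
        rw [← Rat.mul_den_eq_num s]
        field_simp
      rw [h4]
      exact (Nat.le_of_dvd (Nat.mul_pos s.pos hm) (den_div_dvd _ _)).trans (Nat.mul_le_mul h2 hmM)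
    · rw [h3, Rat.add_intCast_den]
      exact h2
  · rintro ⟨s, a⟩ hx ⟨s', a'⟩ hx' h
    have hs := (mem_product.1 (mem_coe.1 hx)).1
    have hs' := (mem_product.1 (mem_coe.1 hx')).1
    have h1 : (a : ℚ) + s = a' + s' := (div_left_inj' hm'.ne').1 h
    have h2 : s = s' := eq_of_sub_int hs hs' (z := a' - a) (by push_cast; linarith)
    subst h2
    have h3 : (a : ℚ) = a' := by linarith
    have h4 : a = a' := by exact_mod_cast h3
    rw [h4]

variable {ι : Type*} [Fintype ι] [DecidableEq ι]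

theorem sum_dvd_ex_eq (x : ι → ℤ) (n m : ℕ) (hm : 0 < m) (s : ℚ) :
    ∑ z ∈ (sph ι n).filter (fun z => (m : ℤ) ∣ 2 * (x ⬝ᵥ z)),
      ex ((s : ℝ) * ((2 * (x ⬝ᵥ z) / m : ℤ) : ℝ)) =
      (m : ℂ)⁻¹ * ∑ a ∈ range m, FF ι n fun i => ((((a : ℚ) + s) / m : ℚ) : ℝ) * (2 * x i : ℤ) := by
  have hm' : (m : ℝ) ≠ 0 := by positivity
  have hmc : (m : ℂ) ≠ 0 := by exact_mod_cast hm.ne'
  simp only [FF]
  rw [Finset.sum_comm, Finset.sum_filter, Finset.mul_sum]
  refine Finset.sum_congr rfl fun z _ => ?_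
  have h1 : ∀ a : ℕ, ex (∑ i, ((((a : ℚ) + s) / m : ℚ) : ℝ) * (2 * x i : ℤ) * z i) =
      ex ((a : ℝ) * ((2 * (x ⬝ᵥ z) : ℤ) : ℝ) / m) * ex (s * ((2 * (x ⬝ᵥ z) : ℤ) : ℝ) / m) := by
    intro a
    rw [← ex_add]
    congr 1
    simp only [dotProduct]
    push_cast
    rw [← add_div, ← add_mul, Finset.mul_sum, Finset.mul_sum, Finset.sum_div]
    exact Finset.sum_congr rfl fun i _ => by ring
  simp only [h1]
  rw [← Finset.sum_mul, sum_ex m hm]
  split_ifs with h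
  · obtain ⟨k, hk⟩ := h
    rw [hk, Int.mul_ediv_cancel_left _ (by exact_mod_cast hm.ne'), ← mul_assoc,
      inv_mul_cancel₀ hmc, one_mul]
    congr 1
    push_cast
    field_simp
  · simp

omit [DecidableEq ι] in
theorem card_exact_le (X x f : ι → ℤ) (hf : ∑ i, x i * f i = 1) (e : ℕ) (he : 0 < e)
    (hX : ∀ i, X i = e * x i) (T : Finset ℚ) (Y : ℕ) (hT : T ⊆ farey Y)
    (h0 : ∀ t ∈ T, del X t = 0) : T.card ≤ e := by
  have key : ∀ t ∈ T, ∃ k : ℤ, t * e = k := by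
    intro t ht
    have h1 : ∀ i, t * X i = (round ((t : ℝ) * X i) : ℤ) := by
      intro i
      have h2 : nd ((t : ℝ) * X i) ≤ 0 :=
        (nd_le_ndv (fun i => (t : ℝ) * X i) i).trans (h0 t ht).le
      have h3 : (t : ℝ) * X i = round ((t : ℝ) * X i) := sub_eq_zero.1 (abs_nonpos_iff.1 h2)
      exact_mod_cast h3
    refine ⟨∑ i, round ((t : ℝ) * X i) * f i, ?_⟩
    have h2 : ((∑ i, x i * f i : ℤ) : ℚ) = 1 := by rw [hf]; simp
    push_cast at h2 ⊢
    simp only [← h1]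
    rw [← mul_one (t * e), ← h2, Finset.mul_sum]
    refine Finset.sum_congr rfl fun i _ => ?_
    rw [hX i]
    push_cast
    ring
  refine card_le_of_diff_int e T (fun t ht => ?_) he fun t ht t' ht' => ?_
  · have := mem_farey.1 (hT ht)
    exact ⟨this.1, this.2.1⟩
  · obtain ⟨k, hk⟩ := key t ht
    obtain ⟨k', hk'⟩ := key t' ht'
    exact ⟨k - k', by push_cast; rw [← hk, ← hk']; ring⟩

/-- The sum over fractions with nonzero short vector. -/
noncomputable def NS (x : ι → ℤ) (Y ρ q : ℕ) : ℝ :=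
  ∑ t ∈ (farey Y).filter (fun t => del (fun i => (2 * q : ℕ) * x i) t ≠ 0),
    1 / (t.den : ℝ) * Psi (del (fun i => (2 * q : ℕ) * x i) t / (q / ρ))

open Classical in
theorem level0_count (hd : 9 ≤ Fintype.card ι) : ∃ C : ℝ, 0 ≤ C ∧
    ∀ (x f : ι → ℤ) (γ ρ R : ℕ), ∑ i, x i * f i = 1 → 0 < γ → 0 < ρ →
    ((((Icc 1 (ρ ^ 2 / γ)).sigma fun m => (sph ι (γ * m)).filter
        fun z => (m : ℤ) ∣ 2 * (x ⬝ᵥ z)).filter
      fun y : (_ : ℕ) × (ι → ℤ) =>
        ∃ p : ℕ, p.Prime ∧ R < p ∧ 2 * (x ⬝ᵥ y.2) / (y.1 : ℤ) = p).card : ℝ) * selL R ≤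
      C * (ρ : ℝ) ^ (Fintype.card ι - 2) *
        ∑ q ∈ Icc 1 ρ, 1 / √q ^ 7 * (2 * q + (R : ℝ) ^ 4 * NS x (R ^ 2 * (ρ ^ 2 / γ)) ρ q) := by
  classical
  have : Nonempty ι := Fintype.card_pos_iff.1 (by omega)
  obtain ⟨C, hC0, hC⟩ := FF_bound (ι := ι) hd
  refine ⟨C, hC0, fun x f γ ρ R hf hγ hρ => ?_⟩
  obtain ⟨e, he⟩ : ∃ e, Fintype.card ι = e + 7 := ⟨Fintype.card ι - 7, by omega⟩
  have he2 : Fintype.card ι - 2 = e + 5 := by omega
  rw [he2] at hC ⊢
  set M := ρ ^ 2 / γ with hM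
  have hγM : γ * M ≤ ρ ^ 2 := Nat.mul_div_le _ _
  have hρ' : (0 : ℝ) < ρ := by exact_mod_cast hρ
  have hγ' : (0 : ℝ) < γ := by exact_mod_cast hγ
  refine (sieve_ineq _ _ (fun y : (_ : ℕ) × (ι → ℤ) => 2 * (x ⬝ᵥ y.2) / (y.1 : ℤ)) R
    (filter_subset _ _) fun y hy => (mem_filter.1 hy).2).trans ?_
  let X : ℕ → ι → ℤ := fun q i => (2 * q : ℕ) * x i
  let G : ℚ → ℝ := fun t => ∑ q ∈ Icc 1 ρ, 1 / √q ^ 7 * Psi (del (X q) t / (q / ρ))
  have hG : ∀ t, 0 ≤ G t := fun t =>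
    Finset.sum_nonneg fun q _ => mul_nonneg (by positivity) (Psi_nonneg _)
  have hF : ∀ m ∈ Icc 1 M, ∀ t : ℚ, (m : ℝ)⁻¹ * ‖FF ι (γ * m) fun i => (t : ℝ) * (2 * x i : ℤ)‖ ≤
      C * γ * (ρ : ℝ) ^ (e + 3) * G t := by
    intro m hm t
    obtain ⟨hm1, hm2⟩ := mem_Icc.1 hm
    have hm' : (0 : ℝ) < m := by exact_mod_cast hm1
    have hγm : γ * m ≤ ρ ^ 2 := (Nat.mul_le_mul_left _ hm2).trans hγM
    have hpos : 0 < γ * m := Nat.mul_pos hγ hm1
    set s : ℝ := √((γ * m : ℕ) : ℝ) with hs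
    have hs0 : 0 < s := Real.sqrt_pos.2 (by exact_mod_cast hpos)
    have hs2 : s ^ 2 = γ * m := by rw [hs, Real.sq_sqrt (by positivity)]; push_cast; rfl
    have hsρ : s ≤ ρ := by
      rw [hs, Real.sqrt_le_left hρ'.le]
      exact_mod_cast hγm
    have hsub : Icc 1 (γ * m).sqrt ⊆ Icc 1 ρ :=
      Finset.Icc_subset_Icc_right (by
        have := Nat.sqrt_le_sqrt hγm
        rwa [Nat.sqrt_eq'] at this)
    have h1 := hC (γ * m) hpos fun i => (t : ℝ) * (2 * x i : ℤ)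
    have h2 : ∀ q : ℕ, (ndv fun i => (q : ℝ) * ((t : ℝ) * (2 * x i : ℤ))) = del (X q) t := by
      intro q
      unfold del
      congr 1
      funext i
      simp only [X]
      push_cast
      ring
    simp only [h2] at h1
    rw [← hs] at h1
    have h3 : s ^ 3 * ∑ q ∈ Icc 1 (γ * m).sqrt, 1 / √q ^ 7 * Psi (s * del (X q) t / q) ≤
        ρ ^ 3 * G t := by
      refine le_trans (mul_le_mul_of_nonneg_left (Finset.sum_le_sum_of_subset_of_nonneg hsub
        fun q _ _ => mul_nonneg (by positivity) (Psi_nonneg _)) (by positivity)) ?_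
      simp only [G, Finset.mul_sum]
      refine Finset.sum_le_sum fun q hq => ?_
      have hq' : (0 : ℝ) < q := by exact_mod_cast (mem_Icc.1 hq).1
      have h4 := cube_Psi_le hs0 hsρ (del (X q) t / q)
      have h5 : del (X q) t / (q / ρ) = ρ * (del (X q) t / q) := by field_simp
      rw [h5, mul_div_assoc, mul_left_comm, mul_left_comm ((ρ : ℝ) ^ 3)]
      exact mul_le_mul_of_nonneg_left h4 (by positivity)
    calc (m : ℝ)⁻¹ * ‖FF ι (γ * m) fun i => (t : ℝ) * (2 * x i : ℤ)‖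
        ≤ (m : ℝ)⁻¹ * (C * s ^ (e + 5) *
            ∑ q ∈ Icc 1 (γ * m).sqrt, 1 / √q ^ 7 * Psi (s * del (X q) t / q)) := by gcongr
      _ = C * γ * s ^ e * (s ^ 3 *
            ∑ q ∈ Icc 1 (γ * m).sqrt, 1 / √q ^ 7 * Psi (s * del (X q) t / q)) := by
          have : s ^ (e + 5) = s ^ e * s ^ 3 * (γ * m) := by rw [← hs2]; ring
          rw [this]
          field_simp
      _ ≤ C * γ * (ρ : ℝ) ^ e * (ρ ^ 3 * G t) := by
          gcongr
          exact mul_nonneg (by positivity)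
            (Finset.sum_nonneg fun q _ => mul_nonneg (by positivity) (Psi_nonneg _))
      _ = _ := by ring
  have h1 : ∀ s : ℚ, ‖∑ y ∈ (Icc 1 M).sigma fun m => (sph ι (γ * m)).filter
        fun z => (m : ℤ) ∣ 2 * (x ⬝ᵥ z), ex ((s : ℝ) * ((2 * (x ⬝ᵥ y.2) / (y.1 : ℤ) : ℤ) : ℝ))‖ ≤
      ∑ m ∈ Icc 1 M, C * γ * (ρ : ℝ) ^ (e + 3) * ∑ a ∈ range m, G ((a + s) / m) := by
    intro s
    rw [Finset.sum_sigma]
    refine (norm_sum_le _ _).trans (Finset.sum_le_sum fun m hm => ?_)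
    simp only
    rw [sum_dvd_ex_eq x _ m (mem_Icc.1 hm).1, norm_mul, norm_inv, Complex.norm_natCast]
    refine (mul_le_mul_of_nonneg_left (norm_sum_le _ _) (by positivity)).trans ?_
    rw [Finset.mul_sum, Finset.mul_sum]
    exact Finset.sum_le_sum fun a _ => hF m hm _
  refine (Finset.sum_le_sum fun s _ => h1 s).trans ?_
  rw [Finset.sum_comm]
  simp only [← Finset.mul_sum]
  have h2 : ∑ m ∈ Icc 1 M, ∑ s ∈ farey (R ^ 2), ∑ a ∈ range m, G ((a + s) / m) ≤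
      M * ∑ q ∈ Icc 1 ρ, 1 / √q ^ 7 * (2 * q + (R : ℝ) ^ 4 * NS x (R ^ 2 * M) ρ q) := by
    refine (Finset.sum_le_sum fun m hm =>
      sum_shift_le G hG (R ^ 2) M m (mem_Icc.1 hm).1 (mem_Icc.1 hm).2).trans ?_
    simp only [G]
    rw [Finset.sum_congr rfl fun m _ => Finset.sum_comm, Finset.sum_comm, Finset.mul_sum]
    refine Finset.sum_le_sum fun q hq => ?_
    have hq0 : 0 < q := (mem_Icc.1 hq).1
    simp only [← Finset.mul_sum]
    rw [mul_left_comm]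
    refine mul_le_mul_of_nonneg_left ?_ (by positivity)
    have h3 : ∀ m : ℕ, ∑ t ∈ (farey (R ^ 2 * M)).filter (fun t => ((m : ℚ) * t).den ≤ R ^ 2),
        Psi (del (X q) t / (q / ρ)) ≤ 2 * q +
        ∑ t ∈ (farey (R ^ 2 * M)).filter (fun t => del (X q) t ≠ 0),
          if ((m : ℚ) * t).den ≤ R ^ 2 then Psi (del (X q) t / (q / ρ)) else 0 := by
      intro m
      rw [← Finset.sum_filter_add_sum_filter_not _ (fun t => del (X q) t = 0)]
      refine add_le_add ?_ (le_of_eq ?_)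
      · refine (Finset.sum_le_card_nsmul _ _ 1 fun t _ => Psi_le_one _).trans ?_
        rw [nsmul_eq_mul, mul_one]
        exact_mod_cast card_exact_le (X q) x f hf (2 * q) (by omega) (fun _ => rfl) _ _
          ((filter_subset _ _).trans (filter_subset _ _)) fun t ht => (mem_filter.1 ht).2
      · rw [← Finset.sum_filter, Finset.filter_comm]
    refine (Finset.sum_le_sum fun m _ => h3 m).trans ?_
    rw [Finset.sum_add_distrib, Finset.sum_comm, mul_add]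
    refine add_le_add (by simp) ?_
    simp only [NS, Finset.mul_sum]
    refine Finset.sum_le_sum fun t _ => ?_
    rw [← Finset.sum_filter, Finset.sum_const, nsmul_eq_mul]
    have h4 := card_mul_den_le t M (R ^ 2)
    have h5 := Psi_nonneg (del (X q) t / (q / ρ))
    push_cast at h4
    calc _ ≤ ((R : ℝ) ^ 2) ^ 2 * M / t.den * Psi (del (X q) t / (q / ρ)) := by gcongr
      _ = _ := by simp only [X]; ring
  have h3 : 0 ≤ ∑ q ∈ Icc 1 ρ, 1 / √q ^ 7 * (2 * q + (R : ℝ) ^ 4 * NS x (R ^ 2 * M) ρ q) := by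
    refine Finset.sum_nonneg fun q _ => mul_nonneg (by positivity) (add_nonneg (by positivity)
      (mul_nonneg (by positivity) (Finset.sum_nonneg fun t _ =>
        mul_nonneg (by positivity) (Psi_nonneg _))))
  have h4 : (γ : ℝ) * M ≤ ρ ^ 2 := by exact_mod_cast hγM
  calc C * γ * (ρ : ℝ) ^ (e + 3) *
        ∑ m ∈ Icc 1 M, ∑ s ∈ farey (R ^ 2), ∑ a ∈ range m, G ((a + s) / m)
      ≤ C * γ * (ρ : ℝ) ^ (e + 3) * (M *
        ∑ q ∈ Icc 1 ρ, 1 / √q ^ 7 * (2 * q + (R : ℝ) ^ 4 * NS x (R ^ 2 * M) ρ q)) := by gcongr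
    _ = C * (ρ : ℝ) ^ (e + 3) * (γ * M) *
        ∑ q ∈ Icc 1 ρ, 1 / √q ^ 7 * (2 * q + (R : ℝ) ^ 4 * NS x (R ^ 2 * M) ρ q) := by ring
    _ ≤ C * (ρ : ℝ) ^ (e + 3) * ρ ^ 2 *
        ∑ q ∈ Icc 1 ρ, 1 / √q ^ 7 * (2 * q + (R : ℝ) ^ 4 * NS x (R ^ 2 * M) ρ q) := by gcongr
    _ = _ := by ring

end Pool.Agent.P.MP_d565f2_an
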