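import Pool.Agent.P.MP_d565f2_an.Sieve1

set_option autoImplicit false

open Finset

namespace Pool.Agent.P.MP_d565f2_an

theorem sum_Ioc_sqrt_le (a : ℕ) (ha : 0 < a) (N : ℕ) :
    ∑ q ∈ Ioc a N, 1 / √(q : ℝ) ^ 3 ≤ 2 / √a := by
  have key : ∀ n : ℕ, a ≤ n → ∑ q ∈ Ioc a n, 1 / √(q : ℝ) ^ 3 ≤ 2 / √a - 2 / √n := by
    intro n hn
    induction n, hn using Nat.le_induction with
    | base => simp
    | succ n hn ih =>
      rw [Finset.sum_Ioc_succ_top hn]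
      have hn0 : (0 : ℝ) < n := by exact_mod_cast lt_of_lt_of_le ha hn
      set u := √(n : ℝ) with hu
      set v := √((n + 1 : ℕ) : ℝ) with hv
      have hu0 : 0 < u := Real.sqrt_pos.2 hn0
      have huv : u ≤ v := Real.sqrt_le_sqrt (by push_cast; linarith)
      have hv0 : 0 < v := lt_of_lt_of_le hu0 huv
      have h1 : v ^ 2 = u ^ 2 + 1 := by
        rw [hu, hv, Real.sq_sqrt hn0.le, Real.sq_sqrt (by positivity)]
        push_cast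
        rfl
      have h2 : 1 / v ^ 3 ≤ 2 / u - 2 / v := by
        rw [div_sub_div _ _ hu0.ne' hv0.ne', div_le_div_iff₀ (by positivity) (by positivity)]
        have h3 : (v - u) * (v + u) = 1 := by linarith
        have h4 : u * v * (v + u) ≤ 2 * v ^ 3 := by nlinarith [mul_pos hu0 hv0]
        have h5 : 0 ≤ v - u := by linarith
        calc 1 * (u * v) = (v - u) * (u * v * (v + u)) := by rw [← h3]; ring
          _ ≤ (v - u) * (2 * v ^ 3) := by gcongr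
          _ = _ := by ring
      linarith
  rcases le_total a N with h | h
  · have := key N h
    have h2 : 0 ≤ 2 / √(N : ℝ) := by positivity
    linarith
  · rw [Finset.Ioc_eq_empty (by omega)]
    simp only [Finset.sum_empty]
    positivity

theorem sum_Icc_sqrt_le (N : ℕ) : ∑ q ∈ Icc 1 N, 1 / √(q : ℝ) ^ 3 ≤ 3 := by
  have h1 : Icc 1 N ⊆ insert 1 (Ioc 1 N) := by
    intro q hq
    simp only [mem_insert, mem_Icc, mem_Ioc] at hq ⊢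
    omega
  refine (Finset.sum_le_sum_of_subset_of_nonneg h1 fun _ _ _ => by positivity).trans ?_
  rw [Finset.sum_insert (by simp)]
  have := sum_Ioc_sqrt_le 1 one_pos N
  simp only [Nat.cast_one, Real.sqrt_one] at this ⊢
  linarith

variable {ι : Type*} [Fintype ι] [DecidableEq ι]

/-- The hypotheses on a vector at level zero. -/
structure Hyp0 (x : ι → ℤ) (e w : ℕ) : Prop where
  bound : ∀ i, |x i| ≤ w * (w ^ (26 * (e + 2))) ^ (e + 1)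
  h1 : ∀ v : ι → ℤ, v ≠ 0 → (∀ i, |v i| ≤ Fintype.card ι * (w ^ (26 * e) : ℕ)) → x ⬝ᵥ v ≠ 0
  h2 : ∀ i j, i ≠ j → ∀ a b : ℤ, a ≠ 0 → |a| ≤ (w ^ 2 * (w ^ (26 * (e + 2))) ^ 2 : ℕ) →
    |b| ≤ (w ^ 2 * (w ^ (26 * (e + 2))) ^ 2 : ℕ) → x i * b - x j * a ≠ 0

omit [DecidableEq ι] in
theorem svhyp {x : ι → ℤ} {e w : ℕ} (hx : Hyp0 x e w) (hw : 2 ≤ w)
    (hτ : ∀ t : ℕ, t ≤ w ^ 5 * (w ^ (26 * (e + 2))) ^ (e + 4) → t.divisors.card ≤ w)
    {q Y : ℕ} (hq0 : 0 < q) (hq : q ≤ w ^ (26 * (e + 2)))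
    (hY : Y ≤ w ^ 2 * (w ^ (26 * (e + 2))) ^ 2) :
    SVHyp (fun i => ((2 * q : ℕ) : ℤ) * x i) Y w := by
  set ρ := w ^ (26 * (e + 2)) with hρ
  have hρ0 : 0 < ρ := by positivity
  have hY' : (Y : ℤ) ≤ (w ^ 2 * ρ ^ 2 : ℕ) := by exact_mod_cast hY
  refine ⟨fun i j hij a b ha ha' hb' => ?_, fun a ha => hτ a (ha.trans (hY.trans ?_)),
    fun i j a b ha hb => hτ _ ?_⟩
  · have h1 := hx.h2 i j hij a b ha (ha'.trans hY') (hb'.trans hY')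
    have h2 : ((2 * q : ℕ) : ℤ) * x i * b - ((2 * q : ℕ) : ℤ) * x j * a =
        ((2 * q : ℕ) : ℤ) * (x i * b - x j * a) := by ring
    rw [h2]
    exact mul_ne_zero (by exact_mod_cast (by omega : 2 * q ≠ 0)) h1
  · exact Nat.mul_le_mul (Nat.pow_le_pow_right (by omega) (by omega))
      (Nat.pow_le_pow_right hρ0 (by omega))
  · have h1 : ∀ (l : ι) (c : ℤ), |c| ≤ Y →
        |((2 * q : ℕ) : ℤ) * x l * c| ≤ (2 * ρ) * (w * ρ ^ (e + 1)) * (w ^ 2 * ρ ^ 2) := by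
      intro l c hc
      rw [abs_mul, abs_mul, Nat.abs_cast]
      have h2 : ((2 * q : ℕ) : ℤ) ≤ 2 * ρ := by exact_mod_cast Nat.mul_le_mul_left 2 hq
      have h3 : |x l| ≤ w * (ρ : ℤ) ^ (e + 1) := by have := hx.bound l; rw [hρ]; push_cast; exact this
      have h4 : |c| ≤ w ^ 2 * (ρ : ℤ) ^ 2 := by have := hc.trans hY'; push_cast at this; exact this
      gcongr
    have h2 := (abs_sub _ _).trans (add_le_add (h1 i b hb) (h1 j a ha))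
    have h3 : (4 : ℤ) ≤ w ^ 2 := by
      have : (2 : ℤ) ≤ w := by exact_mod_cast hw
      nlinarith
    have h4 : (2 * ρ) * (w * (ρ : ℤ) ^ (e + 1)) * (w ^ 2 * ρ ^ 2) +
        (2 * ρ) * (w * (ρ : ℤ) ^ (e + 1)) * (w ^ 2 * ρ ^ 2) ≤ w ^ 5 * ρ ^ (e + 4) := by
      calc _ = 4 * (w ^ 3 * (ρ : ℤ) ^ (e + 4)) := by ring
        _ ≤ w ^ 2 * (w ^ 3 * (ρ : ℤ) ^ (e + 4)) := by gcongr
        _ = _ := by ring
    have h5 := h2.trans h4
    rw [← Int.natCast_natAbs] at h5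
    exact_mod_cast h5

omit [DecidableEq ι] in
theorem NS_plain (hd : 2 ≤ Fintype.card ι) {x : ι → ℤ} {w ρ q Y : ℕ} (hρ : 0 < ρ) (hq0 : 0 < q)
    (hY : Y ≤ w ^ 2 * ρ ^ 2) (hsv : SVHyp (fun i => ((2 * q : ℕ) : ℤ) * x i) Y w) (hw : 1 ≤ w) :
    (w : ℝ) ^ 4 * NS x Y ρ q ≤ 30 * Fintype.card ι * w ^ 8 * q ^ 2 := by
  have : Nonempty ι := Fintype.card_pos_iff.1 (by omega)
  have hρ' : (1 : ℝ) ≤ ρ := by exact_mod_cast hρ
  have hq' : (1 : ℝ) ≤ q := by exact_mod_cast hq0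
  have hw' : (1 : ℝ) ≤ w := by exact_mod_cast hw
  have hY' : (Y : ℝ) ≤ w ^ 2 * ρ ^ 2 := by exact_mod_cast hY
  have hκ : (0 : ℝ) < q / ρ := by positivity
  have h1 := nonexact_sum_le hd hsv hκ hκ (⌊(q / ρ : ℝ) * Y⌋₊ + 1) (by omega)
  have h2 : ((farey Y).filter fun t => del (fun i => ((2 * q : ℕ) : ℤ) * x i) t ≤ q / ρ ∧
      ⌊(q / ρ : ℝ) * Y⌋₊ + 1 < av (fun i => ((2 * q : ℕ) : ℤ) * x i) t) = ∅ := by
    rw [Finset.filter_eq_empty_iff]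
    rintro t ht ⟨h3, h4⟩
    have h5 : (t.den : ℝ) ≤ Y := by exact_mod_cast (mem_farey.1 ht).2.2
    have h6 : ((⌊(q / ρ : ℝ) * Y⌋₊ + 1 : ℕ) : ℝ) < av (fun i => ((2 * q : ℕ) : ℤ) * x i) t := by
      exact_mod_cast h4
    have h7 := Nat.lt_floor_add_one ((q / ρ : ℝ) * Y)
    rw [av_eq] at h6
    have h8 : (t.den : ℝ) * del (fun i => ((2 * q : ℕ) : ℤ) * x i) t ≤ Y * (q / ρ) :=
      mul_le_mul h5 h3 (del_nonneg _ _) (by positivity)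
    rw [Nat.cast_add, Nat.cast_one] at h6
    linarith
  rw [h2] at h1
  simp only [card_empty, Nat.cast_zero, zero_mul, add_zero] at h1
  have h3 : ((⌊(q / ρ : ℝ) * Y⌋₊ + 1 : ℕ) : ℝ) ≤ (q / ρ : ℝ) * Y + 1 := by
    push_cast
    have := Nat.floor_le (show 0 ≤ (q / ρ : ℝ) * Y by positivity)
    linarith
  have h4 : (q / ρ : ℝ) ^ 2 * Y ≤ w ^ 2 * q ^ 2 := by
    calc (q / ρ : ℝ) ^ 2 * Y ≤ (q / ρ : ℝ) ^ 2 * (w ^ 2 * ρ ^ 2) := by gcongr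
      _ = _ := by field_simp
  have h5 : (q / ρ : ℝ) ≤ w ^ 2 * q ^ 2 := by
    calc (q / ρ : ℝ) ≤ q := div_le_self (by positivity) hρ'
      _ = 1 * (q * 1) := by ring
      _ ≤ w ^ 2 * (q * q) := by gcongr; exact one_le_pow₀ hw'
      _ = _ := by ring
  have h6 : 3 * (q / ρ : ℝ) ^ 3 * Y / (q / ρ) + q / ρ * ((⌊(q / ρ : ℝ) * Y⌋₊ + 1 : ℕ) : ℝ) ≤
      5 * (w ^ 2 * q ^ 2) := by
    have h7 : 3 * (q / ρ : ℝ) ^ 3 * Y / (q / ρ) = 3 * ((q / ρ : ℝ) ^ 2 * Y) := by field_simp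
    have h8 := mul_le_mul_of_nonneg_left h3 hκ.le
    nlinarith
  calc (w : ℝ) ^ 4 * NS x Y ρ q
      ≤ (w : ℝ) ^ 4 * (6 * Fintype.card ι * w ^ 2 * (5 * (w ^ 2 * q ^ 2))) := by
        refine mul_le_mul_of_nonneg_left (h1.trans ?_) (by positivity)
        gcongr
    _ = _ := by ring

theorem bohr_count {x : ι → ℤ} {e w : ℕ} (he : Fintype.card ι = e + 2) (he3 : 3 ≤ e)
    (hx : Hyp0 x e w) (hw : 12 * (e + 2) ≤ w) {q Y : ℕ} (hq0 : 0 < q) (hq : q ≤ w ^ 16)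
    (hY : Y ≤ w ^ 2 * (w ^ (26 * (e + 2))) ^ 2) :
    (((farey Y).filter fun t => del (fun i => ((2 * q : ℕ) : ℤ) * x i) t ≤
      (w : ℝ) ^ 24 / (w ^ (26 * (e + 2)) : ℕ)).card : ℝ) ≤ 2 ^ (e + 3) * w ^ (52 * e + 77) := by
  have : Nonempty ι := Fintype.card_pos_iff.1 (by omega)
  have hw1 : 1 < w := by omega
  have hw0 : (0 : ℝ) < w := by exact_mod_cast (by omega : 0 < w)
  set ρ := w ^ (26 * (e + 2)) with hρ
  have hρ0 : 0 < ρ := by positivity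
  have h1 := card_bohr_le (fun i => ((2 * q : ℕ) : ℤ) * x i) Y (ρ ^ (e + 2)) (w ^ (26 * e + 27))
    (w ^ (26 * e)) (w ^ 18 * ρ ^ (e + 1)) (by positivity) (by positivity) (by
      calc Y ^ 2 ≤ (w ^ 2 * ρ ^ 2) ^ 2 := by gcongr
        _ = w ^ 4 * ρ ^ 4 := by ring
        _ ≤ ρ * ρ ^ 4 := by gcongr; exact Nat.pow_le_pow_right (by omega) (by omega)
        _ = ρ ^ 5 := by ring
        _ ≤ ρ ^ (e + 2) := Nat.pow_le_pow_right hρ0 (by omega)) (by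
      intro i
      rw [abs_mul, Nat.abs_cast]
      have h2 : ((2 * q : ℕ) : ℤ) ≤ w * w ^ 16 := by
        exact_mod_cast Nat.mul_le_mul (by omega : 2 ≤ w) hq
      have h3 : |x i| ≤ w * (ρ : ℤ) ^ (e + 1) := by
        have := hx.bound i; rw [hρ]; push_cast; exact this
      push_cast at h2 ⊢
      calc 2 * (q : ℤ) * |x i| ≤ (w * w ^ 16) * (w * (ρ : ℤ) ^ (e + 1)) := by gcongr
        _ = _ := by ring) (by
      rw [he]
      have h2 : e + 2 < w ^ 7 := lt_of_lt_of_le (by omega) (Nat.le_self_pow (by omega) w)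
      calc (e + 2) * (w ^ 18 * ρ ^ (e + 1)) * w ^ (26 * e + 27)
          < w ^ 7 * (w ^ 18 * ρ ^ (e + 1)) * w ^ (26 * e + 27) := by gcongr
        _ = ρ ^ (e + 2) := by rw [pow_succ ρ (e + 1), hρ]; ring)
    (r := (w : ℝ) ^ 24 / (ρ : ℕ)) (by
      have hρ' : (0 : ℝ) < ρ := by exact_mod_cast hρ0
      have hw1' : (1 : ℝ) ≤ w := by exact_mod_cast hw1.le
      push_cast
      calc (w : ℝ) ^ 18 * (ρ : ℝ) ^ (e + 1) ≤ w ^ 24 * (ρ : ℝ) ^ (e + 1) := by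
            gcongr
            norm_num
        _ = _ := by field_simp; ring) (by
      rw [he, hρ]
      have hw' : (12 * (e + 2) : ℝ) ≤ w := by exact_mod_cast hw
      push_cast
      have h2 : ((e : ℝ) + 2) * w ^ (26 * e + 27) * (2 * (w ^ 24 / w ^ (26 * (e + 2)))) =
          2 * (e + 2) / w := by
        field_simp
        ring
      rw [h2, div_le_div_iff₀ hw0 (by norm_num)]
      linarith) (by
      intro v hv hv2
      have h2 : (fun i => ((2 * q : ℕ) : ℤ) * x i) ⬝ᵥ v = ((2 * q : ℕ) : ℤ) * (x ⬝ᵥ v) := by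
        simp only [dotProduct, Finset.mul_sum, mul_assoc]
      rw [h2]
      exact mul_ne_zero (by exact_mod_cast (by omega : 2 * q ≠ 0)) (hx.h1 v hv hv2))
  have h2 : w ^ (26 * e + 27) / w ^ (26 * e) = w ^ 27 := by
    rw [pow_add, Nat.mul_div_cancel_left _ (by positivity)]
  rw [h2, he, show e + 2 - 1 = e + 1 by omega] at h1
  have h3 : ((w ^ 27 + 1 : ℕ) : ℝ) ≤ 2 * w ^ 27 := by
    have : 1 ≤ w ^ 27 := Nat.one_le_pow _ _ (by omega)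
    exact_mod_cast (by omega : w ^ 27 + 1 ≤ 2 * w ^ 27)
  refine le_of_mul_le_mul_right (h1.trans ?_)
    (show (0 : ℝ) < ((w ^ (26 * e + 27) : ℕ) : ℝ) ^ (e + 2) by positivity)
  calc 4 * ((ρ ^ (e + 2) : ℕ) : ℝ) * ((w ^ 27 + 1 : ℕ) : ℝ) ^ (e + 1)
      ≤ 4 * ((ρ ^ (e + 2) : ℕ) : ℝ) * (2 * w ^ 27) ^ (e + 1) := by gcongr
    _ = _ := by
        rw [hρ]
        push_cast
        rw [mul_pow]
        simp only [← pow_mul]
        ring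

theorem NS_refined {x : ι → ℤ} {e w : ℕ} (he : Fintype.card ι = e + 2) (he3 : 3 ≤ e)
    (hx : Hyp0 x e w) (hw : 12 * (e + 2) ≤ w) {q Y : ℕ} (hq0 : 0 < q) (hq : q ≤ w ^ 16)
    (hY : Y ≤ w ^ 2 * (w ^ (26 * (e + 2))) ^ 2)
    (hsv : SVHyp (fun i => ((2 * q : ℕ) : ℤ) * x i) Y w) :
    (w : ℝ) ^ 4 * NS x Y (w ^ (26 * (e + 2))) q ≤ (24 * (e + 2) + 2 ^ (e + 3)) * q ^ 2 := by
  have hK := bohr_count he he3 hx hw hq0 hq hY
  set ρ := w ^ (26 * (e + 2)) with hρ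
  have hw0 : (0 : ℝ) < w := by exact_mod_cast (by omega : 0 < w)
  have hw1 : (1 : ℝ) ≤ w := by exact_mod_cast (by omega : 1 ≤ w)
  have hρ0 : 0 < ρ := pow_pos (by omega) _
  have hρ' : (0 : ℝ) < ρ := by exact_mod_cast hρ0
  have hρw : (ρ : ℝ) = w ^ (26 * (e + 2)) := by rw [hρ]; push_cast; rfl
  have hq' : (1 : ℝ) ≤ q := by exact_mod_cast hq0
  have hqw : (q : ℝ) ≤ w ^ 16 := by exact_mod_cast hq
  have hY' : (Y : ℝ) ≤ w ^ 2 * ρ ^ 2 := by exact_mod_cast hY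
  have hκ : (0 : ℝ) < q / ρ := by positivity
  have h1 := nonexact_sum_le (by omega) hsv hκ (r := q / ρ * w ^ 8) (by positivity)
    (w ^ (26 * e + 38)) (pow_pos (by omega) _)
  have h2 : (((farey Y).filter fun t => del (fun i => ((2 * q : ℕ) : ℤ) * x i) t ≤ q / ρ * w ^ 8 ∧
      w ^ (26 * e + 38) < av (fun i => ((2 * q : ℕ) : ℤ) * x i) t).card : ℝ) ≤
      2 ^ (e + 3) * w ^ (52 * e + 77) := by
    refine le_trans ?_ hK
    gcongr with t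
    rintro ⟨h3, -⟩
    refine h3.trans ?_
    calc (q : ℝ) / ρ * w ^ 8 ≤ w ^ 16 / ρ * w ^ 8 := by gcongr
      _ = _ := by ring
  have h3 : (w : ℝ) ^ 6 * (3 * (q / ρ : ℝ) ^ 3 * Y / (q / ρ * w ^ 8)) ≤ 3 * q ^ 2 := by
    calc (w : ℝ) ^ 6 * (3 * (q / ρ : ℝ) ^ 3 * Y / (q / ρ * w ^ 8))
        ≤ (w : ℝ) ^ 6 * (3 * (q / ρ : ℝ) ^ 3 * (w ^ 2 * ρ ^ 2) / (q / ρ * w ^ 8)) := by gcongr
      _ = _ := by field_simp
  have h4 : (w : ℝ) ^ 6 * (q / ρ * w ^ 8 * ((w ^ (26 * e + 38) : ℕ) : ℝ)) ≤ q ^ 2 := by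
    calc (w : ℝ) ^ 6 * (q / ρ * w ^ 8 * ((w ^ (26 * e + 38) : ℕ) : ℝ)) = q * 1 := by
          rw [hρw]
          push_cast
          field_simp
          ring
      _ ≤ q * q := by gcongr
      _ = _ := by ring
  have h5 : (w : ℝ) ^ 4 * (2 ^ (e + 3) * w ^ (52 * e + 77) *
      (q / ρ * w ^ 8 / ((w ^ (26 * e + 38) : ℕ) : ℝ))) ≤ 2 ^ (e + 3) * q ^ 2 := by
    calc _ = 2 ^ (e + 3) * ((q : ℝ) * (1 / w)) := by
          rw [hρw]
          push_cast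
          field_simp
          ring
      _ ≤ 2 ^ (e + 3) * ((q : ℝ) * q) := by
          gcongr
          exact le_trans (by rw [div_le_one hw0]; exact hw1) hq'
      _ = _ := by ring
  rw [he] at h1
  have h6 : (0 : ℝ) ≤ 6 * (e + 2) := by positivity
  calc (w : ℝ) ^ 4 * NS x Y ρ q
      ≤ (w : ℝ) ^ 4 * (6 * ((e + 2 : ℕ) : ℝ) * w ^ 2 * (3 * (q / ρ : ℝ) ^ 3 * Y / (q / ρ * w ^ 8) +
          q / ρ * w ^ 8 * ((w ^ (26 * e + 38) : ℕ) : ℝ)) + 2 ^ (e + 3) * w ^ (52 * e + 77) *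
          (q / ρ * w ^ 8 / ((w ^ (26 * e + 38) : ℕ) : ℝ))) := by
        refine mul_le_mul_of_nonneg_left (h1.trans ?_) (by positivity)
        gcongr
    _ = 6 * (e + 2) * ((w : ℝ) ^ 6 * (3 * (q / ρ : ℝ) ^ 3 * Y / (q / ρ * w ^ 8)) +
          (w : ℝ) ^ 6 * (q / ρ * w ^ 8 * ((w ^ (26 * e + 38) : ℕ) : ℝ))) +
          (w : ℝ) ^ 4 * (2 ^ (e + 3) * w ^ (52 * e + 77) *
          (q / ρ * w ^ 8 / ((w ^ (26 * e + 38) : ℕ) : ℝ))) := by
        rw [Nat.cast_add e 2]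
        push_cast
        ring
    _ ≤ 6 * (e + 2) * (3 * q ^ 2 + q ^ 2) + 2 ^ (e + 3) * q ^ 2 := by gcongr
    _ = _ := by ring

theorem sum_NS_le {x : ι → ℤ} {e w : ℕ} (he : Fintype.card ι = e + 2) (he3 : 3 ≤ e)
    (hx : Hyp0 x e w) (hw : 12 * (e + 2) ≤ w)
    (hτ : ∀ t : ℕ, t ≤ w ^ 5 * (w ^ (26 * (e + 2))) ^ (e + 4) → t.divisors.card ≤ w)
    {Y : ℕ} (hY : Y ≤ w ^ 2 * (w ^ (26 * (e + 2))) ^ 2) :
    ∑ q ∈ Icc 1 (w ^ (26 * (e + 2))),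
      1 / √q ^ 7 * (2 * q + (w : ℝ) ^ 4 * NS x Y (w ^ (26 * (e + 2))) q) ≤
      (3 : ℝ) * (2 + 24 * (e + 2) + 2 ^ (e + 3)) + 60 * (e + 2) := by
  set ρ := w ^ (26 * (e + 2)) with hρ
  have hw0 : (0 : ℝ) < w := by exact_mod_cast (by omega : 0 < w)
  have hρ0 : 0 < ρ := pow_pos (by omega) _
  have h1 : ∀ q ∈ Icc 1 ρ, 1 / √q ^ 7 * (2 * q + (w : ℝ) ^ 4 * NS x Y ρ q) ≤
      (2 + 24 * (e + 2) + 2 ^ (e + 3)) * (1 / √q ^ 3) +
        if w ^ 16 < q then 30 * (e + 2) * w ^ 8 * (1 / √q ^ 3) else 0 := by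
    intro q hq
    obtain ⟨hq0, hq1⟩ := mem_Icc.1 hq
    have hq' : (1 : ℝ) ≤ q := by exact_mod_cast hq0
    have hsv := svhyp hx (by omega) hτ hq0 hq1 hY
    have hs : 0 < √(q : ℝ) := Real.sqrt_pos.2 (by linarith)
    have hsq : (q : ℝ) ^ 2 = √q ^ 4 := by
      rw [show (4 : ℕ) = 2 * 2 from rfl, pow_mul, Real.sq_sqrt (by linarith)]
    have h2 : ∀ c : ℝ, 1 / √(q : ℝ) ^ 7 * (c * q ^ 2) = c * (1 / √q ^ 3) := by
      intro c
      rw [hsq]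
      field_simp
    have h3 : (q : ℝ) ≤ q ^ 2 := by nlinarith
    have h4 : (0 : ℝ) ≤ (24 * (e + 2) + 2 ^ (e + 3)) * q ^ 2 := by positivity
    split_ifs with h
    · have h5 := NS_plain (by omega) hρ0 hq0 hY hsv (by omega)
      rw [he] at h5
      push_cast at h5
      rw [← h2, ← h2, ← mul_add]
      refine mul_le_mul_of_nonneg_left ?_ (by positivity)
      linarith
    · have h5 := NS_refined he he3 hx hw hq0 (not_lt.1 h) hY hsv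
      rw [← h2, add_zero]
      refine mul_le_mul_of_nonneg_left ?_ (by positivity)
      linarith
  refine (Finset.sum_le_sum h1).trans ?_
  rw [Finset.sum_add_distrib, ← Finset.mul_sum, ← Finset.sum_filter, ← Finset.mul_sum]
  have h2 := sum_Icc_sqrt_le ρ
  have h3 : (Icc 1 ρ).filter (fun q => w ^ 16 < q) ⊆ Ioc (w ^ 16) ρ := by
    intro q hq
    simp only [mem_filter, mem_Icc, mem_Ioc] at hq ⊢
    omega
  have h4 := (Finset.sum_le_sum_of_subset_of_nonneg (f := fun q : ℕ => 1 / √(q : ℝ) ^ 3) h3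
    fun _ _ _ => by positivity).trans (sum_Ioc_sqrt_le (w ^ 16) (pow_pos (by omega) _) ρ)
  have h5 : √((w ^ 16 : ℕ) : ℝ) = w ^ 8 := by
    rw [Real.sqrt_eq_iff_mul_self_eq (by positivity) (by positivity)]
    push_cast
    ring
  rw [h5] at h4
  calc _ ≤ (2 + 24 * (e + 2) + 2 ^ (e + 3)) * (3 : ℝ) + 30 * (e + 2) * w ^ 8 * (2 / w ^ 8) := by
        gcongr
    _ = _ := by field_simp; ring

open Classical in
/-- The number of mates at level zero. -/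
theorem level0 {e : ℕ} (he : Fintype.card ι = e + 2) (he7 : 7 ≤ e) : ∃ C : ℝ, 0 ≤ C ∧
    ∀ (x : ι → ℤ) (w : ℕ), Hyp0 x e w → 12 * (e + 2) ≤ w →
    (∀ t : ℕ, t ≤ w ^ 5 * (w ^ (26 * (e + 2))) ^ (e + 4) → t.divisors.card ≤ w) →
    (((box ι (w ^ (26 * (e + 2)))).filter fun z => z ≠ 0 ∧
      z ⬝ᵥ z ≤ ((w ^ (26 * (e + 2)) : ℕ) : ℤ) ^ 2 ∧ ∃ p : ℕ, p.Prime ∧ w < p ∧
        ¬ (p : ℤ) ∣ x ⬝ᵥ x ∧ 2 * (x ⬝ᵥ z) = p * (z ⬝ᵥ z)).card : ℝ) * Real.log w ≤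
      C * ((w ^ (26 * (e + 2)) : ℕ) : ℝ) ^ e := by
  have : Nonempty ι := Fintype.card_pos_iff.1 (by omega)
  obtain ⟨C, hC0, hC⟩ := level0_count (ι := ι) (by omega)
  refine ⟨2 * (C * (3 * (2 + 24 * (e + 2) + 2 ^ (e + 3)) + 60 * (e + 2))), by positivity,
    fun x w hx hw hτ => ?_⟩
  set ρ := w ^ (26 * (e + 2)) with hρ
  have hρ0 : 0 < ρ := pow_pos (by omega) _
  obtain ⟨x₀, hx₀, hg⟩ := Finset.extract_gcd x (univ_nonempty (α := ι))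
  obtain ⟨f, hf⟩ := Finset.gcd_eq_sum_mul univ x₀
  rw [hg] at hf
  have hxne : x ≠ 0 := by
    rintro rfl
    obtain ⟨i⟩ := this
    refine hx.h1 (Pi.single i 1) (by simp) (fun j => ?_) (by simp)
    have h2 : (1 : ℤ) ≤ Fintype.card ι * (w ^ (26 * e) : ℕ) := by
      have : 1 ≤ Fintype.card ι * w ^ (26 * e) := Nat.mul_pos (by omega) (pow_pos (by omega) _)
      exact_mod_cast this
    rw [Pi.single_apply]
    split_ifs <;> simp only [abs_one, abs_zero] <;> omega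
  obtain ⟨γ, hγ⟩ : ∃ γ : ℕ, univ.gcd x = γ :=
    ⟨(univ.gcd x).natAbs, (Int.natAbs_of_nonneg (Int.nonneg_of_normalize_eq_self Finset.normalize_gcd)).symm⟩
  have hxγ : ∀ i, x i = γ * x₀ i := fun i => by rw [← hγ]; exact hx₀ i (mem_univ i)
  have hγ0 : 0 < γ := by
    rcases Nat.eq_zero_or_pos γ with h | h
    · exfalso
      apply hxne
      funext i
      simp [hxγ i, h]
    · exact h
  have hγ' : (0 : ℤ) < γ := by exact_mod_cast hγ0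
  have hdot : ∀ v, x ⬝ᵥ v = γ * (x₀ ⬝ᵥ v) := by
    intro v
    simp only [dotProduct, hxγ, Finset.mul_sum, mul_assoc]
  have hx0 : Hyp0 x₀ e w := by
    refine ⟨fun i => le_trans ?_ (hx.bound i), fun v hv hv2 h => hx.h1 v hv hv2 ?_,
      fun i j hij a b ha ha' hb' h => hx.h2 i j hij a b ha ha' hb' ?_⟩
    · rw [hxγ i, abs_mul, Nat.abs_cast]
      nlinarith [abs_nonneg (x₀ i)]
    · rw [hdot, h, mul_zero]
    · rw [hxγ i, hxγ j]
      linear_combination (γ : ℤ) * h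
  have h1 := hC x₀ f γ ρ w hf.symm hγ0 hρ0
  have h2 := sum_NS_le he (by omega) hx0 hw hτ (Y := w ^ 2 * (ρ ^ 2 / γ))
    (Nat.mul_le_mul_left _ (Nat.div_le_self _ _))
  rw [he, Nat.add_sub_cancel] at h1
  have h3 := log_le_selL w
  have h4 : Real.log w ≤ Real.log (w + 1) :=
    Real.log_le_log (by exact_mod_cast (by omega : 0 < w)) (by linarith)
  have h5 : ((box ι ρ).filter fun z => z ≠ 0 ∧
      z ⬝ᵥ z ≤ ((ρ : ℕ) : ℤ) ^ 2 ∧ ∃ p : ℕ, p.Prime ∧ w < p ∧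
        ¬ (p : ℤ) ∣ x ⬝ᵥ x ∧ 2 * (x ⬝ᵥ z) = p * (z ⬝ᵥ z)).card ≤
      (((Icc 1 (ρ ^ 2 / γ)).sigma fun m => (sph ι (γ * m)).filter
        fun z => (m : ℤ) ∣ 2 * (x₀ ⬝ᵥ z)).filter
      fun y : (_ : ℕ) × (ι → ℤ) =>
        ∃ p : ℕ, p.Prime ∧ w < p ∧ 2 * (x₀ ⬝ᵥ y.2) / (y.1 : ℤ) = p).card := by
    refine Finset.card_le_card_of_injOn (fun z => ⟨(z ⬝ᵥ z).toNat / γ, z⟩) ?_ ?_
    · intro z hz
      obtain ⟨-, hz0, hz1, p, hp1, hp2, hp3, hp4⟩ := mem_filter.1 (mem_coe.1 hz)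
      have hzpos := dot_self_pos hz0
      have hcop : IsCoprime (γ : ℤ) p := by
        rw [Nat.isCoprime_iff_coprime, Nat.coprime_comm, hp1.coprime_iff_not_dvd]
        intro h6
        apply hp3
        rw [hdot]
        exact Dvd.dvd.mul_right (by exact_mod_cast h6) _
      have h6 : (γ : ℤ) ∣ z ⬝ᵥ z :=
        hcop.dvd_of_dvd_mul_left ⟨2 * (x₀ ⬝ᵥ z), by rw [← hp4, hdot]; ring⟩
      obtain ⟨k, hk⟩ := h6
      have hk0 : 0 < k := by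
        rw [hk] at hzpos
        exact (pos_iff_pos_of_mul_pos hzpos).1 hγ'
      obtain ⟨m, rfl⟩ := Int.eq_ofNat_of_zero_le hk0.le
      have hm0 : 0 < m := by exact_mod_cast hk0
      have h7 : (z ⬝ᵥ z).toNat / γ = m := by
        rw [hk, ← Nat.cast_mul, Int.toNat_natCast, Nat.mul_div_cancel_left _ hγ0]
      have h8 : 2 * (x₀ ⬝ᵥ z) = m * p := by
        apply mul_left_cancel₀ hγ'.ne'
        rw [hdot, hk] at hp4
        linarith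
      simp only [h7, coe_filter, mem_sigma, mem_Icc, mem_filter, Set.mem_ofPred_eq, mem_sph]
      refine ⟨⟨⟨hm0, ?_⟩, by rw [hk]; push_cast; rfl, ⟨p, h8⟩⟩, p, hp1, hp2, ?_⟩
      · rw [Nat.le_div_iff_mul_le hγ0, mul_comm]
        rw [hk] at hz1
        exact_mod_cast hz1
      · rw [h8, Int.mul_ediv_cancel_left _ hk0.ne']
    · intro z _ z' _ h
      exact eq_of_heq (Sigma.mk.inj h).2
  have h6 : (0 : ℝ) ≤ Real.log w := Real.log_natCast_nonneg w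
  calc _ ≤ ((((Icc 1 (ρ ^ 2 / γ)).sigma fun m => (sph ι (γ * m)).filter
        fun z => (m : ℤ) ∣ 2 * (x₀ ⬝ᵥ z)).filter
      fun y : (_ : ℕ) × (ι → ℤ) =>
        ∃ p : ℕ, p.Prime ∧ w < p ∧ 2 * (x₀ ⬝ᵥ y.2) / (y.1 : ℤ) = p).card : ℝ) * (2 * selL w) := by
        gcongr
        exact h4.trans h3
    _ ≤ 2 * (C * (ρ : ℝ) ^ e * (3 * (2 + 24 * (e + 2) + 2 ^ (e + 3)) + 60 * (e + 2))) := by
        rw [mul_left_comm]
        refine mul_le_mul_of_nonneg_left (h1.trans ?_) (by norm_num)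
        exact mul_le_mul_of_nonneg_left h2 (by positivity)
    _ = _ := by ring

end Pool.Agent.P.MP_d565f2_an
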