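import Pool.Agent.P.MP_d565f2_an.Analytic

set_option autoImplicit false

open Finset Module

namespace Pool.Agent.P.MP_d565f2_an

theorem not_rel_simple (d n r : ℕ) (hr : 1 ≤ r) (hn : n ≤ r ^ (2 * (d + 1))) :
    ∀ Z ⊆ sph (Fin d) n, Z.Nonempty → ¬ Rel Z ((8 * d + d * 3 ^ d) * r ^ d) := by
  intro Z hZ hne hrel
  obtain ⟨p, hp, hp1, hp2⟩ := Nat.exists_prime_lt_and_le_two_mul (2 * r ^ d) (by positivity)
  have h4 : 4 * (n : ℤ) ≤ (p : ℤ) ^ 2 * (r : ℤ) ^ 2 := by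
    have h1 : 4 * n ≤ p ^ 2 * r ^ 2 :=
      calc 4 * n ≤ 4 * r ^ (2 * (d + 1)) := by omega
        _ = (2 * r ^ d) ^ 2 * r ^ 2 := by ring
        _ ≤ p ^ 2 * r ^ 2 := by gcongr
    exact_mod_cast h1
  refine rec_single hp h4 d ⊤ (by simp) Z hne (fun x hx => mem_sph.1 (hZ hx))
    (fun _ _ _ _ => Submodule.mem_top) (hrel.mono ?_)
  rw [Fintype.card_fin]
  have h1 : (2 * r + 1) ^ d ≤ 3 ^ d * r ^ d := by
    rw [← mul_pow]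
    exact Nat.pow_le_pow_left (by omega) _
  have h2 : p - 1 ≤ 4 * r ^ d := by omega
  calc 2 * (d * (p - 1)) + d * (2 * r + 1) ^ d
      ≤ 2 * (d * (4 * r ^ d)) + d * (3 ^ d * r ^ d) := by gcongr
    _ = (8 * d + d * 3 ^ d) * r ^ d := by ring

theorem simple_bound (d : ℕ) : ∃ C : ℝ, 0 < C ∧ ∀ n : ℕ, 1 ≤ n → ∃ K : ℕ,
    (∀ Z ⊆ sph (Fin d) n, Z.Nonempty → ¬ Rel Z K) ∧
      (K : ℝ) ≤ C * (n : ℝ) ^ ((d : ℝ) / (2 * ((d : ℝ) + 1))) := by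
  refine ⟨((8 * d + d * 3 ^ d : ℕ) : ℝ) * 2 ^ d + 1, by positivity, fun n hn => ?_⟩
  set t : ℝ := (n : ℝ) ^ ((1 : ℝ) / (2 * ((d : ℝ) + 1))) with ht
  have hn' : (1 : ℝ) ≤ n := by exact_mod_cast hn
  have ht1 : 1 ≤ t := Real.one_le_rpow hn' (by positivity)
  have hr1 : t ≤ ⌈t⌉₊ := Nat.le_ceil t
  have hr2 : (⌈t⌉₊ : ℝ) ≤ 2 * t := by
    have := Nat.ceil_lt_add_one (show 0 ≤ t by linarith)
    linarith
  have hr : 1 ≤ ⌈t⌉₊ := by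
    have : (1 : ℝ) ≤ ⌈t⌉₊ := ht1.trans hr1
    exact_mod_cast this
  have htp : t ^ (2 * (d + 1)) = n := by
    rw [ht, ← Real.rpow_natCast, ← Real.rpow_mul (by positivity)]
    push_cast
    rw [one_div_mul_cancel (by positivity), Real.rpow_one]
  have hnr : n ≤ ⌈t⌉₊ ^ (2 * (d + 1)) := by
    have : (n : ℝ) ≤ (⌈t⌉₊ : ℝ) ^ (2 * (d + 1)) := by
      rw [← htp]
      gcongr
    exact_mod_cast this
  refine ⟨_, not_rel_simple d n ⌈t⌉₊ hr hnr, ?_⟩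
  have htd : t ^ d = (n : ℝ) ^ ((d : ℝ) / (2 * ((d : ℝ) + 1))) := by
    rw [ht, ← Real.rpow_natCast, ← Real.rpow_mul (by positivity)]
    congr 1
    field_simp
  rw [← htd, Nat.cast_mul, Nat.cast_pow]
  have h0 : 0 ≤ t ^ d := by positivity
  calc ((8 * d + d * 3 ^ d : ℕ) : ℝ) * (⌈t⌉₊ : ℝ) ^ d
      ≤ ((8 * d + d * 3 ^ d : ℕ) : ℝ) * (2 * t) ^ d := by gcongr
    _ = ((8 * d + d * 3 ^ d : ℕ) : ℝ) * 2 ^ d * t ^ d := by rw [mul_pow]; ring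
    _ ≤ _ := by nlinarith

end Pool.Agent.P.MP_d565f2_an
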