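import Pool.Agent.P.MP_d565f2_an.Divisor

set_option autoImplicit false

open Finset Complex
open scoped Real

namespace Pool.Agent.P.MP_d565f2_an

theorem stdAddChar_eq_ex (q : ℕ) [NeZero q] (j : ℤ) :
    ZMod.stdAddChar (j : ZMod q) = ex ((j : ℝ) / q) := by
  rw [ZMod.stdAddChar_coe, ex]
  congr 1
  push_cast
  ring

theorem card_two_mul_eq_zero (q : ℕ) [NeZero q] :
    (univ.filter fun h : ZMod q => 2 * h = 0).card ≤ 2 := by
  classical
  have hq : 0 < q := NeZero.pos q
  calc (univ.filter fun h : ZMod q => 2 * h = 0).card ≤ ({0, q} : Finset ℕ).card := by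
        refine Finset.card_le_card_of_injOn (fun h => 2 * h.val) ?_ ?_
        · intro h hh
          have h1 : (2 : ZMod q) * h = 0 := (mem_filter.1 (mem_coe.1 hh)).2
          have h2 : ((2 * h.val : ℕ) : ZMod q) = 0 := by
            push_cast
            rw [ZMod.natCast_zmod_val, h1]
          obtain ⟨k, hk⟩ := (ZMod.natCast_eq_zero_iff _ _).1 h2
          have h3 := ZMod.val_lt h
          have h4 : k < 2 := by
            by_contra h5
            have : q * 2 ≤ q * k := Nat.mul_le_mul_left _ (by omega)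
            omega
          simp only [coe_insert, coe_singleton, Set.mem_insert_iff, Set.mem_singleton_iff]
          interval_cases k <;> omega
        · intro a _ b _ hab
          have : a.val = b.val := by simpa using hab
          exact ZMod.val_injective q this
    _ ≤ 2 := Finset.card_le_two

theorem norm_gauss_sq_le (q : ℕ) [NeZero q] (r k : ZMod q) (hr : IsUnit r) :
    ‖∑ j : ZMod q, ZMod.stdAddChar (r * j ^ 2 - k * j)‖ ^ 2 ≤ 2 * q := by
  classical
  set ψ : AddChar (ZMod q) ℂ := ZMod.stdAddChar with hψ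
  have hconj : ∀ x : ZMod q, (starRingEnd ℂ) (ψ x) = ψ (-x) := by
    intro x
    rw [AddChar.map_neg_eq_conj]
  have h1 : (∑ j : ZMod q, ψ (r * j ^ 2 - k * j)) *
      (starRingEnd ℂ) (∑ j : ZMod q, ψ (r * j ^ 2 - k * j)) =
      ∑ h : ZMod q, ψ (r * h ^ 2 - k * h) * (if 2 * h = 0 then (q : ℂ) else 0) := by
    rw [map_sum, Finset.sum_mul_sum, Finset.sum_comm]
    have h2 : ∀ l : ZMod q, ∑ j : ZMod q, ψ (r * j ^ 2 - k * j) *
        (starRingEnd ℂ) (ψ (r * l ^ 2 - k * l)) =
        ∑ h : ZMod q, ψ (r * h ^ 2 - k * h) * ψ (l * (r * (2 * h))) := by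
      intro l
      rw [← Equiv.sum_comp (Equiv.addRight l)]
      refine Finset.sum_congr rfl fun h _ => ?_
      rw [hconj, ← AddChar.map_add_eq_mul, ← AddChar.map_add_eq_mul]
      congr 1
      simp only [Equiv.coe_addRight]
      ring
    simp only [h2]
    rw [Finset.sum_comm]
    refine Finset.sum_congr rfl fun h _ => ?_
    rw [← Finset.mul_sum, AddChar.sum_mulShift _ (ZMod.isPrimitive_stdAddChar q), ZMod.card]
    congr 1
    simp [hr.mul_right_eq_zero]
  have h3 : ‖∑ j : ZMod q, ψ (r * j ^ 2 - k * j)‖ ^ 2 =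
      ‖∑ h : ZMod q, ψ (r * h ^ 2 - k * h) * (if 2 * h = 0 then (q : ℂ) else 0)‖ := by
    rw [← h1, norm_mul, RCLike.norm_conj, sq]
  rw [h3]
  refine (norm_sum_le _ _).trans ?_
  have h4 : ∀ h : ZMod q, ‖ψ (r * h ^ 2 - k * h) * (if 2 * h = 0 then (q : ℂ) else 0)‖ =
      if 2 * h = 0 then (q : ℝ) else 0 := by
    intro h
    rw [norm_mul, AddChar.norm_apply]
    split_ifs <;> simp
  simp only [h4]
  rw [← Finset.sum_filter, Finset.sum_const, nsmul_eq_mul]
  have h5 : ((univ.filter fun h : ZMod q => 2 * h = 0).card : ℝ) ≤ 2 := by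
    exact_mod_cast card_two_mul_eq_zero q
  gcongr

/-- Finite Fourier expansion of `t ↦ e(r t ^ 2 / q)`. -/
theorem gauss_expansion (q : ℕ) (hq : 0 < q) (r : ℤ) (hr : IsCoprime r q) :
    ∃ g : ℕ → ℂ, (∀ k, ‖g k‖ ≤ √2 / √q) ∧
      ∀ t : ℤ, ex ((r : ℝ) * t ^ 2 / q) = ∑ k ∈ range q, g k * ex ((k : ℝ) * t / q) := by
  classical
  have : NeZero q := ⟨hq.ne'⟩
  have hq' : (0 : ℝ) < q := by exact_mod_cast hq
  have hru : IsUnit (r : ZMod q) := by
    obtain ⟨a, b, hab⟩ := hr
    have h1 : ((a * r + b * q : ℤ) : ZMod q) = 1 := by rw [hab]; simp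
    push_cast at h1
    rw [ZMod.natCast_self, mul_zero, add_zero] at h1
    exact IsUnit.of_mul_eq_one_right _ h1
  set ψ : AddChar (ZMod q) ℂ := ZMod.stdAddChar with hψ
  refine ⟨fun k => (q : ℂ)⁻¹ * ∑ j : ZMod q, ψ (r * j ^ 2 - k * j), fun k => ?_, fun t => ?_⟩
  · have h1 := norm_gauss_sq_le q r k hru
    have h2 : ‖∑ j : ZMod q, ψ (r * j ^ 2 - k * j)‖ ≤ √2 * √q := by
      rw [← Real.sqrt_mul (by norm_num)]
      exact Real.le_sqrt_of_sq_le h1
    rw [norm_mul, norm_inv, Complex.norm_natCast]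
    have h3 : √(q : ℝ) * √q = q := Real.mul_self_sqrt hq'.le
    have h4 : 0 < √(q : ℝ) := Real.sqrt_pos.2 hq'
    calc (q : ℝ)⁻¹ * ‖∑ j : ZMod q, ψ (r * j ^ 2 - k * j)‖ ≤ (q : ℝ)⁻¹ * (√2 * √q) := by gcongr
      _ = √2 / √q := by
        field_simp
        rw [Real.sq_sqrt hq'.le]
  · have h1 : ∀ k : ℕ, ex ((k : ℝ) * t / q) = ψ ((k : ZMod q) * t) := by
      intro k
      have := stdAddChar_eq_ex q (k * t)
      push_cast at this
      exact this.symm
    have h2 : ex ((r : ℝ) * t ^ 2 / q) = ψ ((r : ZMod q) * t ^ 2) := by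
      have := stdAddChar_eq_ex q (r * t ^ 2)
      push_cast at this
      exact this.symm
    simp only [h1, h2]
    have h3 : ∀ f : ZMod q → ℂ, ∑ k ∈ range q, f k = ∑ k : ZMod q, f k := by
      intro f
      refine Finset.sum_nbij (fun k => (k : ZMod q)) (fun _ _ => mem_univ _) ?_ ?_ fun _ _ => rfl
      · intro a ha b hb hab
        have := congrArg ZMod.val hab
        rwa [ZMod.val_cast_of_lt (mem_range.1 ha), ZMod.val_cast_of_lt (mem_range.1 hb)] at this
      · intro a _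
        exact ⟨a.val, mem_coe.2 (mem_range.2 (ZMod.val_lt a)), ZMod.natCast_zmod_val a⟩
    rw [h3 fun k => ((q : ℂ)⁻¹ * ∑ j : ZMod q, ψ (r * j ^ 2 - k * j)) * ψ (k * t)]
    simp only [mul_assoc, Finset.sum_mul]
    rw [← Finset.mul_sum, Finset.sum_comm]
    have h4 : ∀ j : ZMod q, ∑ k : ZMod q, ψ (r * j ^ 2 - k * j) * ψ (k * t) =
        ψ (r * j ^ 2) * (if j = t then (q : ℂ) else 0) := by
      intro j
      have h5 : ∀ k : ZMod q, ψ (r * j ^ 2 - k * j) * ψ (k * t) =
          ψ (r * j ^ 2) * ψ (k * (t - j)) := by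
        intro k
        rw [← AddChar.map_add_eq_mul, ← AddChar.map_add_eq_mul]
        congr 1
        ring
      simp only [h5]
      rw [← Finset.mul_sum, AddChar.sum_mulShift _ (ZMod.isPrimitive_stdAddChar q), ZMod.card]
      congr 1
      simp [sub_eq_zero, eq_comm]
    simp only [h4, mul_ite, mul_zero, Finset.sum_ite_eq', mem_univ, if_true]
    have : (q : ℂ) ≠ 0 := by exact_mod_cast hq.ne'
    field_simp

/-- Distance to the nearest integer. -/
noncomputable def nd (y : ℝ) : ℝ := |y - round y|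

theorem nd_nonneg (y : ℝ) : 0 ≤ nd y := abs_nonneg _

/-- The comparison sequence. -/
noncomputable def hh (i : ℤ) : ℝ := Real.exp (π / 9) * Real.exp (-(π / 9)) ^ i.natAbs

theorem hh_nonneg (i : ℤ) : 0 ≤ hh i := by unfold hh; positivity

theorem summable_hh : Summable hh := by
  unfold hh
  refine Summable.mul_left _ ?_
  have h : Summable fun n : ℕ => Real.exp (-(π / 9)) ^ n :=
    summable_geometric_of_lt_one (by positivity) (Real.exp_lt_one_iff.2 (by
      have := Real.pi_pos; linarith))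
  exact summable_int_iff_summable_nat_and_neg.2 ⟨by simpa using h, by simpa using h⟩

/-- The constant `∑ hh`. -/
noncomputable def C0 : ℝ := ∑' i, hh i

theorem C0_nonneg : 0 ≤ C0 := tsum_nonneg hh_nonneg

theorem gauss_term_le {κ w : ℝ} (hκ : 1 / 9 ≤ κ) (j : ℤ) :
    Real.exp (-π * κ * (j - w) ^ 2) ≤ Real.exp (-π * κ * nd w ^ 2) * hh (j - round w) := by
  unfold hh nd
  rw [← Real.exp_nat_mul, ← Real.exp_add, ← Real.exp_add]
  apply Real.exp_le_exp.2
  set i : ℤ := j - round w with hi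
  set e : ℝ := w - round w with he
  have h1 : (j : ℝ) - w = i - e := by rw [hi, he]; push_cast; ring
  have h2 : |e| ≤ 1 / 2 := abs_sub_round w
  have h3 : ((i.natAbs : ℕ) : ℝ) = |(i : ℝ)| := by
    rw [Nat.cast_natAbs]; push_cast; rfl
  rw [h1, h3, sq_abs]
  have h4 : (i : ℝ) * e ≤ |(i : ℝ)| / 2 := by
    calc (i : ℝ) * e ≤ |(i : ℝ) * e| := le_abs_self _
      _ = |(i : ℝ)| * |e| := abs_mul _ _
      _ ≤ |(i : ℝ)| * (1 / 2) := by gcongr
      _ = _ := by ring
  have h5 : |(i : ℝ)| ≤ |(i : ℝ)| ^ 2 := by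
    rcases eq_or_ne i 0 with h | h
    · simp [h]
    · have : (1 : ℝ) ≤ |(i : ℝ)| := by exact_mod_cast Int.one_le_abs h
      nlinarith
  have h6 : (i : ℝ) ^ 2 = |(i : ℝ)| ^ 2 := (sq_abs _).symm
  have h7 : 0 ≤ ((i : ℝ) - e) ^ 2 - e ^ 2 := by nlinarith
  have h8 : |(i : ℝ)| - 1 ≤ ((i : ℝ) - e) ^ 2 - e ^ 2 := by nlinarith [sq_nonneg (|(i : ℝ)| - 1)]
  have h9 : (|(i : ℝ)| - 1) / 9 ≤ κ * (((i : ℝ) - e) ^ 2 - e ^ 2) := by nlinarith
  have := Real.pi_pos
  nlinarith

theorem summable_gauss {κ : ℝ} (hκ : 1 / 9 ≤ κ) (w : ℝ) (q : ℕ) (hq : 0 < q) (k : ℤ) :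
    Summable fun n : ℤ => Real.exp (-π * κ * (((q * n - k : ℤ) : ℝ) - w) ^ 2) := by
  refine Summable.of_nonneg_of_le (fun _ => by positivity) (fun n => gauss_term_le hκ _) ?_
  refine Summable.mul_left _ (summable_hh.comp_injective (i := fun n : ℤ => q * n - k - round w) ?_)
  intro a b hab
  have h1 : (q : ℤ) * a = q * b := by simpa using hab
  exact mul_left_cancel₀ (by exact_mod_cast hq.ne') h1

theorem sum_tsum_gauss_le {κ : ℝ} (hκ : 1 / 9 ≤ κ) (w : ℝ) (q : ℕ) (hq : 0 < q) :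
    ∑ k ∈ range q, ∑' n : ℤ, Real.exp (-π * κ * (((q * n - k : ℤ) : ℝ) - w) ^ 2) ≤
      C0 * Real.exp (-π * κ * nd w ^ 2) := by
  classical
  have h1 := hasSum_sum (s := range q) fun (k : ℕ) _ => (summable_gauss hκ w q hq k).hasSum
  refine hasSum_le_of_sum_le h1 fun s => ?_
  calc ∑ n ∈ s, ∑ k ∈ range q, Real.exp (-π * κ * (((q * n - k : ℤ) : ℝ) - w) ^ 2)
      ≤ ∑ n ∈ s, ∑ k ∈ range q, Real.exp (-π * κ * nd w ^ 2) * hh (q * n - k - round w) :=
        Finset.sum_le_sum fun n _ => Finset.sum_le_sum fun k _ => gauss_term_le hκ _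
    _ = Real.exp (-π * κ * nd w ^ 2) *
          ∑ x ∈ s ×ˢ range q, hh (q * x.1 - x.2 - round w) := by
        rw [Finset.sum_product, Finset.mul_sum]
        exact Finset.sum_congr rfl fun n _ => by rw [Finset.mul_sum]
    _ ≤ Real.exp (-π * κ * nd w ^ 2) * C0 := by
        refine mul_le_mul_of_nonneg_left ?_ (by positivity)
        rw [← Finset.sum_image (f := hh) (g := fun x : ℤ × ℕ => (q : ℤ) * x.1 - x.2 - round w)]
        · exact summable_hh.sum_le_tsum _ fun i _ => hh_nonneg i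
        · rintro ⟨a, k⟩ ha ⟨b, l⟩ hb hab
          have hk : k < q := mem_range.1 (mem_product.1 (mem_coe.1 ha)).2
          have hl : l < q := mem_range.1 (mem_product.1 (mem_coe.1 hb)).2
          have h2 : (q : ℤ) * a - k = q * b - l := by simpa using hab
          have h3 : a = b := by
            by_contra h4
            rcases lt_or_gt_of_ne h4 with h5 | h5
            · have : (q : ℤ) * (a + 1) ≤ q * b := by gcongr; omega
              nlinarith
            · have : (q : ℤ) * (b + 1) ≤ q * a := by gcongr; omega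
              nlinarith
          subst h3
          have : k = l := by omega
          rw [this]
    _ = _ := mul_comm _ _

end Pool.Agent.P.MP_d565f2_an
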