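import Pool.Agent.P.MP_d565f2_an.Theta1

set_option autoImplicit false

open Finset Complex Filter
open scoped Real Topology

namespace Pool.Agent.P.MP_d565f2_an

/-- The terms of the theta series. -/
noncomputable def tt (m α β : ℝ) (t : ℤ) : ℂ :=
  (Real.exp (-π * t ^ 2 / m) : ℂ) * ex (α * t ^ 2 + β * t)

theorem norm_tt (m α β : ℝ) (t : ℤ) : ‖tt m α β t‖ = Real.exp (-π * t ^ 2 / m) := by
  rw [tt, norm_mul, norm_ex, mul_one, Complex.norm_real, Real.norm_of_nonneg (by positivity)]

theorem summable_exp_sq {m : ℝ} (hm : 0 < m) :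
    Summable fun t : ℤ => Real.exp (-π * t ^ 2 / m) := by
  have h : Summable fun n : ℕ => Real.exp (-π / m) ^ n :=
    summable_geometric_of_lt_one (by positivity) (Real.exp_lt_one_iff.2 (by
      have := Real.pi_pos
      rw [neg_div]
      exact neg_lt_zero.2 (by positivity)))
  have h2 : Summable fun n : ℕ => Real.exp (-π * (n : ℝ) ^ 2 / m) := by
    refine Summable.of_nonneg_of_le (fun _ => by positivity) (fun n => ?_) h
    rw [← Real.exp_nat_mul]
    apply Real.exp_le_exp.2
    have h3 : (n : ℝ) ≤ (n : ℝ) ^ 2 := by exact_mod_cast Nat.le_self_pow two_ne_zero n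
    have h4 : 0 < π / m := by positivity
    have h5 : -π * (n : ℝ) ^ 2 / m = -(π / m * (n : ℝ) ^ 2) := by ring
    have h6 : (n : ℝ) * (-π / m) = -(π / m * n) := by ring
    rw [h5, h6]
    nlinarith
  exact summable_int_iff_summable_nat_and_neg.2 ⟨by simpa using h2, by simpa using h2⟩

theorem summable_tt {m : ℝ} (hm : 0 < m) (α β : ℝ) : Summable (tt m α β) :=
  Summable.of_norm (by simpa only [norm_tt] using summable_exp_sq hm)

/-- The theta series. -/
noncomputable def theta (m α β : ℝ) : ℂ := ∑' t, tt m α β t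

theorem norm_theta_le_poisson {m : ℝ} (hm : 0 < m) (η b : ℝ) :
    ‖theta m η b‖ ≤ √m / √(√(1 + (2 * m * η) ^ 2)) *
      ∑' n : ℤ, Real.exp (-π * (m / (1 + (2 * m * η) ^ 2)) * (n - b) ^ 2) := by
  set Y : ℝ := 1 + (2 * m * η) ^ 2 with hY
  have hY0 : 0 < Y := by positivity
  set τ : ℂ := ⟨1 / m, -2 * η⟩ with hτ
  have hτ' : τ = (1 / m : ℝ) - 2 * η * I := by
    apply Complex.ext <;> simp [hτ]
  have hre : 0 < τ.re := by simp [hτ, hm]
  have h1 := Complex.tsum_exp_neg_quadratic hre (I * b)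
  have h2 : theta m η b = ∑' n : ℤ, cexp (-π * τ * n ^ 2 + 2 * π * (I * b) * n) := by
    unfold theta
    refine tsum_congr fun n => ?_
    rw [tt, ex, Complex.ofReal_exp, ← Complex.exp_add, hτ']
    congr 1
    push_cast
    ring
  have hns : Complex.normSq τ = Y / m ^ 2 := by
    rw [hτ, Complex.normSq_mk, hY]
    field_simp
  have hnorm : ‖τ‖ = √Y / m := by
    rw [Complex.norm_eq_sqrt_sq_add_sq]
    have : τ.re ^ 2 + τ.im ^ 2 = Y / m ^ 2 := by rw [← hns, Complex.normSq_apply]; ring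
    rw [this, Real.sqrt_div hY0.le, Real.sqrt_sq hm.le]
  have h3 : ‖(1 : ℂ) / τ ^ (1 / 2 : ℂ)‖ = √m / √(√Y) := by
    have : (1 / 2 : ℂ) = ((1 / 2 : ℝ) : ℂ) := by push_cast; rfl
    rw [norm_div, norm_one, this, Complex.norm_cpow_real, ← Real.sqrt_eq_rpow, hnorm,
      Real.sqrt_div (Real.sqrt_nonneg _)]
    field_simp
  have h4 : ∀ n : ℤ, ‖cexp (-π / τ * (n + I * (I * b)) ^ 2)‖ =
      Real.exp (-π * (m / Y) * (n - b) ^ 2) := by
    intro n
    rw [Complex.norm_exp]
    congr 1
    have h5 : ((n : ℂ) + I * (I * b)) = (((n : ℝ) - b : ℝ) : ℂ) := by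
      push_cast
      linear_combination (b : ℂ) * I_mul_I
    have h6 : -(π : ℂ) / τ * (((n : ℝ) - b : ℝ) : ℂ) ^ 2 =
        ((-π * ((n : ℝ) - b) ^ 2 : ℝ) : ℂ) * τ⁻¹ := by
      push_cast
      ring
    rw [h5, h6, Complex.re_ofReal_mul, Complex.inv_re, hns]
    simp only [hτ]
    field_simp
  have h7 : Summable fun n : ℤ => Real.exp (-π * (m / Y) * (n - b) ^ 2) := by
    have h8 : 0 < Y / m * 2 := by positivity
    refine Summable.of_nonneg_of_le (fun _ => by positivity) (fun n => ?_)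
      ((summable_exp_sq h8).mul_left (Real.exp (π * (m / Y) * b ^ 2)))
    rw [← Real.exp_add]
    apply Real.exp_le_exp.2
    have h9 : -π * (n : ℝ) ^ 2 / (Y / m * 2) = -(π * (m / Y)) * (n ^ 2 / 2) := by
      field_simp
    have h10 : 0 < π * (m / Y) := by positivity
    rw [h9]
    nlinarith [sq_nonneg ((n : ℝ) - 2 * b)]
  rw [h2, h1, norm_mul, h3]
  refine mul_le_mul_of_nonneg_left ?_ (by positivity)
  refine (norm_tsum_le_tsum_norm (by simpa only [h4] using h7)).trans (le_of_eq ?_)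
  exact tsum_congr h4

theorem norm_theta_le {m : ℝ} (hm : 0 < m) (q : ℕ) (hq : 0 < q) (r : ℤ) (hr : IsCoprime r q)
    (η β : ℝ) (hqY : (q : ℝ) ^ 2 * (1 + (2 * m * η) ^ 2) ≤ 9 * m) :
    ‖theta m (r / q + η) β‖ ≤ √2 / √q * (√m / √(√(1 + (2 * m * η) ^ 2))) *
      (C0 * Real.exp (-π * (m / (q ^ 2 * (1 + (2 * m * η) ^ 2))) * nd (q * β) ^ 2)) := by
  obtain ⟨g, hg, hexp⟩ := gauss_expansion q hq r hr
  have hq' : (0 : ℝ) < q := by exact_mod_cast hq
  set Y : ℝ := 1 + (2 * m * η) ^ 2 with hY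
  have hY0 : 0 < Y := by positivity
  have h1 : ∀ t : ℤ, tt m (r / q + η) β t = ∑ k ∈ range q, g k * tt m η (β + k / q) t := by
    intro t
    have h2 : (r / q + η) * (t : ℝ) ^ 2 + β * t = r * t ^ 2 / q + (η * t ^ 2 + β * t) := by ring
    rw [tt, h2, ex_add, hexp, Finset.sum_mul, Finset.mul_sum]
    refine Finset.sum_congr rfl fun k _ => ?_
    have h3 : η * (t : ℝ) ^ 2 + (β + k / q) * t = k * t / q + (η * t ^ 2 + β * t) := by ring
    rw [tt, h3, ex_add (k * t / q)]
    ring
  have h2 : theta m (r / q + η) β = ∑ k ∈ range q, g k * theta m η (β + k / q) := by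
    unfold theta
    simp only [h1]
    rw [Summable.tsum_finsetSum fun k _ => (summable_tt hm η _).mul_left _]
    exact Finset.sum_congr rfl fun k _ => tsum_mul_left
  have hκ : 1 / 9 ≤ m / (q ^ 2 * Y) := by
    rw [div_le_div_iff₀ (by norm_num) (by positivity)]
    linarith
  rw [h2]
  refine (norm_sum_le _ _).trans ?_
  calc ∑ k ∈ range q, ‖g k * theta m η (β + k / q)‖
      ≤ ∑ k ∈ range q, √2 / √q * (√m / √(√Y) *
          ∑' n : ℤ, Real.exp (-π * (m / (q ^ 2 * Y)) * (((q * n - k : ℤ) : ℝ) - q * β) ^ 2)) := by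
        refine Finset.sum_le_sum fun k _ => ?_
        rw [norm_mul]
        refine mul_le_mul (hg k) ((norm_theta_le_poisson hm η _).trans (le_of_eq ?_))
          (norm_nonneg _) (by positivity)
        congr 1
        refine tsum_congr fun n => ?_
        congr 1
        push_cast
        field_simp
        ring
    _ = √2 / √q * (√m / √(√Y)) * ∑ k ∈ range q,
          ∑' n : ℤ, Real.exp (-π * (m / (q ^ 2 * Y)) * (((q * n - k : ℤ) : ℝ) - q * β) ^ 2) := by
        rw [Finset.mul_sum]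
        exact Finset.sum_congr rfl fun k _ => by ring
    _ ≤ _ := mul_le_mul_of_nonneg_left (sum_tsum_gauss_le hκ _ q hq) (by positivity)

variable {ι : Type*} [Fintype ι] [DecidableEq ι]

/-- The exponential sum over the lattice points of a sphere. -/
noncomputable def FF (ι : Type*) [Fintype ι] [DecidableEq ι] (m : ℕ) (β : ι → ℝ) : ℂ :=
  ∑ z ∈ sph ι m, ex (∑ i, β i * z i)

theorem continuous_ex : Continuous ex := (contDiff_ex (n := 0)).continuous

theorem integral_ex (k : ℤ) : ∫ α in (0 : ℝ)..1, ex (α * k) = if k = 0 then 1 else 0 := by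
  split_ifs with h
  · simp [h, ex_zero]
  · have h1 : ∀ α : ℝ, ex (α * k) = cexp ((2 * π * I * k) * α) := by
      intro α
      unfold ex
      congr 1
      push_cast
      ring
    simp only [h1]
    rw [integral_exp_mul_complex (mul_ne_zero Complex.two_pi_I_ne_zero (by exact_mod_cast h))]
    have h2 := h1 1
    rw [one_mul, ex_int] at h2
    rw [← h2]
    simp

omit [DecidableEq ι] in
theorem prod_ex (f : ι → ℝ) : ∏ i, ex (f i) = ex (∑ i, f i) := by
  unfold ex
  rw [← Complex.exp_sum]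
  congr 1
  push_cast
  rw [Finset.mul_sum]

theorem coeff_trunc (m : ℕ) (hm : 0 < m) (β : ι → ℝ) (N : ℕ) (hN : m ≤ N) :
    ∫ α in (0 : ℝ)..1, (∏ i, ∑ t ∈ Icc (-(N : ℤ)) N, tt m α (β i) t) * ex (-(α * m)) =
      (Real.exp (-π) : ℂ) * FF ι m β := by
  have hm' : (0 : ℝ) < m := by exact_mod_cast hm
  have h1 : ∀ α : ℝ, (∏ i, ∑ t ∈ Icc (-(N : ℤ)) N, tt m α (β i) t) * ex (-(α * m)) =
      ∑ z ∈ box ι N, ((Real.exp (-π * ((z ⬝ᵥ z : ℤ) : ℝ) / m) : ℂ) * ex (∑ i, β i * z i)) *
        ex (α * ((z ⬝ᵥ z - m : ℤ) : ℝ)) := by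
    intro α
    rw [Finset.prod_univ_sum, Finset.sum_mul]
    refine Finset.sum_congr rfl fun z _ => ?_
    simp only [tt]
    rw [Finset.prod_mul_distrib, prod_ex, mul_assoc, mul_assoc, ← ex_add, ← ex_add]
    congr 1
    · rw [← Complex.ofReal_prod, ← Real.exp_sum]
      congr 2
      simp only [dotProduct]
      push_cast
      rw [Finset.mul_sum, Finset.sum_div]
      exact Finset.sum_congr rfl fun i _ => by ring
    · congr 1
      simp only [dotProduct]
      push_cast
      rw [Finset.sum_add_distrib, mul_sub, Finset.mul_sum]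
      have : ∑ i, α * (z i : ℝ) ^ 2 = ∑ i, α * ((z i : ℝ) * z i) :=
        Finset.sum_congr rfl fun i _ => by ring
      rw [this]
      ring
  simp only [h1]
  rw [intervalIntegral.integral_finsetSum fun z _ =>
    (Continuous.intervalIntegrable (by have := continuous_ex; fun_prop) _ _)]
  simp only [intervalIntegral.integral_const_mul, integral_ex, mul_ite, mul_one, mul_zero]
  rw [← Finset.sum_filter, FF, Finset.mul_sum]
  have h2 : (box ι N).filter (fun z : ι → ℤ => z ⬝ᵥ z - (m : ℤ) = 0) = sph ι m := by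
    ext z
    rw [mem_filter, mem_sph, sub_eq_zero]
    refine ⟨fun h => h.2, fun h => ⟨mem_box_of_dot ?_, h⟩⟩
    rw [h]
    exact_mod_cast hN.trans (Nat.le_self_pow two_ne_zero N)
  rw [h2]
  refine Finset.sum_congr rfl fun z hz => ?_
  rw [mem_sph.1 hz]
  congr 3
  push_cast
  field_simp

theorem coeff_theta (m : ℕ) (hm : 0 < m) (β : ι → ℝ) :
    ∫ α in (0 : ℝ)..1, (∏ i, theta m α (β i)) * ex (-(α * m)) =
      (Real.exp (-π) : ℂ) * FF ι m β := by
  have hm' : (0 : ℝ) < m := by exact_mod_cast hm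
  have h1 : Tendsto (fun N : ℕ => ∫ α in (0 : ℝ)..1,
      (∏ i, ∑ t ∈ Icc (-(N : ℤ)) N, tt m α (β i) t) * ex (-(α * m))) atTop
      (𝓝 (∫ α in (0 : ℝ)..1, (∏ i, theta m α (β i)) * ex (-(α * m)))) := by
    refine intervalIntegral.tendsto_integral_filter_of_dominated_convergence
      (fun _ => ∏ _i : ι, ∑' t : ℤ, Real.exp (-π * t ^ 2 / m)) ?_ ?_ ?_ ?_
    · refine Eventually.of_forall fun N => Continuous.aestronglyMeasurable ?_
      have := continuous_ex
      unfold tt
      fun_prop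
    · refine Eventually.of_forall fun N => Eventually.of_forall fun α _ => ?_
      rw [norm_mul, norm_ex, mul_one, norm_prod]
      refine Finset.prod_le_prod (fun _ _ => norm_nonneg _) fun i _ => ?_
      refine (norm_sum_le _ _).trans ?_
      simp only [norm_tt]
      exact (summable_exp_sq hm').sum_le_tsum _ fun _ _ => by positivity
    · exact intervalIntegrable_const
    · refine Eventually.of_forall fun α _ => Tendsto.mul_const _ ?_
      refine tendsto_finsetProd _ fun i _ => ?_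
      exact (summable_tt hm' α (β i)).hasSum.comp Finset.tendsto_Icc_neg
  have h2 : Tendsto (fun N : ℕ => ∫ α in (0 : ℝ)..1,
      (∏ i, ∑ t ∈ Icc (-(N : ℤ)) N, tt m α (β i) t) * ex (-(α * m))) atTop
      (𝓝 ((Real.exp (-π) : ℂ) * FF ι m β)) := by
    refine tendsto_const_nhds.congr' ?_
    filter_upwards [eventually_ge_atTop m] with N hN
    exact (coeff_trunc m hm β N hN).symm
  exact tendsto_nhds_unique h1 h2

end Pool.Agent.P.MP_d565f2_an
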