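import Pool.Agent.P.MP_d565f2_an.Theta2

set_option autoImplicit false

open Finset Complex Filter MeasureTheory
open scoped Real Topology

namespace Pool.Agent.P.MP_d565f2_an

/-- The decay function `min (1, b ^ (-3))`. -/
noncomputable def Psi (b : ℝ) : ℝ := 1 / (max 1 b) ^ 3

theorem Psi_nonneg (b : ℝ) : 0 ≤ Psi b := by
  unfold Psi
  have : 0 < max 1 b := lt_of_lt_of_le one_pos (le_max_left _ _)
  positivity

theorem Psi_le_one (b : ℝ) : Psi b ≤ 1 := by
  unfold Psi
  have h : 1 ≤ max 1 b := le_max_left _ _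
  rw [div_le_one (by positivity)]
  exact one_le_pow₀ h

theorem Psi_le {b : ℝ} (hb : 0 < b) : Psi b ≤ 1 / b ^ 3 := by
  unfold Psi
  have h : b ≤ max 1 b := le_max_right _ _
  gcongr

theorem exp_le_Psi {y : ℝ} (hy : 1 ≤ y) (b : ℝ) :
    1 / y ^ 3 * Real.exp (-π * (b ^ 2 / y ^ 2)) ≤ Psi b := by
  have hy0 : 0 < y := by linarith
  unfold Psi
  rcases le_total b 1 with h | h
  · rw [max_eq_left h]
    have h1 : Real.exp (-π * (b ^ 2 / y ^ 2)) ≤ 1 := by
      apply Real.exp_le_one_iff.2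
      have : 0 ≤ π * (b ^ 2 / y ^ 2) := by positivity
      linarith
    have h2 : 1 / y ^ 3 ≤ 1 := by
      rw [div_le_one (by positivity)]
      exact one_le_pow₀ hy
    calc 1 / y ^ 3 * Real.exp (-π * (b ^ 2 / y ^ 2)) ≤ 1 * 1 := by gcongr
      _ = 1 / 1 ^ 3 := by norm_num
  · rw [max_eq_right h]
    have hb0 : 0 < b := by linarith
    set t := b / y with ht
    have ht0 : 0 < t := by positivity
    have h1 : t ≤ Real.exp (t ^ 2) := by
      have := Real.add_one_le_exp (t ^ 2)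
      nlinarith [sq_nonneg (t - 1)]
    have h2 : t ^ 3 ≤ Real.exp (π * t ^ 2) := by
      calc t ^ 3 ≤ Real.exp (t ^ 2) ^ 3 := by gcongr
        _ = Real.exp (3 * t ^ 2) := by rw [← Real.exp_nat_mul]; norm_num
        _ ≤ Real.exp (π * t ^ 2) := by
          apply Real.exp_le_exp.2
          have := Real.pi_gt_three
          nlinarith [sq_nonneg t]
    have h3 : b ^ 2 / y ^ 2 = t ^ 2 := by rw [ht, div_pow]
    rw [h3, neg_mul, Real.exp_neg]
    calc 1 / y ^ 3 * (Real.exp (π * t ^ 2))⁻¹ ≤ 1 / y ^ 3 * (t ^ 3)⁻¹ := by gcongr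
      _ = 1 / b ^ 3 := by rw [ht]; field_simp

/-- The integrable majorant. -/
noncomputable def phi (x : ℝ) : ℝ := ((1 : ℝ) + ‖x‖ ^ 2) ^ (-(3 / 2 : ℝ) / 2)

theorem phi_nonneg (x : ℝ) : 0 ≤ phi x := by unfold phi; positivity

theorem integrable_phi : Integrable phi :=
  integrable_rpow_neg_one_add_norm_sq (by simp; norm_num)

theorem phi_eq (x : ℝ) : phi x = 1 / √(√(1 + x ^ 2)) ^ 3 := by
  have h : (0 : ℝ) ≤ 1 + x ^ 2 := by positivity
  rw [phi, Real.norm_eq_abs, sq_abs, Real.sqrt_eq_rpow, Real.sqrt_eq_rpow, ← Real.rpow_mul h,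
    ← Real.rpow_natCast _ 3, ← Real.rpow_mul h, one_div, ← Real.rpow_neg h]
  norm_num

theorem integral_phi_le {m : ℝ} (hm : 0 < m) (c : ℝ) :
    ∫ α in (0 : ℝ)..1, phi (2 * m * (α - c)) ≤ (∫ x, phi x) / (2 * m) := by
  have h1 : Integrable fun α : ℝ => phi (2 * m * (α - c)) :=
    (integrable_phi.comp_mul_left' (R := 2 * m) (by positivity)).comp_sub_right c
  rw [intervalIntegral.integral_of_le zero_le_one]
  refine (setIntegral_le_integral h1 (Eventually.of_forall fun _ => phi_nonneg _)).trans ?_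
  rw [integral_sub_right_eq_self (fun α : ℝ => phi (2 * m * α)) c, Measure.integral_comp_mul_left,
    abs_of_pos (by positivity), smul_eq_mul]
  apply le_of_eq
  field_simp

theorem intervalIntegrable_phi {m : ℝ} (hm : 0 < m) (c : ℝ) :
    IntervalIntegrable (fun α : ℝ => phi (2 * m * (α - c))) volume 0 1 :=
  ((integrable_phi.comp_mul_left' (R := 2 * m) (by positivity)).comp_sub_right c).intervalIntegrable

variable {ι : Type*} [Fintype ι]

/-- Sup-distance of a vector to the integer lattice. -/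
noncomputable def ndv (β : ι → ℝ) : ℝ := ⨆ i, nd (β i)

theorem nd_le_ndv (β : ι → ℝ) (i : ι) : nd (β i) ≤ ndv β :=
  le_ciSup (f := fun i => nd (β i)) (Set.finite_range _).bddAbove i

theorem exists_ndv_eq [Nonempty ι] (β : ι → ℝ) : ∃ i, nd (β i) = ndv β :=
  exists_eq_ciSup_of_finite (f := fun i => nd (β i))

theorem ndv_nonneg [Nonempty ι] (β : ι → ℝ) : 0 ≤ ndv β := by
  obtain ⟨i, hi⟩ := exists_ndv_eq β
  rw [← hi]
  exact nd_nonneg _

theorem prod_theta_le (hd : 9 ≤ Fintype.card ι) {m : ℝ} (hm : 0 < m) (q : ℕ) (hq : 0 < q) (r : ℤ)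
    (hr : IsCoprime r q) (η : ℝ) (β : ι → ℝ)
    (hqY : (q : ℝ) ^ 2 * (1 + (2 * m * η) ^ 2) ≤ 9 * m) :
    ∏ i, ‖theta m (r / q + η) (β i)‖ ≤
      (√2 * C0) ^ Fintype.card ι * √m ^ Fintype.card ι * (1 / √q ^ 9) *
        Psi (√m * ndv (fun i => q * β i) / q) * phi (2 * m * η) := by
  classical
  have : Nonempty ι := Fintype.card_pos_iff.1 (by omega)
  have hq' : (1 : ℝ) ≤ q := by exact_mod_cast hq
  set Y : ℝ := 1 + (2 * m * η) ^ 2 with hY
  have hY1 : 1 ≤ Y := by rw [hY]; nlinarith [sq_nonneg (2 * m * η)]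
  set y : ℝ := √Y with hy
  have hy1 : 1 ≤ y := Real.one_le_sqrt.2 hY1
  set v : ℝ := √y with hv
  have hv1 : 1 ≤ v := Real.one_le_sqrt.2 hy1
  have hu1 : 1 ≤ √(q : ℝ) := Real.one_le_sqrt.2 hq'
  have hC := C0_nonneg
  obtain ⟨i₀, hi₀⟩ := exists_ndv_eq (fun i => q * β i)
  let E : ι → ℝ := fun i => Real.exp (-π * (m / (q ^ 2 * Y)) * nd (q * β i) ^ 2)
  have hE1 : ∀ i, E i ≤ 1 := by
    intro i
    apply Real.exp_le_one_iff.2
    have : 0 ≤ π * (m / (q ^ 2 * Y)) * nd (q * β i) ^ 2 := by positivity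
    linarith
  have hE0 : ∀ i, 0 ≤ E i := fun i => by positivity
  have h1 : ∏ i, ‖theta m (r / q + η) (β i)‖ ≤ ∏ i, ((√2 * C0 * √m / (√q * v)) * E i) := by
    refine Finset.prod_le_prod (fun _ _ => norm_nonneg _) fun i _ => ?_
    refine (norm_theta_le hm q hq r hr η (β i) hqY).trans (le_of_eq ?_)
    simp only [E]
    rw [← hY, ← hy, ← hv]
    field_simp
  have h2 : ∏ i, E i ≤ E i₀ := by
    rw [← Finset.mul_prod_erase _ _ (mem_univ i₀)]
    exact mul_le_of_le_one_right (hE0 _) (Finset.prod_le_one (fun i _ => hE0 i) fun i _ => hE1 i)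
  have h3 : E i₀ = Real.exp (-π * ((√m * ndv (fun i => q * β i) / q) ^ 2 / y ^ 2)) := by
    simp only [E]
    rw [hi₀, hy, Real.sq_sqrt (by linarith), div_pow, mul_pow, Real.sq_sqrt hm.le]
    congr 1
    field_simp
  have h4 := exp_le_Psi hy1 (√m * ndv (fun i => q * β i) / q)
  rw [← h3] at h4
  have h5 : phi (2 * m * η) = 1 / v ^ 3 := phi_eq _
  have h6 : y = v ^ 2 := by rw [hv, Real.sq_sqrt (by linarith)]
  refine h1.trans ?_
  rw [Finset.prod_mul_distrib, Finset.prod_const, Finset.card_univ, div_pow, mul_pow (√2 * C0), h5]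
  have h7 : (√q * v) ^ 9 ≤ (√q * v) ^ Fintype.card ι :=
    pow_le_pow_right₀ (one_le_mul_of_one_le_of_one_le hu1 hv1) hd
  calc (√2 * C0) ^ Fintype.card ι * √m ^ Fintype.card ι / (√q * v) ^ Fintype.card ι * ∏ i, E i
      ≤ (√2 * C0) ^ Fintype.card ι * √m ^ Fintype.card ι / (√q * v) ^ 9 * E i₀ := by
        gcongr
    _ = (√2 * C0) ^ Fintype.card ι * √m ^ Fintype.card ι * (1 / √q ^ 9) * (1 / y ^ 3 * E i₀) *
          (1 / v ^ 3) := by
        rw [h6]
        field_simp
    _ ≤ _ := by gcongr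

variable [DecidableEq ι]

/-- The pointwise bound for exponential sums over spheres. -/
theorem FF_bound (hd : 9 ≤ Fintype.card ι) : ∃ C : ℝ, 0 ≤ C ∧ ∀ (m : ℕ), 0 < m → ∀ β : ι → ℝ,
    ‖FF ι m β‖ ≤ C * √m ^ (Fintype.card ι - 2) *
      ∑ q ∈ Icc 1 m.sqrt, 1 / √q ^ 7 * Psi (√m * ndv (fun i => q * β i) / q) := by
  have hI : 0 ≤ ∫ x, phi x := integral_nonneg phi_nonneg
  have hC := C0_nonneg
  refine ⟨Real.exp π * (√2 * C0) ^ Fintype.card ι * ∫ x, phi x, by positivity, fun m hm β => ?_⟩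
  have hm' : (0 : ℝ) < m := by exact_mod_cast hm
  set A : ℝ := (√2 * C0) ^ Fintype.card ι * √m ^ Fintype.card ι with hA
  have hA0 : 0 ≤ A := by positivity
  let W : ℕ → ℝ := fun q => A * (1 / √q ^ 9) * Psi (√m * ndv (fun i => q * β i) / q)
  have hW : ∀ q, 0 ≤ W q := fun q => by have := Psi_nonneg (√m * ndv (fun i => q * β i) / q); positivity
  have hQ : 0 < m.sqrt := Nat.sqrt_pos.2 hm
  have hQ1 : ((m.sqrt : ℝ)) ^ 2 ≤ m := by exact_mod_cast Nat.sqrt_le' m
  have hQ2 : (m : ℝ) < ((m.sqrt : ℝ) + 1) ^ 2 := by exact_mod_cast Nat.lt_succ_sqrt' m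
  have hpt : ∀ α ∈ Set.Ioc (0 : ℝ) 1, ‖(∏ i, theta m α (β i)) * ex (-(α * m))‖ ≤
      ∑ q ∈ Icc 1 m.sqrt, ∑ r ∈ range (q + 1), W q * phi (2 * m * (α - r / q)) := by
    intro α hα
    obtain ⟨s, hs1, hs2⟩ := Real.exists_rat_abs_sub_le_and_den_le α hQ
    have hden : (0 : ℝ) < s.den := by exact_mod_cast s.pos
    have hs : (s : ℝ) = s.num / s.den := Rat.cast_def s
    have hQ3 : (1 : ℝ) ≤ m.sqrt := by exact_mod_cast hQ
    have hs3 : |α - s| * s.den ≤ 1 / (m.sqrt + 1) := by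
      calc |α - s| * s.den ≤ 1 / ((m.sqrt + 1) * s.den) * s.den := by gcongr
        _ = 1 / (m.sqrt + 1) := by field_simp
    have hs4 : |α * s.den - s.num| ≤ 1 / 2 := by
      have h1 : α * s.den - s.num = (α - s) * s.den := by rw [hs]; field_simp
      rw [h1, abs_mul, abs_of_pos hden]
      refine hs3.trans ?_
      gcongr
      linarith
    have hn0 : 0 ≤ s.num := by
      have h1 := (abs_le.1 hs4).2
      have h2 : 0 < α * s.den := mul_pos hα.1 hden
      have h3 : (-1 : ℝ) < s.num := by linarith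
      have h4 : (-1 : ℤ) < s.num := by exact_mod_cast h3
      omega
    have hn1 : s.num.toNat < s.den + 1 := by
      have h1 := (abs_le.1 hs4).1
      have h2 : α * s.den ≤ s.den := mul_le_of_le_one_left hden.le hα.2
      have h3 : (s.num : ℝ) < s.den + 1 := by linarith
      have h4 : s.num < (s.den : ℤ) + 1 := by exact_mod_cast h3
      omega
    have hcast : ((s.num.toNat : ℕ) : ℝ) = s.num := by exact_mod_cast Int.toNat_of_nonneg hn0
    have hcop : IsCoprime s.num (s.den : ℤ) := by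
      rw [Int.isCoprime_iff_gcd_eq_one]
      exact s.reduced
    have hqY : (s.den : ℝ) ^ 2 * (1 + (2 * m * (α - s)) ^ 2) ≤ 9 * m := by
      have h1 : (s.den : ℝ) ≤ m.sqrt := by exact_mod_cast hs2
      have h2 : (s.den : ℝ) ^ 2 ≤ m := le_trans (by gcongr) hQ1
      have h3 : ((α - s) * s.den) ^ 2 ≤ 1 / m := by
        rw [← sq_abs, abs_mul, abs_of_pos hden]
        calc (|α - s| * s.den) ^ 2 ≤ (1 / (m.sqrt + 1)) ^ 2 := by gcongr
          _ = 1 / ((m.sqrt : ℝ) + 1) ^ 2 := by rw [div_pow, one_pow]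
          _ ≤ 1 / m := by gcongr
      have h4 : (s.den : ℝ) ^ 2 * (1 + (2 * m * (α - s)) ^ 2) =
          s.den ^ 2 + 4 * m ^ 2 * ((α - s) * s.den) ^ 2 := by ring
      have h5 : 4 * (m : ℝ) ^ 2 * ((α - s) * s.den) ^ 2 ≤ 4 * m ^ 2 * (1 / m) := by gcongr
      have h6 : 4 * (m : ℝ) ^ 2 * (1 / m) = 4 * m := by field_simp
      linarith
    have h1 := prod_theta_le hd hm' s.den s.pos s.num hcop (α - s) β hqY
    have h2 : (s.num : ℝ) / s.den + (α - s) = α := by rw [hs]; ring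
    rw [h2] at h1
    rw [norm_mul, norm_ex, mul_one, norm_prod]
    refine h1.trans ?_
    have h3 : ∀ q : ℕ, ∀ r : ℕ, 0 ≤ W q * phi (2 * m * (α - r / q)) := fun q r =>
      mul_nonneg (hW q) (phi_nonneg _)
    calc _ = W s.den * phi (2 * m * (α - (s.num.toNat : ℕ) / s.den)) := by
          rw [hcast, ← hs]
      _ ≤ ∑ r ∈ range (s.den + 1), W s.den * phi (2 * m * (α - r / s.den)) :=
          Finset.single_le_sum (f := fun r : ℕ => W s.den * phi (2 * m * (α - r / s.den)))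
            (fun r _ => h3 _ r) (mem_range.2 hn1)
      _ ≤ _ :=
          Finset.single_le_sum
            (f := fun q : ℕ => ∑ r ∈ range (q + 1), W q * phi (2 * m * (α - r / q)))
            (fun q _ => Finset.sum_nonneg fun r _ => h3 q r) (mem_Icc.2 ⟨s.pos, hs2⟩)
  have hint : ∀ q r : ℕ, IntervalIntegrable (fun α : ℝ => W q * phi (2 * m * (α - r / q)))
      volume 0 1 := fun q r => (intervalIntegrable_phi hm' _).const_mul _
  have hint2 : ∀ q : ℕ, IntervalIntegrable
      (fun α : ℝ => ∑ r ∈ range (q + 1), W q * phi (2 * m * (α - r / q))) volume 0 1 := by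
    intro q
    have := IntervalIntegrable.sum (range (q + 1)) (μ := volume) (a := 0) (b := 1)
      (f := fun (r : ℕ) (α : ℝ) => W q * phi (2 * m * (α - r / q))) fun r _ => hint q r
    rw [Finset.sum_fn] at this
    exact this
  have h1 := intervalIntegral.norm_integral_le_of_norm_le zero_le_one (Eventually.of_forall hpt)
    (by
      have := IntervalIntegrable.sum (Icc 1 m.sqrt) (μ := volume) (a := 0) (b := 1)
        (f := fun (q : ℕ) (α : ℝ) => ∑ r ∈ range (q + 1), W q * phi (2 * m * (α - r / q)))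
        fun q _ => hint2 q
      rw [Finset.sum_fn] at this
      exact this)
  rw [coeff_theta m hm β, intervalIntegral.integral_finsetSum fun q _ => hint2 q, norm_mul,
    Complex.norm_real, Real.norm_of_nonneg (by positivity)] at h1
  have h2 : ∀ q ∈ Icc 1 m.sqrt,
      ∫ α in (0 : ℝ)..1, ∑ r ∈ range (q + 1), W q * phi (2 * m * (α - r / q)) ≤
        (A / m * ∫ x, phi x) * (1 / √q ^ 7 * Psi (√m * ndv (fun i => q * β i) / q)) := by
    intro q hq
    have hq1 : (1 : ℝ) ≤ q := by exact_mod_cast (mem_Icc.1 hq).1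
    rw [intervalIntegral.integral_finsetSum fun r _ => hint q r]
    simp only [intervalIntegral.integral_const_mul]
    have hP := Psi_nonneg (√m * ndv (fun i => q * β i) / q)
    calc ∑ r ∈ range (q + 1), W q * ∫ α in (0 : ℝ)..1, phi (2 * m * (α - r / q))
        ≤ ∑ r ∈ range (q + 1), W q * ((∫ x, phi x) / (2 * m)) :=
          Finset.sum_le_sum fun r _ => mul_le_mul_of_nonneg_left (integral_phi_le hm' _) (hW q)
      _ = (q + 1) * (W q * ((∫ x, phi x) / (2 * m))) := by simp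
      _ ≤ (2 * √q ^ 2) * (W q * ((∫ x, phi x) / (2 * m))) := by
          have := hW q
          gcongr
          rw [Real.sq_sqrt (by linarith)]
          linarith
      _ = _ := by
          simp only [W]
          have : 0 < √(q : ℝ) := Real.sqrt_pos.2 (by linarith)
          field_simp
  have h3 := h1.trans (Finset.sum_le_sum h2)
  rw [← Finset.mul_sum] at h3
  have h4 : A / m = (√2 * C0) ^ Fintype.card ι * √m ^ (Fintype.card ι - 2) := by
    obtain ⟨e, he⟩ : ∃ e, Fintype.card ι = e + 2 := ⟨Fintype.card ι - 2, by omega⟩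
    rw [hA, he, Nat.add_sub_cancel, pow_add (√(m : ℝ)), Real.sq_sqrt hm'.le]
    field_simp
  rw [h4, Real.exp_neg, inv_mul_le_iff₀ (Real.exp_pos _)] at h3
  refine h3.trans (le_of_eq ?_)
  ring

end Pool.Agent.P.MP_d565f2_an
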